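import Mathlib

/-!
# LFQ: the cohomology of one smooth projective variety

`Coh` collects, for a smooth projective variety `X` of dimension `d` over a finite field of
characteristic `p`, its Weil-etale motivic cohomology, its continuous `ℓ`-adic etale cohomology,
the comparison maps between them, and the theorems of the literature about them that are used.
-/

set_option autoImplicit false

open TensorProduct Polynomial

noncomputable section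

namespace LFQ

/-! ### Groups and homomorphisms -/

instance primeFact (ℓ : Nat.Primes) : Fact (ℓ : ℕ).Prime := ⟨ℓ.2⟩

/-- The ring of `ℓ`-adic integers. -/
def Zp (ℓ : Nat.Primes) : Type := ℤ_[ℓ]

instance (ℓ : Nat.Primes) : CommRing (Zp ℓ) := @PadicInt.instCommRing ℓ _

/-- The field of `ℓ`-adic numbers. -/
def Qp (ℓ : Nat.Primes) : Type := ℚ_[ℓ]

instance (ℓ : Nat.Primes) : Field (Qp ℓ) := @instFieldPadic ℓ _

instance (ℓ : Nat.Primes) : CharZero (Qp ℓ) := @Padic.instCharZero ℓ _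

/-- An abelian group. -/
structure Ab where
  T : Type
  [g : AddCommGroup T]

attribute [instance] Ab.g

/-- A module over the `ℓ`-adic integers. -/
structure Zl (ℓ : Nat.Primes) where
  T : Type
  [g : AddCommGroup T]
  [m : Module (Zp ℓ) T]

attribute [instance] Zl.g Zl.m

/-- The underlying abelian group. -/
def Zl.ab {ℓ : Nat.Primes} (M : Zl ℓ) : Ab := ⟨M.T⟩

/-- Homomorphisms of abelian groups. -/
def Ab.Hom (A B : Ab) : Type := A.T →+ B.T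

/-- The value of a homomorphism. -/
def Ab.Hom.ap {A B : Ab} (f : A.Hom B) (x : A.T) : B.T := (show A.T →+ B.T from f) x

/-- `ℤ_ℓ`-linear maps. -/
def Zl.Hom {ℓ : Nat.Primes} (M N : Zl ℓ) : Type := M.T →ₗ[Zp ℓ] N.T

/-- The value of a linear map. -/
def Zl.Hom.ap {ℓ : Nat.Primes} {M N : Zl ℓ} (f : M.Hom N) (x : M.T) : N.T :=
  (show M.T →ₗ[Zp ℓ] N.T from f) x

/-- Bilinear pairings of abelian groups with values in `ℤ`. -/
structure Ab.Pair (A B : Ab) where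
  ap : A.T → B.T → ℤ
  add_left : ∀ x x' y, ap (x + x') y = ap x y + ap x' y
  add_right : ∀ x y y', ap x (y + y') = ap x y + ap x y'

/-- Bilinear pairings of `ℤ_ℓ`-modules with values in `ℤ_ℓ`. -/
structure Zl.Pair {ℓ : Nat.Primes} (M N : Zl ℓ) where
  ap : M.T → N.T → Zp ℓ
  add_left : ∀ x x' y, ap (x + x') y = ap x y + ap x' y
  smul_left : ∀ (a : Zp ℓ) x y, ap (a • x) y = a * ap x y
  add_right : ∀ x y y', ap x (y + y') = ap x y + ap x y'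
  smul_right : ∀ (a : Zp ℓ) x y, ap x (a • y) = a * ap x y

/-- The kernel of `f` is the image of `F - 1`. -/
def KerIsImage {A B : Type} [AddCommGroup A] [AddCommGroup B] (f : A → B) (F : A → A) : Prop :=
  ∀ x, f x = 0 ↔ ∃ y, x = F y - y

/-- The image of `r` is the set of fixed points of `F`. -/
def ImageIsFixed {A B : Type} (r : A → B) (F : B → B) : Prop := ∀ x, (∃ h, r h = x) ↔ F x = x

/-- `f` and `g` are exact: the kernel of `g` is the image of `f`. -/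
def IsExact {A B C : Type} [AddCommGroup C] (f : A → B) (g : B → C) : Prop :=
  ∀ x, g x = 0 ↔ ∃ y, f y = x

/-! ### Cohomology with Frobenius -/

/-- The groups `C i = H^i(X̄_et, ℤ(n))` with the Frobenius `F`, the groups `H i = H^i_W(X, ℤ(n))`
and the short exact sequences
`0 → H^(i-1)(X̄_et, ℤ(n))_F → H^i_W(X, ℤ(n)) → H^i(X̄_et, ℤ(n))^F → 0`.
Every class on `X̄` is defined over a finite extension of the finite field (`orbit`). -/
structure Weil where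
  C : ℤ → Ab
  H : ℤ → Ab
  F : ∀ i, (C i).Hom (C i)
  inc : ∀ i, (C i).Hom (H (i + 1))
  res : ∀ i, (H i).Hom (C i)
  inc_ker : ∀ i, KerIsImage (inc i).ap (F i).ap
  exact : ∀ i, IsExact (inc i).ap (res (i + 1)).ap
  res_image : ∀ i, ImageIsFixed (res i).ap (F i).ap
  orbit : ∀ i x, ∃ k : ℕ, 0 < k ∧ (F i).ap^[k] x = x

/-- The groups `C i = H^i(X̄_et, ℤ_ℓ(n))` with the Frobenius `F`, the groups
`H i = H^i(X_et, ℤ_ℓ(n))` and the short exact sequences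
`0 → H^(i-1)(X̄_et, ℤ_ℓ(n))_F → H^i(X_et, ℤ_ℓ(n)) → H^i(X̄_et, ℤ_ℓ(n))^F → 0`. -/
structure Adic (ℓ : Nat.Primes) where
  C : ℤ → Zl ℓ
  H : ℤ → Zl ℓ
  F : ∀ i, (C i).Hom (C i)
  inc : ∀ i, (C i).Hom (H (i + 1))
  res : ∀ i, (H i).Hom (C i)
  inc_ker : ∀ i, KerIsImage (inc i).ap (F i).ap
  exact : ∀ i, IsExact (inc i).ap (res (i + 1)).ap
  res_image : ∀ i, ImageIsFixed (res i).ap (F i).ap
  finite : ∀ i, Module.Finite (Zp ℓ) (H i).T

/-- The comparison maps from Weil-etale to `ℓ`-adic cohomology, and the cohomology `Q` of their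
cone; it is uniquely `ℓ`-divisible since `H^i_W(X, ℤ/ℓ(n)) = H^i(X_et, ℤ/ℓ(n))`. -/
structure Comparison {ℓ : Nat.Primes} (W : Weil) (E : Adic ℓ) where
  /-- `H^i(X̄_et, ℤ(n)) → H^i(X̄_et, ℤ_ℓ(n))` -/
  cC : ∀ i, (W.C i).Hom (E.C i).ab
  /-- `H^i_W(X, ℤ(n)) → H^i(X_et, ℤ_ℓ(n))` -/
  cH : ∀ i, (W.H i).Hom (E.H i).ab
  comm_inc : ∀ i x, (cH (i + 1)).ap ((W.inc i).ap x) = (E.inc i).ap ((cC i).ap x)
  comm_res : ∀ i x, (E.res i).ap ((cH i).ap x) = (cC i).ap ((W.res i).ap x)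
  Q : ℤ → Ab
  q : ∀ i, (E.H i).ab.Hom (Q i)
  δ : ∀ i, (Q i).Hom (W.H (i + 1))
  exact_q : ∀ i, IsExact (cH i).ap (q i).ap
  exact_δ : ∀ i, IsExact (q i).ap (δ i).ap
  exact_c : ∀ i, IsExact (δ i).ap (cH (i + 1)).ap
  divisible : ∀ i, Function.Bijective (fun y : (Q i).T => (ℓ : ℕ) • y)

/-! ### Numerical properties -/

/-- `x` is killed by a non-zero integer. -/
def Tors {A : Type} [AddCommGroup A] (x : A) : Prop := ∃ N : ℤ, N ≠ 0 ∧ N • x = 0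

/-- `M ⊗ ℚ_ℓ`. -/
def Zl.Rat {ℓ : Nat.Primes} (M : Zl ℓ) : ModuleCat.{0} (Qp ℓ) :=
  letI : Module ℤ_[ℓ] M.T := M.m
  ModuleCat.of ℚ_[ℓ] (ℚ_[ℓ] ⊗[ℤ_[ℓ]] M.T)

/-- The endomorphism of `M ⊗ ℚ_ℓ` given by an endomorphism of `M`. -/
def Zl.Hom.rat {ℓ : Nat.Primes} {M : Zl ℓ} (F : M.Hom M) : M.Rat →ₗ[Qp ℓ] M.Rat :=
  letI : Module ℤ_[ℓ] M.T := M.m
  LinearMap.baseChange ℚ_[ℓ] (show M.T →ₗ[ℤ_[ℓ]] M.T from F)

/-- The characteristic polynomial of `F` on `M ⊗ ℚ_ℓ` is `P`. -/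
def HasCharpoly {ℓ : Nat.Primes} {M : Zl ℓ} (F : M.Hom M) (P : ℚ[X]) : Prop :=
  ∀ _ : Module.Finite (Qp ℓ) M.Rat, F.rat.charpoly = P.map (Rat.castHom (Qp ℓ))

/-- The rank of a module over `ℤ_ℓ`. -/
def rank {ℓ : Nat.Primes} (M : Zl ℓ) : ℕ := Module.finrank (Zp ℓ) M.T

/-- The `ℤ_ℓ`-span of the image of `c` has torsion cokernel. -/
def TorsCoker {ℓ : Nat.Primes} {A : Ab} {M : Zl ℓ} (c : A.Hom M.ab) : Prop :=
  ∀ e : M.T, ∃ N : ℤ, N ≠ 0 ∧ N • e ∈ Submodule.span (Zp ℓ) {y : M.T | ∃ x, c.ap x = y}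

/-- The cohomology of a smooth projective variety `X` of dimension `d` over a finite field of
characteristic `p`: the groups and the comparison maps for all weights `n` and all primes `ℓ`. -/
structure Groups where
  /-- the characteristic -/
  p : Nat.Primes
  /-- the dimension -/
  d : ℕ
  /-- Weil-etale motivic cohomology of weight `n` -/
  W : ℕ → Weil
  /-- `ℓ`-adic etale cohomology of weight `n` -/
  E : ∀ ℓ : Nat.Primes, ℕ → Adic ℓ
  c : ∀ ℓ n, Comparison (W n) (E ℓ n)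

/-- The characteristic polynomials of Frobenius, and the finiteness theorems. -/
structure Weights (X : Groups) where
  /-- finiteness of `ℓ`-adic cohomology of `X̄`, `ℓ ≠ p` -/
  finite : ∀ ℓ, ℓ ≠ X.p → ∀ n i, Module.Finite (Zp ℓ) ((X.E ℓ n).C i).T
  /-- Gabber: no torsion for almost all `ℓ` -/
  gabber : ∀ n i, ∃ S : Finset Nat.Primes, ∀ ℓ, ℓ ∉ S → ∀ x : ((X.E ℓ n).C i).T, Tors x → x = 0
  /-- Deligne: the characteristic polynomial of Frobenius on `H^i(X̄, ℚ_ℓ(n))` is rational and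
  independent of `ℓ ≠ p`, and `1` is a root only for `i = 2 n ≤ 2 d` -/
  P : ℕ → ℤ → ℚ[X]
  charpoly : ∀ ℓ, ℓ ≠ X.p → ∀ n i, HasCharpoly ((X.E ℓ n).F i) (P n i)
  P_one : ∀ (n : ℕ) (i : ℤ), i ≠ 2 * (n : ℤ) → (P n i).eval 1 ≠ 0
  P_big : ∀ n : ℕ, X.d < n → (P n (2 * (n : ℤ))).eval 1 ≠ 0
  /-- `p`-adic cohomology: torsion outside the degrees `2 n` and `2 n + 1` -/
  tors_p : ∀ (n : ℕ) (i : ℤ), i ≠ 2 * (n : ℤ) → i ≠ 2 * (n : ℤ) + 1 →
    ∀ x : ((X.E X.p n).H i).T, Tors x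
  rank_p : ∀ n : ℕ, rank ((X.E X.p n).H (2 * (n : ℤ))) ≤ (P n (2 * (n : ℤ))).rootMultiplicity 1
  rank_p' : ∀ n : ℕ,
    rank ((X.E X.p n).H (2 * (n : ℤ) + 1)) ≤ (P n (2 * (n : ℤ))).rootMultiplicity 1
  /-- `H^0(X, ℚ_ℓ)` is spanned by the image of `H^0_W(X, ℤ(0))` (the constant functions) -/
  deg_zero : ∀ ℓ, TorsCoker ((X.c ℓ 0).cH (2 * ((0 : ℕ) : ℤ)))

/-- Cup products and Poincare duality for the weights `n + m = d`. -/
structure Duality (X : Groups) (n m : ℕ) where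
  /-- cup product `H^(2n+1)_W(X, ℤ(n)) × H^(2m)_W(X, ℤ(m)) → H^(2d+1)_W(X, ℤ(d)) → ℤ` -/
  pair : ((X.W n).H (2 * (n : ℤ) + 1)).Pair ((X.W m).H (2 * (m : ℤ)))
  /-- cup product `H^(2n+1)(X, ℤ_ℓ(n)) × H^(2m)(X, ℤ_ℓ(m)) → H^(2d+1)(X, ℤ_ℓ(d)) → ℤ_ℓ` -/
  pairE : ∀ ℓ, ((X.E ℓ n).H (2 * (n : ℤ) + 1)).Pair ((X.E ℓ m).H (2 * (m : ℤ)))
  comm : ∀ ℓ x y, (pairE ℓ).ap (((X.c ℓ n).cH _).ap x) (((X.c ℓ m).cH _).ap y) = (pair.ap x y : ℤ)
  /-- Poincare duality -/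
  ker : ∀ ℓ, ℓ ≠ X.p → ∀ x, (∀ y, (pairE ℓ).ap x y = 0) → Tors x

/-- Hard Lefschetz for the weights `n + m = d`, `n ≤ m`. -/
structure Lefschetz (X : Groups) (n m : ℕ) where
  /-- product with the `(m-n)`-th power of a hyperplane class -/
  lef : ((X.W n).H (2 * (n : ℤ))).Hom ((X.W m).H (2 * (m : ℤ)))
  lefE : ∀ ℓ, ((X.E ℓ n).H (2 * (n : ℤ))).Hom ((X.E ℓ m).H (2 * (m : ℤ)))
  comm : ∀ ℓ x, (lefE ℓ).ap (((X.c ℓ n).cH _).ap x) = ((X.c ℓ m).cH _).ap (lef.ap x)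
  coker : ∀ ℓ, ℓ ≠ X.p → ∀ y, ∃ N : ℤ, N ≠ 0 ∧ ∃ x, (lefE ℓ).ap x = N • y

/-- The cohomology of a smooth projective variety `X` of dimension `d` over a finite field of
characteristic `p`. -/
structure Coh extends Groups where
  weights : Weights toGroups
  duality : ∀ n m : ℕ, n + m = d → Duality toGroups n m
  lefschetz : ∀ n m : ℕ, n + m = d → n ≤ m → Lefschetz toGroups n m

/-- `L^n(X)`: all groups `H^i_W(X, ℤ(n))` are finitely generated. -/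
def Groups.L (X : Groups) (n : ℕ) : Prop := ∀ i, AddGroup.FG ((X.W n).H i).T

/-- The `ℤ_ℓ`-module `ℤ_ℓ ⊗ A`. -/
def Ab.tens (A : Ab) (ℓ : Nat.Primes) : ModuleCat.{0} (Zp ℓ) :=
  ModuleCat.of ℤ_[ℓ] (ℤ_[ℓ] ⊗[ℤ] A.T)

end LFQ

end
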