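import Pool.Agent.UQ.Defs
import Pool.Agent.LFQ.Coh

/-!
# LFQ: the language of the final statement (Weil-etale homology and quadratic equations)

The varieties, the class `Member k d` and the systems of quadratic forms are defined in `UQ/Defs.lean`,
the cohomology of a smooth projective variety in `LFQ/Coh.lean`.
-/

set_option autoImplicit false

open CategoryTheory AlgebraicGeometry

namespace LFQ

open Pool.Agent.Lib_helper55.Beil (Var)
open UQ

universe v

/-! ## Homology theories -/

/-- Modules `H i n X` over the ring `Λ`, with their maps; the example is the Weil-etale Borel-Moore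
motivic homology `H_n^W(X, ℤ(i)) ⊗ ℤ_ℓ`, that is the cohomology of the cone of `1 - F` on the etale
Borel-Moore motivic homology of `Xbar`.  The push-forward is used for proper morphisms, the pull-back
for open immersions, finite etale coverings and double covers, the pull-back `lb` for line bundles, the
boundary map for complementary closed and open subvarieties. -/
structure BM (k : Type) [Field k] (Λ : Type) [CommRing Λ] where
  /-- the homology groups -/
  H : ℤ → ℤ → Var k → ModuleCat.{v} Λ
  /-- push-forward -/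
  pf : ∀ (i n : ℤ) {X Y : Var k}, Mo X Y → (H i n X →ₗ[Λ] H i n Y)
  /-- pull-back -/
  pb : ∀ (i n : ℤ) {X Y : Var k}, Mo X Y → (H i n Y →ₗ[Λ] H i n X)
  /-- pull-back to a line bundle -/
  lb : ∀ (i n : ℤ) {Y X : Var k}, Mo Y X → (H i n X →ₗ[Λ] H (i + 1) (n + 2) Y)
  /-- boundary map -/
  bd : ∀ (i n : ℤ) {Z U X : Var k}, Mo Z X → Mo U X → (H i (n + 1) U →ₗ[Λ] H i n Z)

section Theory

variable {k : Type} [Field k] {Λ : Type} [CommRing Λ] (T : BM.{v} k Λ) {i n : ℤ}

/-- Push-forward. -/
def BM.P {X Y : Var k} (f : Mo X Y) (m : T.H i n X) : T.H i n Y := T.pf i n f m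

/-- Pull-back. -/
def BM.R {X Y : Var k} (f : Mo X Y) (m : T.H i n Y) : T.H i n X := T.pb i n f m

/-- Pull-back to a line bundle. -/
def BM.V {Y X : Var k} (q : Mo Y X) (m : T.H i n X) : T.H (i + 1) (n + 2) Y := T.lb i n q m

/-- Boundary. -/
def BM.B {Z U X : Var k} (a : Mo Z X) (j : Mo U X) (u : T.H i (n + 1) U) : T.H i n Z :=
  T.bd i n a j u

/-- All homology groups of `X` are finitely generated. -/
def BM.FG (X : Var k) : Prop := ∀ i n : ℤ, Module.Finite Λ (T.H i n X)

/-- The homology groups of all varieties of dimension at most `d` are finitely generated. -/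
def BM.Low (d : ℕ) : Prop := ∀ X : Var k, DimLE X d → T.FG X

/-- The push-forward along proper morphisms. -/
structure BM.Push : Prop where
  one : ∀ (i n : ℤ) {X : Var k} (f : Mo X X), f.One → ∀ m : T.H i n X, T.P f m = m
  comp : ∀ (i n : ℤ) {X Y Z : Var k} (f : Mo X Y) (g : Mo Y Z) (h : Mo X Z), f.Pr → g.Pr →
    Co f g h → ∀ m : T.H i n X, T.P g (T.P f m) = T.P h m
  base : ∀ (i n : ℤ) {U' X' U X : Var k} (j' : Mo U' X') (f' : Mo U' U) (f : Mo X' X)
    (j : Mo U X), f.Pr → j.Op → Ca j' f' f j → ∀ m : T.H i n X', T.R j (T.P f m) = T.P f' (T.R j' m)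
  clopen : ∀ (i n : ℤ) {Z X : Var k} (a : Mo Z X), a.Cl → a.Op → ∀ m : T.H i n Z,
    T.R a (T.P a m) = m
  boundary : ∀ (i n : ℤ) {Z' U' X' Z U X : Var k} (a' : Mo Z' X') (j' : Mo U' X') (a : Mo Z X)
    (j : Mo U X) (r : Mo Z' Z) (s : Mo U' U) (f : Mo X' X), Comp a' j' → Comp a j → r.Pr → s.Pr →
    f.Pr → a'.g ≫ f.g = r.g ≫ a.g → j'.g ≫ f.g = s.g ≫ j.g →
    ∀ u : T.H i (n + 1) U', T.P r (T.B a' j' u) = T.B a j (T.P s u)

/-- The localisation sequences are exact. -/
structure BM.Loc : Prop where
  atX : ∀ (i n : ℤ) {Z U X : Var k} (a : Mo Z X) (j : Mo U X), Comp a j →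
    ∀ m : T.H i n X, T.R j m = 0 ↔ ∃ z : T.H i n Z, T.P a z = m
  atZ : ∀ (i n : ℤ) {Z U X : Var k} (a : Mo Z X) (j : Mo U X), Comp a j →
    ∀ z : T.H i n Z, T.P a z = 0 ↔ ∃ u : T.H i (n + 1) U, T.B a j u = z
  atU : ∀ (i n : ℤ) {Z U X : Var k} (a : Mo Z X) (j : Mo U X), Comp a j →
    ∀ u : T.H i (n + 1) U, T.B a j u = 0 ↔ ∃ m : T.H i (n + 1) X, T.R j m = u

/-- The pull-back along line bundles: homotopy invariance, base change. -/
structure BM.Bundles : Prop where
  bij : ∀ (i n : ℤ) {Y X : Var k} (q : Mo Y X), q.Bun →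
    Function.Bijective (T.V q : T.H i n X → T.H (i + 1) (n + 2) Y)
  push : ∀ (i n : ℤ) {Y X Y' X' : Var k} (q : Mo Y X) (q' : Mo Y' X') (r : Mo Y' Y) (s : Mo X' X),
    q.Bun → s.Pr → Ca q' r s q → ∀ m : T.H i n X', T.V q (T.P s m) = T.P r (T.V q' m)

/-- The pull-back along coverings. -/
structure BM.Cov : Prop where
  etale : ∀ {V U : Var k} (f : Mo V U), f.Et → IsIntegral U.X → ∃ D : ℕ, D ≠ 0 ∧
    ∀ (i n : ℤ) (m : T.H i n U), T.P f (T.R f m) = (D : Λ) • m
  dbl : ∀ (i n : ℤ) (A : Type) [CommRing A] [Algebra k A] [Algebra.FiniteType k A] (b c : A)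
    (m : T.H i n (sp k A)), T.P (dm k A b c) (T.R (dm k A b c) m) = (2 : Λ) • m
  inv : ∀ (i n : ℤ) (A : Type) [CommRing A] [Algebra k A] [Algebra.FiniteType k A] (b c : A)
    (s : Mo (sdbl k A b c) (sdbl k A b c)), Inv k A b c s → ∀ m : T.H i n (sdbl k A b c),
      T.R (dm k A b c) (T.P (dm k A b c) m) = m + T.P s m

/-- Finiteness theorems. -/
structure BM.Finiteness : Prop where
  empty : ∀ (i n : ℤ) (X : Var k), IsEmpty (Pt X) → Subsingleton (T.H i n X)
  /-- the homology modulo `D` is finitely generated (finite coefficients) -/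
  quot : ∀ (i n : ℤ) (X : Var k) (D : ℕ), D ≠ 0 → ∃ N : Submodule Λ (T.H i n X), N.FG ∧
    ∀ m : T.H i n X, ∃ m' : T.H i n X, m - (D : Λ) • m' ∈ N
  /-- twists larger than the dimension: the rational motivic homology vanishes (weights) -/
  large : ∀ (i n : ℤ) (d : ℕ) (X : Var k), DimLE X d → (d : ℤ) < i → Module.Finite Λ (T.H i n X)
  /-- curves (Harder, Quillen, Grayson) -/
  curves : ∀ X : Var k, DimLE X 1 → T.FG X

/-- The published properties of the homology which are used. -/
structure BM.Pub : Prop where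
  push : T.Push
  loc : T.Loc
  bundles : T.Bundles
  cov : T.Cov
  fin : T.Finiteness

end Theory

/-! ## Smooth projective varieties, smooth affine cubic hypersurfaces -/

section Varieties

variable {k : Type} [Field k]

/-- `Y` is a smooth projective integral variety of dimension `d`. -/
def SPj (Y : Var k) (d : ℕ) : Prop :=
  Smooth Y.f ∧ IDim Y d ∧
    ∃ (n : ℕ) (g : Y.X ⟶ PS k n), IsClosedImmersion g ∧ g ≫ psf k k n = Y.f

/-- The theorem of de Jong on alterations (over a perfect field): every integral variety has a nonempty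
open subvariety with a finite etale covering which is an open subvariety of a smooth projective integral
variety. -/
def PAlt (k : Type) [Field k] : Prop :=
  ∀ (U : Var k) (d : ℕ), IDim U d → ∃ (U' V Y : Var k) (a : Mo U' U) (p : Mo V U') (b : Mo V Y),
    a.Op ∧ p.Et ∧ b.Op ∧ Nonempty (Pt U') ∧ SPj Y d

/-- The property `P` holds for the hypersurfaces `y ^ 2 - y = t_0 f_0(x) + ... + t_m f_m(x)`, for
polynomials `f_j` of degree at most two in the variables `x_1, ..., x_n` (smooth affine hypersurfaces of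
degree at most three). -/
def SmC (P : Var k → Prop) : Prop :=
  ∀ (n m : ℕ) (f : Fin (m + 1) → MvPolynomial (Fin n) k), (∀ j, (f j).totalDegree ≤ 2) →
    P (sas k (MvPolynomial (Fin n) k) f)

/-- The property `P` holds for the smooth affine hypersurfaces
`y ^ 2 - y = t_0 f_0(x) + ... + t_q f_q(x)`, for `q + 1` quadratic forms over `k` with nondegenerate
generic linear combination, in an odd number of variables. -/
def SmS (P : Var k → Prop) (q : ℕ) : Prop :=
  ∀ (n : ℕ) (f : Fin (q + 1) → MvPolynomial (Fin n) k), Odd n → Quad f → NdS f →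
    P (sas k (MvPolynomial (Fin n) k) f)

/-- The property `R` holds for the affine and for the projective zero set of the system `f`, for the
affine and for the projective cubic hypersurface `t_0 f_0(x) + ... + t_q f_q(x) = 0` (`Four`), and for the
smooth affine cubic hypersurface `y ^ 2 - y = t_0 f_0(x) + ... + t_q f_q(x)`. -/
def Five (R : Var k → Prop) {n q : ℕ} (f : Fin (q + 1) → MvPolynomial (Fin (n + 1)) k) : Prop :=
  Four R f ∧ R (sas k (MvPolynomial (Fin (n + 1)) k) f)

end Varieties

/-! ## Main results -/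

section Main

variable {k : Type} [Field k] {Λ : Type} [CommRing Λ] (T : BM.{v} k Λ)

/-- The homology of `X` is finitely generated if and only if the homology of `Y` is. -/
def BM.Eqv (X Y : Var k) : Prop := T.FG X ↔ T.FG Y

/-- For homogeneous polynomials `f j` of positive degree over `A` (if the homology of `A` is finitely
generated) the homology of the affine zero set is finitely generated if and only if the homology of the
projective zero set is. -/
def BM.Cone (A : Type) [CommRing A] [Algebra k A] [Algebra.FiniteType k A] {n : ℕ} {ι : Type}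
    (f : ι → MvPolynomial (Fin (n + 1)) A) : Prop :=
  (∀ j, ∃ m, 1 ≤ m ∧ (f j).IsHomogeneous m) → T.FG (sp k A) →
    (T.FG (szer k A f) ↔ ∀ X : Var k, PSub k f X → T.FG X)

/-- `d + 2` quadratic forms in `n + 1 = 2 m` variables with nondegenerate generic linear combination: the
homology of the affine or projective zero set is finitely generated if and only if the homology of the
discriminant double cover is. -/
def BM.Dis (d m : ℕ) {n : ℕ} (f : Fin (d + 1 + 1) → MvPolynomial (Fin (n + 1)) k) : Prop :=
  n + 1 = 2 * m → Quad f → NdS f → T.Eqv (szer k k f) (disS k k m f) ∧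
    ∀ X : Var k, PSub k f X → T.Eqv X (disS k k m f)

/-- The results in characteristic different from two. -/
structure BM.Quadrics : Prop where
  /-- finite generation in dimension at most `d` is equivalent to finite generation for `d + 2`
  quadratic forms in an odd number of variables -/
  odd : ∀ d : ℕ, T.Low d ↔ OddS T.FG (d + 1)
  oddP : ∀ d : ℕ, T.Low d ↔ OddSP T.FG (d + 1)
  /-- it is equivalent to finite generation for projective cubic hypersurfaces -/
  cubic : ∀ d : ℕ, T.Low d ↔ CubS T.FG (d + 1)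
  /-- it is equivalent to finite generation for smooth affine cubic hypersurfaces -/
  smooth : ∀ d : ℕ, T.Low d ↔ SmS T.FG (d + 1)
  /-- an even number of variables corresponds to double covers of the affine space -/
  even : ∀ d : ℕ, T.Low d → (EvenS T.FG (d + 1) ↔ DblS T.FG (d + 1))
  /-- all systems of quadratic forms -/
  all : ∀ d : ℕ, T.Low d ∧ DblS T.FG (d + 1) ↔ AllS T.FG (d + 1)
  allP : ∀ d : ℕ, T.Low d ∧ DblS T.FG (d + 1) ↔ AllSP T.FG (d + 1)
  /-- one system in an even number of variables and its discriminant double cover -/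
  dis : ∀ d : ℕ, T.Low d → ∀ (n m : ℕ) (f : Fin (d + 1 + 1) → MvPolynomial (Fin (n + 1)) k),
    T.Dis d m f

/-- The main results for a homology theory. -/
structure BM.Main : Prop where
  /-- finite generation holds for `d = 1` -/
  one : ∀ X : Var k, Member k 1 X → T.FG X
  /-- finite generation extends from dimension at most `d` to the class -/
  member : ∀ d : ℕ, T.Low d ↔ ∀ X : Var k, Member k d X → T.FG X
  /-- it suffices to consider smooth projective varieties -/
  alt : PAlt k → ∀ d : ℕ, T.Low d ↔ ∀ (Y : Var k) (D : ℕ), SPj Y D → D ≤ d → T.FG Y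
  /-- affine cones -/
  cone : ∀ (A : Type) [CommRing A] [Algebra k A] [Algebra.FiniteType k A] (n : ℕ) (ι : Type)
    (f : ι → MvPolynomial (Fin (n + 1)) A), T.Cone A f
  /-- all varieties and smooth affine cubic hypersurfaces -/
  smooth : (∀ X : Var k, T.FG X) ↔ SmC T.FG
  quadrics : (2 : k) ≠ 0 → T.Quadrics

end Main

/-- For the integral variety `X` of dimension at most `d + 1` there is a system `f` of `d + 3` quadratic
forms in an odd number of variables with nondegenerate generic linear combination, such that for every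
homology theory (if `d ≤ 1` or the homology of all varieties of dimension at most `d` is finitely
generated) the homology of `X` is finitely generated if and only if the homology of each of the varieties
in `Five` is. -/
def Each (k : Type) [Field k] (d : ℕ) (X : Var k) : Prop :=
  IsIntegral X.X → DimLE X (d + 1 : ℕ) →
    ∃ (n : ℕ) (f : Fin (d + 1 + 1 + 1) → MvPolynomial (Fin (n + 1)) k),
      Odd (n + 1) ∧ Quad f ∧ NdS f ∧
        ∀ (Λ : Type) [CommRing Λ] [IsNoetherianRing Λ] (T : BM.{v} k Λ), IsUnit (2 : Λ) → T.Pub →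
          d ≤ 1 ∨ T.Low d → Five (T.Eqv X) f

/-- The cohomology of all smooth projective integral varieties `Y` over `k`: `C^i = H^i(Ybar, ℤ(n))`,
`H^i = H_W^i(Y, ℤ(n))`, and so on; `C^(2n+1)` is torsion, and `H_W^i(Y, ℤ(n)) ⊗ ℤ_ℓ` is the homology
group `T.H (d - n) (2 d - i) Y`. -/
structure Fam (k : Type) [Field k] (ℓ : Nat.Primes) (T : BM.{v} k (Zp ℓ)) where
  /-- the cohomology -/
  coh : ∀ {Y : Var k} {d : ℕ}, SPj Y d → Coh
  char : ∀ {Y : Var k} {d : ℕ} (h : SPj Y d), CharP k (coh h).p
  dim : ∀ {Y : Var k} {d : ℕ} (h : SPj Y d), (coh h).d = d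
  above : ∀ {Y : Var k} {d : ℕ} (h : SPj Y d) (n : ℕ)
    (x : (((coh h).W n).C (2 * (n : ℤ) + 1)).T), Tors x
  comp : ∀ {Y : Var k} {d : ℕ} (h : SPj Y d) (n : ℕ) (i : ℤ),
    Nonempty (T.H ((d : ℤ) - n) (2 * (d : ℤ) - i) Y ≃ₗ[Zp ℓ] (((coh h).W n).H i).tens ℓ)

section

variable {k : Type} [Field k] {ℓ : Nat.Primes} {T : BM.{v} k (Zp ℓ)} (F : Fam k ℓ T)

/-- `L^n(Y)` for all `n`: all groups `H_W^i(Y, ℤ(n))` are finitely generated. -/
def Fam.L {Y : Var k} {d : ℕ} (h : SPj Y d) : Prop := ∀ n : ℕ, (F.coh h).L n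

/-- The conjecture of Lichtenbaum for the smooth projective varieties of dimension at most `d`. -/
def Fam.LL (d : ℕ) : Prop := ∀ (Y : Var k) (D : ℕ) (h : SPj Y D), D ≤ d → F.L h

/-- The conjecture of Lichtenbaum for all smooth projective varieties over `k`. -/
def Fam.Q1 : Prop := ∀ (Y : Var k) (D : ℕ) (h : SPj Y D), F.L h

/-- `L^n(Y)` for all `n` is equivalent to finite generation of the homology of each of the varieties in
`Five`, for a system `f` of `d + 3` quadratic forms in an odd number of variables with nondegenerate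
generic linear combination. -/
def Fam.Each {Y : Var k} {D : ℕ} (d : ℕ) (h : SPj Y D) : Prop :=
  ∃ (n : ℕ) (f : Fin (d + 1 + 1 + 1) → MvPolynomial (Fin (n + 1)) k),
    Odd (n + 1) ∧ Quad f ∧ NdS f ∧ Five (fun X => F.L h ↔ T.FG X) f

/-- The results for smooth projective varieties in characteristic different from two. -/
structure Fam.Quadrics : Prop where
  odd : ∀ d : ℕ, F.LL d ↔ OddS T.FG (d + 1)
  oddP : ∀ d : ℕ, F.LL d ↔ OddSP T.FG (d + 1)
  cubic : ∀ d : ℕ, F.LL d ↔ CubS T.FG (d + 1)
  smooth : ∀ d : ℕ, F.LL d ↔ SmS T.FG (d + 1)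
  /-- one smooth projective variety and its system -/
  each : ∀ (d : ℕ) (Y : Var k) (D : ℕ) (h : SPj Y D), D ≤ d + 1 → d ≤ 1 ∨ F.LL d → F.Each d h
  all : F.Q1 ↔ ∀ q : ℕ, OddS T.FG q
  cubics : F.Q1 ↔ ∀ q : ℕ, CubS T.FG q

/-- The main results with alterations. -/
structure Fam.Main : Prop where
  low : ∀ d : ℕ, F.LL d ↔ T.Low d
  member : ∀ d : ℕ, F.LL d ↔ ∀ X : Var k, Member k d X → T.FG X
  all : F.Q1 ↔ ∀ X : Var k, T.FG X
  smooth : F.Q1 ↔ SmC T.FG
  quadrics : (2 : k) ≠ 0 → F.Quadrics

end

end LFQ
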