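import Pool.Agent.UQ.Geo

/-!
# LFQ: closure properties of a property of varieties

`Clo P` lists closure properties of a property `P` of varieties: those of the class `Member k d`, and in
addition `third` (the closed part).  All results on systems of quadratic forms are proved for properties
`P` with `Clo P`.
-/

set_option autoImplicit false

open CategoryTheory AlgebraicGeometry Limits Polynomial TopologicalSpace

namespace LFQ

open Pool.Agent.Lib_helper55.Beil Pool.Agent.Lib_helper66.OneP CUB
open QCV (Dr Bun Cls0 Cls Strat OddCl EvenCl DL)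

variable {k : Type} [Field k]

/-- Closure properties of a property of varieties. -/
structure Clo (P : Var k → Prop) : Prop where
  iso : ∀ {X Y : Var k}, VIso X Y → P X → P Y
  empty : ∀ X : Var k, IsEmpty X.X → P X
  paste : ∀ {Z U X : Var k} (a : ClosedIn Z X) (j : OpenIn U X), Complementary a j → P Z → P U → P X
  cut : ∀ {Z U X : Var k} (a : ClosedIn Z X) (j : OpenIn U X), Complementary a j → P X → P Z → P U
  third : ∀ {Z U X : Var k} (a : ClosedIn Z X) (j : OpenIn U X), Complementary a j → P X → P U → P Z
  line : ∀ (A : Type) [CommRing A] [Algebra k A] [Algebra.FiniteType k A],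
    P (aff k A) → P (aff k A[X])
  unline : ∀ {Y X : Var k}, Line Y X → P Y → P X
  cover : ∀ (A : Type) [CommRing A] [Algebra k A] [Algebra.FiniteType k A] (b c : A),
    P (aff k (Dr A b c)) → P (aff k A)
  etale : ∀ {V U : Var k}, Pool.Agent.Lib_helper66.OneP.FinEt V U → IsIntegral U.X → P V → P U
  bundle : ∀ {Y X U : Var k} (B : Bun Y X) (s : ClosedIn X Y) (j : OpenIn U Y), s.g ≫ B.q = 𝟙 X.X →
    Complementary s j → P U → P X
  odd : OddCl k (fun A [CommRing A] [Algebra k A] [Algebra.FiniteType k A] => P (aff k A))
  even : (2 : k) ≠ 0 →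
    EvenCl k (fun A [CommRing A] [Algebra k A] [Algebra.FiniteType k A] => P (aff k A))
  zeros : ∀ (A : Type) [CommRing A] [Algebra k A] [Algebra.FiniteType k A] (m : ℕ)
    (f : Fin (m + 1) → A), P (aff k (VR A f)) → P (aff k (A ⧸ Ideal.span (Set.range f)))

namespace Clo

variable {P : Var k → Prop} (hP : Clo P)

include hP

lemma nil {Z X : Var k} (a : ClosedIn Z X) (h : Function.Surjective a.g) (hX : P X) : P Z :=
  hP.third a (openVarIn X ⊥) (QCV.complementary_surj a h) hX
    (hP.empty _ (isEmpty_openVar_bot X))

lemma red (X : Var k) (h : P (redVar X)) : P X :=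
  hP.paste (redVarIn X) (openVarIn X ⊥) (complementary_red X) h
    (hP.empty _ (isEmpty_openVar_bot X))

/-- The property is inherited by the class built from the varieties of dimension at most `d`. -/
theorem member {d : ℕ} (hB : ∀ X : Var k, X.DimLE d → P X) (X : Var k) (h : QCV.Member k d X) :
    P X := by
  induction h with
  | small X hX => exact hB X hX
  | iso s _ ih => exact hP.iso s ih
  | nil a hs _ ih => exact hP.nil a hs ih
  | paste a j hc _ _ ihZ ihU => exact hP.paste a j hc ihZ ihU
  | cut a j hc _ _ ihX ihZ => exact hP.cut a j hc ihX ihZ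
  | line A _ ih => exact hP.line A ih
  | unline L _ ih => exact hP.unline L ih
  | cover A b c _ ih => exact hP.cover A b c ih
  | etale f hint _ ih => exact hP.etale f hint ih
  | bundle B s j hs hc _ ih => exact hP.bundle B s j hs hc ih
  | odd A m a ha _ ih => exact hP.odd A m a ha ih
  | even A m a h2 ha _ ih => exact hP.even h2 A m a ha ih
  | zeros A m f _ ih => exact hP.zeros A m f ih

lemma cls0 : Cls0 k (fun A [CommRing A] [Algebra k A] [Algebra.FiniteType k A] => P (aff k A)) where
  iso := fun e h => hP.iso (viso e.symm) h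
  triv := fun A _ _ _ h => hP.empty _ (QCV.isEmpty_aff A h)
  glue := fun a z u s hZ hU => hP.paste _ _
    (CUB.complementary_away u a s.away z s.surj s.ker) hZ hU
  opn := fun a z u s hA hZ => hP.cut _ _
    (CUB.complementary_away u a s.away z s.surj s.ker) hA hZ

/-- The closed part. -/
lemma clo3 {A Z U : Type} [CommRing A] [Algebra k A] [Algebra.FiniteType k A] [CommRing Z]
    [Algebra k Z] [Algebra.FiniteType k Z] [CommRing U] [Algebra k U] [Algebra.FiniteType k U]
    (a : A) (z : A →ₐ[k] Z) (u : A →ₐ[k] U) (s : Strat a z u) (hA : P (aff k A))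
    (hU : P (aff k U)) : P (aff k Z) :=
  hP.third _ _ (CUB.complementary_away u a s.away z s.surj s.ker) hA hU

lemma cls {d : ℕ} (h : ∀ X : Var k, X.DimLE d → P X) :
    Cls k d (fun A [CommRing A] [Algebra k A] [Algebra.FiniteType k A] => P (aff k A)) where
  toCls0 := hP.cls0
  line := hP.line
  dbl := hP.cover
  base := fun _ _ _ _ hA => h _ (QCV.dimLE_of_DL hA)

/-- Polynomial rings. -/
lemma poly (A : Type) [CommRing A] [Algebra k A] [Algebra.FiniteType k A] (h : P (aff k A)) (n : ℕ) :
    P (aff k (MvPolynomial (Fin n) A)) :=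
  (QCV.Asm.s_PLY k (fun A [CommRing A] [Algebra k A] [Algebra.FiniteType k A] => P (aff k A))
    hP.cls0 hP.line A n).1 h

end Clo

end LFQ
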