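import Pool.Agent.LFQ.M_REP

/-!
# LFQ: projective varieties and their affine cones; cubic hypersurfaces
-/

set_option autoImplicit false

open CategoryTheory AlgebraicGeometry Limits Polynomial TopologicalSpace

namespace LFQ

open Pool.Agent.Lib_helper55.Beil Pool.Agent.Lib_helper66.OneP CUB
open QCV (Dr Bun Cls0 Cls Strat OddCl EvenCl TwClR DL ER fs gram gen lsub hyp lgen zer hyV ccone
  cubf cubf_homogeneous ProjSub dl_field dimLE_of_DL exists_ambient)

variable {k : Type} [Field k] {P : Var k → Prop}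

/-- The property is determined by the closed subset of an ambient variety. -/
theorem same_range (hC : Clo P) {X Y W : Var k} (a : ClosedIn X W) (b : ClosedIn Y W)
    (h : Set.range a.g = Set.range b.g) (hX : P X) : P Y := by
  have hred := isReduced_redVar Y
  obtain ⟨l, hl⟩ := QCV.exists_factor_range a ((redVarIn Y).trans b) (by
    rintro _ ⟨y, rfl⟩
    rw [h]
    exact ⟨(redVarIn Y).g y, rfl⟩)
  apply hC.red
  refine hC.nil l ?_ hX
  intro x
  have h1 : a.g x ∈ Set.range b.g := by
    rw [← h]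
    exact ⟨x, rfl⟩
  obtain ⟨y, hy⟩ := h1
  obtain ⟨y', hy'⟩ : y ∈ Set.range (redVarIn Y).g := by
    rw [range_redVarIn]
    trivial
  refine ⟨y', ?_⟩
  apply closedIn_injective a
  rw [← hy, ← hy', ← Scheme.Hom.comp_apply, hl]
  rfl

/-- The affine cone over a projective variety `X` and `X`. -/
theorem cone_iff (hC : Clo2 P) {R ι : Type} [CommRing R] [Algebra k R]
    [Algebra.FiniteType k R] {n : ℕ} (f : ι → MvPolynomial (Fin (n + 1)) R) (m : ι → ℕ)
    (hm : ∀ j, (f j).IsHomogeneous (m j)) (hm1 : ∀ j, 1 ≤ m j) (hR : P (aff k R)) :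
    P (aff k (MvPolynomial (Fin (n + 1)) R ⧸ Ideal.span (Set.range f))) ↔
      ∀ (X : Var k) (_ : ProjSub f X), P X := by
  constructor
  · intro h X s
    exact QCV.Asm.s_BCO k P (fun a j hc hX hZ => hC.cut a j hc hX hZ)
      (fun a b hab hX => same_range hC.toClo a b hab hX)
      (fun B s j hs hc hU => hC.bundle B s j hs hc hU)
      R ι n f m hm hm1 hR h X s
  · intro h
    exact QCV.t_CNE k P (fun a j hc hZ hU => hC.paste a j hc hZ hU)
      (fun a b hab hX => same_range hC.toClo a b hab hX)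
      (fun B s j _ hc hX => hC.cut s j hc (hC.up B hX) hX)
      R ι n f m hm hm1 hR h

/-- One projective variety. -/
lemma proj_iff (hC : Clo2 P) (hk : P (aff k k)) {ι : Type} {n : ℕ}
    (f : ι → MvPolynomial (Fin (n + 1)) k) (m : ι → ℕ) (hf : ∀ j, (f j).IsHomogeneous (m j))
    (hm : ∀ j, 1 ≤ m j) {X : Var k} (S : ProjSub f X) :
    P X ↔ P (aff k (MvPolynomial (Fin (n + 1)) k ⧸ Ideal.span (Set.range f))) := by
  rw [cone_iff hC f m hf hm hk]
  constructor
  · intro h Y SY
    obtain ⟨Q, a, b, hab⟩ := exists_ambient f S SY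
    exact same_range hC.toClo a b hab h
  · exact fun h => h X S

/-! ## The part `t_0 = 0` of `t_0 f_0 + ... + t_r f_r = 0` -/

namespace CNE

variable (k) {S : Type} [CommRing S] [Algebra k S] {r : ℕ}

/-- `t_0 ↦ 0`, `t_(j+1) ↦ t_j`. -/
noncomputable def z0 (S : Type) [CommRing S] [Algebra k S] (r : ℕ) :
    MvPolynomial (Fin (r + 1)) S →ₐ[k] MvPolynomial (Fin r) S :=
  (MvPolynomial.aeval (Fin.cons 0 fun j => MvPolynomial.X j :
    Fin (r + 1) → MvPolynomial (Fin r) S)).restrictScalars k

lemma z0_C (s : S) : z0 k S r (MvPolynomial.C s) = MvPolynomial.C s :=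
  MvPolynomial.aeval_C _ s

lemma z0_zero : z0 k S r (MvPolynomial.X 0) = 0 := MvPolynomial.aeval_X _ _

lemma z0_succ (j : Fin r) : z0 k S r (MvPolynomial.X j.succ) = MvPolynomial.X j :=
  MvPolynomial.aeval_X _ _

lemma z0_lin (f : Fin (r + 1) → S) : z0 k S r (lin f) = lin (fun j : Fin r => f j.succ) := by
  unfold lin
  rw [map_sum, Fin.sum_univ_succ, map_mul, z0_zero, zero_mul, zero_add]
  refine Finset.sum_congr rfl fun j _ => ?_
  rw [map_mul, z0_succ, z0_C]

/-- A polynomial modulo `t_0`. -/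
lemma sub_mem (F : MvPolynomial (Fin (r + 1)) S) :
    F - MvPolynomial.rename Fin.succ (z0 k S r F) ∈
      Ideal.span {(MvPolynomial.X 0 : MvPolynomial (Fin (r + 1)) S)} := by
  induction F using MvPolynomial.induction_on with
  | C a =>
    rw [z0_C, MvPolynomial.rename_C, sub_self]
    exact Ideal.zero_mem _
  | add p q hp hq =>
    have := Ideal.add_mem _ hp hq
    rw [map_add, map_add]
    convert this using 1
    ring
  | mul_X p i hp =>
    rw [map_mul, map_mul]
    refine Fin.cases ?_ (fun i => ?_) i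
    · rw [z0_zero, map_zero, mul_zero, sub_zero]
      exact Ideal.mul_mem_left _ _ (Ideal.subset_span rfl)
    · rw [z0_succ, MvPolynomial.rename_X, ← sub_mul]
      exact Ideal.mul_mem_right _ _ hp

/-- The closed part `t_0 = 0`. -/
noncomputable def zq (f : Fin (r + 1) → S) :
    (MvPolynomial (Fin (r + 1)) S ⧸ Ideal.span {lin f}) →ₐ[k]
      (MvPolynomial (Fin r) S ⧸ Ideal.span {lin (fun j : Fin r => f j.succ)}) :=
  Ideal.Quotient.liftₐ _ ((Ideal.Quotient.mkₐ k _).comp (z0 k S r)) (by
    intro a ha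
    have h1 : Ideal.span {lin f} ≤ RingHom.ker ((Ideal.Quotient.mkₐ k
        (Ideal.span {lin (fun j : Fin r => f j.succ)})).comp (z0 k S r)).toRingHom := by
      rw [Ideal.span_singleton_le_iff_mem]
      change Ideal.Quotient.mk _ (z0 k S r (lin f)) = 0
      rw [z0_lin, Ideal.Quotient.eq_zero_iff_mem]
      exact Ideal.subset_span rfl
    exact h1 ha)

lemma zq_mk (f : Fin (r + 1) → S) (F : MvPolynomial (Fin (r + 1)) S) :
    zq k f (Ideal.Quotient.mk _ F) = Ideal.Quotient.mk _ (z0 k S r F) := rfl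

lemma zq_surj (f : Fin (r + 1) → S) : Function.Surjective (zq k f) := by
  intro y
  obtain ⟨G, rfl⟩ := Ideal.Quotient.mk_surjective y
  refine ⟨Ideal.Quotient.mk _ (MvPolynomial.rename Fin.succ G), ?_⟩
  rw [zq_mk]
  congr 1
  induction G using MvPolynomial.induction_on with
  | C a => rw [MvPolynomial.rename_C, z0_C]
  | add p q hp hq => rw [map_add, map_add, hp, hq]
  | mul_X p i hp => rw [map_mul, map_mul, hp, MvPolynomial.rename_X, z0_succ]

lemma zq_ker (f : Fin (r + 1) → S)
    (p : PrimeSpectrum (MvPolynomial (Fin (r + 1)) S ⧸ Ideal.span {lin f})) :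
    RingHom.ker (zq k f).toRingHom ≤ p.asIdeal ↔
      (Ideal.Quotient.mk _ (MvPolynomial.X 0) :
        MvPolynomial (Fin (r + 1)) S ⧸ Ideal.span {lin f}) ∈ p.asIdeal := by
  constructor
  · intro h
    apply h
    change zq k f _ = 0
    rw [zq_mk, z0_zero, map_zero]
  · intro h x hx
    obtain ⟨F, rfl⟩ := Ideal.Quotient.mk_surjective x
    have h1 : Ideal.Quotient.mk (Ideal.span {lin (fun j : Fin r => f j.succ)}) (z0 k S r F) = 0 := hx
    rw [Ideal.Quotient.eq_zero_iff_mem, Ideal.mem_span_singleton] at h1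
    obtain ⟨G, hG⟩ := h1
    obtain ⟨H, hH⟩ := Ideal.mem_span_singleton.mp (sub_mem k F)
    have h2 : MvPolynomial.rename Fin.succ (lin (fun j : Fin r => f j.succ)) =
        lin f - MvPolynomial.X 0 * MvPolynomial.C (f 0) := by
      unfold lin
      rw [map_sum, Fin.sum_univ_succ, add_sub_cancel_left]
      refine Finset.sum_congr rfl fun j _ => ?_
      rw [map_mul, MvPolynomial.rename_X, MvPolynomial.rename_C]
    have h3 : F = MvPolynomial.X 0 * (H - MvPolynomial.C (f 0) * MvPolynomial.rename Fin.succ G) +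
        lin f * MvPolynomial.rename Fin.succ G := by
      rw [hG, map_mul, h2] at hH
      linear_combination hH
    have h4 : (Ideal.Quotient.mk (Ideal.span {lin f}) (lin f)) = 0 :=
      Ideal.Quotient.eq_zero_iff_mem.mpr (Ideal.subset_span rfl)
    rw [h3, map_add, map_mul, map_mul, h4, zero_mul, add_zero]
    exact Ideal.mul_mem_right _ _ h

end CNE

open CNE in
/-- From the cubic to the generic member. -/
theorem fs_of_lin (hC : Clo P) {S : Type} [CommRing S] [Algebra k S] [Algebra.FiniteType k S] {r : ℕ}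
    (f : Fin (r + 1) → S)
    (htail : P (aff k (MvPolynomial (Fin r) S ⧸ Ideal.span {lin (fun j : Fin r => f j.succ)})))
    (h : P (aff k (MvPolynomial (Fin (r + 1)) S ⧸ Ideal.span {lin f}))) :
    P (aff k (MvPolynomial (Fin r) S ⧸ Ideal.span {fs f})) := by
  obtain ⟨u, hu⟩ := QCV.t_LNX k S r f
  have h1 : P (aff k (Localization.Away (X : (MvPolynomial (Fin r) S ⧸ Ideal.span {fs f})[X]))) :=
    hC.cut _ _ (HYP.complementary_rad u _ hu (zq k f) (zq_surj k f) (zq_ker k f)) h htail
  exact t_GM2 k P hC _ h1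

end LFQ
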