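import Pool.Agent.LFQ.Coh
import Pool.Agent.WEt.LightRed

/-!
# LFQ: conversion to the structure `WE.Theory` used in the proofs
-/

set_option autoImplicit false

open TensorProduct Polynomial

noncomputable section

namespace LFQ

variable {A B : Ab} {ℓ : Nat.Primes} {M N : Zl ℓ}

/-- the bilinear map of a pairing -/
def Ab.Pair.lin (b : A.Pair B) : A.T →+ B.T →+ ℤ :=
  AddMonoidHom.mk' (fun x => AddMonoidHom.mk' (b.ap x) (b.add_right x)) fun x x' => by
    ext y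
    exact b.add_left x x' y

/-- the module structure -/
instance oldModule (M : Zl ℓ) : Module ℤ_[ℓ] M.T := M.m

/-- the bilinear map of a pairing -/
def Zl.Pair.lin (b : M.Pair N) : M.T →ₗ[ℤ_[ℓ]] N.T →ₗ[ℤ_[ℓ]] ℤ_[ℓ] :=
  LinearMap.mk₂ ℤ_[ℓ] b.ap b.add_left b.smul_left b.add_right b.smul_right

/-- conversion -/
def Weil.old (W : Weil) : WE.Weil where
  C i := (W.C i).T
  H i := (W.H i).T
  F i := W.F i
  inc i := W.inc i
  res i := W.res i
  inc_eq_zero := W.inc_ker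
  res_mem := W.res_image
  res_eq_zero := W.exact
  orbit := W.orbit

/-- conversion -/
def Adic.old (E : Adic ℓ) : WE.Adic ℓ where
  C i := (E.C i).T
  H i := (E.H i).T
  F i := E.F i
  inc i := E.inc i
  res i := E.res i
  inc_eq_zero := E.inc_ker
  res_mem := E.res_image
  res_eq_zero := E.exact
  finH := E.finite

theorem charpoly_old {F : M.Hom M} {P : ℚ[X]} (h : HasCharpoly F P)
    (hf : Module.Finite ℤ_[ℓ] M.T) :
    (LinearMap.baseChange ℚ_[ℓ] (show M.T →ₗ[ℤ_[ℓ]] M.T from F)).charpoly =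
      P.map (algebraMap ℚ ℚ_[ℓ]) := by
  have h1 : Module.Finite ℚ_[ℓ] (ℚ_[ℓ] ⊗[ℤ_[ℓ]] M.T) := inferInstance
  have h2 := h h1
  have h3 : algebraMap ℚ ℚ_[ℓ] = Rat.castHom ℚ_[ℓ] := rfl
  rw [h3]
  exact h2

/-- conversion -/
def Coh.old (X : Coh) : WE.Theory where
  p := X.p
  d := X.d
  W n := (X.W n).old
  E ℓ n := (X.E ℓ n).old
  cC ℓ n i := (X.c ℓ n).cC i
  cH ℓ n i := (X.c ℓ n).cH i
  cH_inc ℓ n i x := (X.c ℓ n).comm_inc i x
  res_cH ℓ n i x := (X.c ℓ n).comm_res i x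
  Q ℓ n i := ((X.c ℓ n).Q i).T
  q ℓ n i := (X.c ℓ n).q i
  δ ℓ n i := (X.c ℓ n).δ i
  cH_eq_zero ℓ n i h := (X.c ℓ n).exact_c i h
  q_eq_zero ℓ n i e := (X.c ℓ n).exact_q i e
  δ_eq_zero ℓ n i y := (X.c ℓ n).exact_δ i y
  Q_div ℓ n i := (X.c ℓ n).divisible i
  finC ℓ h n i := X.weights.finite ℓ h n i
  gabber := X.weights.gabber
  P := X.weights.P
  charpoly ℓ h n i inst := charpoly_old (X.weights.charpoly ℓ h n i) inst
  P_one := X.weights.P_one
  P_big := X.weights.P_big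
  tors_p := X.weights.tors_p
  rank_p := X.weights.rank_p
  rank_p' := X.weights.rank_p'
  deg_zero ℓ e := X.weights.deg_zero ℓ e
  pair n m h := (X.duality n m h).pair.lin
  pairE ℓ n m h := ((X.duality n m h).pairE ℓ).lin
  pair_cH ℓ n m h x y := (X.duality n m h).comm ℓ x y
  pairE_ker ℓ hℓ n m h x hx := (X.duality n m h).ker ℓ hℓ x hx
  lef n m h h' := (X.lefschetz n m h h').lef
  lefE ℓ n m h h' := (X.lefschetz n m h h').lefE ℓ
  lefE_cH ℓ n m h h' x := (X.lefschetz n m h h').comm ℓ x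
  lefE_coker ℓ hℓ n m h h' y := (X.lefschetz n m h h').coker ℓ hℓ y

theorem L_iff (X : Coh) (n : ℕ) : X.L n ↔ X.old.L n := Iff.rfl

end LFQ

end
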