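import Mathlib

/-!
# LFQ: a group whose tensor product with the `ℓ`-adic integers is finitely generated
-/

set_option autoImplicit false

open TensorProduct

namespace LFQ

/-- The elements of the kernel of `A → R ⊗ A` for a flat `R`. -/
theorem exists_of_tmul_eq_zero {R : Type} [CommRing R] [Module.Flat ℤ R] (p : ℕ)
    (hp : ¬ IsUnit (p : R)) {A : Type*} [AddCommGroup A] (x : A)
    (h : (1 : R) ⊗ₜ[ℤ] x = 0) : ∃ m : ℕ, ¬ p ∣ m ∧ m • x = 0 := by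
  let f : ℤ →ₗ[ℤ] A := LinearMap.toSpanSingleton ℤ A x
  let I : Ideal ℤ := LinearMap.ker f
  let g : (ℤ ⧸ I) →ₗ[ℤ] A := I.liftQ f le_rfl
  have hg : Function.Injective g := by
    rw [← LinearMap.ker_eq_bot]
    exact Submodule.ker_liftQ_eq_bot _ _ _ le_rfl
  have h1 : Function.Injective (g.lTensor R) := Module.Flat.lTensor_preserves_injective_linearMap g hg
  have h2 : (1 : R) ⊗ₜ[ℤ] (Ideal.Quotient.mk I 1) = 0 := by
    apply h1
    rw [LinearMap.lTensor_tmul, map_zero]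
    have h3 : g (Ideal.Quotient.mk I 1) = x := by
      have h4 : g (Ideal.Quotient.mk I 1) = f 1 := rfl
      rw [h4]
      exact one_smul ℤ x
    rw [h3, h]
  have h3 := congrArg (TensorProduct.tensorQuotEquivQuotSMul R I) h2
  rw [map_zero] at h3
  have h4 : TensorProduct.tensorQuotEquivQuotSMul R I ((1 : R) ⊗ₜ[ℤ] (Ideal.Quotient.mk I 1)) =
      Submodule.Quotient.mk ((1 : ℤ) • (1 : R)) :=
    TensorProduct.tensorQuotEquivQuotSMul_tmul_mk I (1 : R) (1 : ℤ)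
  rw [h4, one_smul, Submodule.Quotient.mk_eq_zero] at h3
  by_contra hcon
  push Not at hcon
  have h5 : ∀ N ∈ I, (p : ℤ) ∣ N := by
    intro N hN
    by_contra h6
    refine hcon N.natAbs (fun h7 => h6 (Int.natCast_dvd.mpr h7)) ?_
    have h8 : N • x = 0 := hN
    rcases Int.natAbs_eq N with h9 | h9
    · rw [h9, natCast_zsmul] at h8
      exact h8
    · rw [h9, neg_smul, neg_eq_zero, natCast_zsmul] at h8
      exact h8
  have h6 : (I • (⊤ : Submodule ℤ R)) ≤ ((Ideal.span {(p : R)}).restrictScalars ℤ) := by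
    rw [Submodule.smul_le]
    intro N hN y _
    obtain ⟨c, rfl⟩ := h5 N hN
    have h7 : ((p : ℤ) * c) • y = (p : R) * ((c : R) * y) := by
      rw [zsmul_eq_mul]
      push_cast
      ring
    rw [h7]
    exact Ideal.mul_mem_right _ _ (Ideal.mem_span_singleton_self _)
  have h7 : (1 : R) ∈ Ideal.span {(p : R)} := h6 h3
  exact hp (isUnit_of_dvd_one (Ideal.mem_span_singleton.mp h7))


/-- If `ℤ_ℓ ⊗ A` is finitely generated, then `A ⊗ ℤ_(ℓ)` contains no divisible subgroup. -/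
theorem red_of_fin (ℓ : ℕ) [Fact ℓ.Prime] {A : Type} [AddCommGroup A]
    (h : Module.Finite ℤ_[ℓ] (ℤ_[ℓ] ⊗[ℤ] A)) (x : ℕ → A) (hx : ∀ k, ℓ • x (k + 1) = x k) :
    ∃ m : ℕ, ¬ ℓ ∣ m ∧ m • x 0 = 0 := by
  refine exists_of_tmul_eq_zero (R := ℤ_[ℓ]) ℓ ?_ (x 0) ?_
  · rw [PadicInt.isUnit_iff]
    intro h1
    have h2 : ‖(ℓ : ℤ_[ℓ])‖ < 1 := by
      have := (PadicInt.norm_int_lt_one_iff_dvd (p := ℓ) (ℓ : ℤ)).mpr (dvd_refl _)
      simpa using this
    exact absurd h1 (ne_of_lt h2)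
  · have h1 : ∀ k, (ℓ ^ k : ℕ) • x k = x 0 := by
      intro k
      induction k with
      | zero => simp
      | succ k ih => rw [pow_succ, mul_smul, hx, ih]
    have h2 : (1 : ℤ_[ℓ]) ⊗ₜ[ℤ] x 0 ∈ (⨅ k : ℕ, (IsLocalRing.maximalIdeal ℤ_[ℓ]) ^ k •
        (⊤ : Submodule ℤ_[ℓ] (ℤ_[ℓ] ⊗[ℤ] A))) := by
      rw [Submodule.mem_iInf]
      intro k
      have h3 : (1 : ℤ_[ℓ]) ⊗ₜ[ℤ] x 0 = ((ℓ : ℤ_[ℓ]) ^ k) • ((1 : ℤ_[ℓ]) ⊗ₜ[ℤ] x k) := by
        rw [← h1 k, TensorProduct.tmul_smul]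
        have h4 : ((ℓ : ℤ_[ℓ]) ^ k) • ((1 : ℤ_[ℓ]) ⊗ₜ[ℤ] x k) =
            ((ℓ ^ k : ℕ) : ℤ_[ℓ]) • ((1 : ℤ_[ℓ]) ⊗ₜ[ℤ] x k) := by
          push_cast
          rfl
        rw [h4, Nat.cast_smul_eq_nsmul]
      rw [h3]
      refine Submodule.smul_mem_smul ?_ trivial
      exact Ideal.pow_mem_pow (by
        rw [PadicInt.maximalIdeal_eq_span_p]
        exact Ideal.mem_span_singleton_self _) k
    rw [Ideal.iInf_pow_smul_eq_bot_of_isLocalRing _ (Ideal.IsPrime.ne_top inferInstance)] at h2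
    exact h2

end LFQ
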