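import Pool.Agent.LFQ.M_ALT
import Pool.Agent.LFQ.LNK
import Pool.Agent.LFQ.CohOld

/-!
# LFQ: the Weil-etale motivic cohomology of a smooth projective variety and the homology theory
-/

set_option autoImplicit false

open CategoryTheory AlgebraicGeometry Limits Polynomial TopologicalSpace TensorProduct

namespace LFQ

open Pool.Agent.Lib_helper55.Beil Pool.Agent.Lib_helper66.OneP CUB
open UQ (Mo Pt DimLE)

universe v

variable {k : Type} [Field k] {ℓ : Nat.Primes} {T : BM.{v} k (Zp ℓ)}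

lemma fin_tens (A : Ab) (h : Module.Finite ℤ A.T) : Module.Finite (Zp ℓ) (A.tens ℓ) :=
  inferInstanceAs (Module.Finite (Zp ℓ) (Zp ℓ ⊗[ℤ] A.T))

lemma red_tens (A : Ab) (h : Module.Finite (Zp ℓ) (A.tens ℓ)) : WE.Red ℓ A.T :=
  @red_of_fin (ℓ : ℕ) ⟨ℓ.2⟩ A.T _ h

/-- For a smooth projective variety: all homology groups are finitely generated over `ℤ_ℓ` if and only if
all groups `H_W^i(Y, ℤ(n))` are finitely generated. -/
theorem link (F : Fam k ℓ T) (hT : T.Pub) (hp : ¬ CharP k ℓ) {Y : Var k} {d : ℕ} (h : SPj Y d) :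
    T.FG Y ↔ F.L h := by
  constructor
  · intro hFG
    have hℓ : ℓ ≠ (F.coh h).p := by
      intro h1
      apply hp
      rw [h1]
      exact F.char h
    have hA : ∀ (n : ℕ) (i : ℤ), WE.Red ℓ (((F.coh h).W n).H i).T := by
      intro n i
      obtain ⟨e⟩ := F.comp h n i
      have h1 := hFG ((d : ℤ) - n) (2 * (d : ℤ) - i)
      exact red_tens _ (Module.Finite.equiv e)
    exact fun n => WE.red_all (F.coh h).old hℓ (fun n x _ => F.above h n x) hA n
  · intro hL i m
    rcases lt_or_ge (d : ℤ) i with h1 | h1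
    · exact hT.fin.large i m d Y (dimLE_of_idim h.2.1) h1
    · obtain ⟨n, hn⟩ := Int.eq_ofNat_of_zero_le (sub_nonneg.mpr h1)
      have hi : i = (d : ℤ) - n := by omega
      obtain ⟨j, rfl⟩ : ∃ j, m = 2 * (d : ℤ) - j := ⟨2 * (d : ℤ) - m, by ring⟩
      subst hi
      obtain ⟨e⟩ := F.comp h n j
      have h2 : AddGroup.FG (((F.coh h).W n).H j).T := hL n j
      have h3 : Module.Finite ℤ (((F.coh h).W n).H j).T := Module.Finite.iff_addGroup_fg.mpr h2
      have h4 := fin_tens (ℓ := ℓ) (((F.coh h).W n).H j) h3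
      exact Module.Finite.equiv e.symm

end LFQ
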