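import Pool.Agent.LFQ.M_DIS
import Pool.Agent.Lib_helper55.Beil.Full
import Pool.Agent.QCV.H_PRJ

/-!
# LFQ: systems of quadratic forms and cubic hypersurfaces, universality
-/

set_option autoImplicit false

open CategoryTheory AlgebraicGeometry Limits Polynomial TopologicalSpace

namespace LFQ

open Pool.Agent.Lib_helper55.Beil Pool.Agent.Lib_helper66.OneP CUB
open QCV (Dr Bun Cls0 Cls Strat OddCl EvenCl DL ER fs gram gen zer hyV ccone cubf cubf_homogeneous
  ProjSub dl_field dimLE_of_DL OddSystems EvenSystems DoubleCovers AllSystems OddSystemsP AllSystemsP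
  CubicSystems t_EVS2 t_OVS2)

variable {k : Type} [Field k] {P : Var k → Prop}

/-- From the systems of `d + 2` quadratic forms in an odd number of variables to all varieties. -/
theorem low_of_odd [PerfectField k] (hC : Clo P) (h2 : (2 : k) ≠ 0)
    (h0 : ∀ X : Var k, X.DimLE (0 : ℕ) → P X) (d : ℕ) (ho : OddSystems P (d + 1)) :
    ∀ X : Var k, X.DimLE d → P X := by
  induction d with
  | zero => exact h0
  | succ d ih =>
    have hlow := ih (oddSystems_pred hC ho)
    intro X hX
    refine noeth hC (d + 1) (fun V₀ hint hdim => ⟨V₀, OpenIn.refl V₀, inferInstance, ?_⟩) X hX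
    obtain ⟨g, hg, hgX⟩ := exists_hyp V₀ hint hdim
    obtain ⟨N, f, hr, hodd⟩ := exists_rep h2 g hg
    exact (hgX P hC hlow).mpr ((rep_iff hC h2 d hlow g f hr hodd).mpr
      (ho N f hr.odd hr.quad hr.det))

/-- Systems of `d + 2` quadratic forms in an odd number of variables. -/
theorem odd_iff [PerfectField k] (hC : Clo P) (h2 : (2 : k) ≠ 0)
    (h0 : ∀ X : Var k, X.DimLE (0 : ℕ) → P X) (d : ℕ) :
    (∀ X : Var k, X.DimLE d → P X) ↔ OddSystems P (d + 1) :=
  ⟨fun h n f hn hf hd => hC.member h _ (QCV.member_oddSystems h2 d n f hn hf hd),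
    low_of_odd hC h2 h0 d⟩

/-- The origin. -/
lemma zer_zero (hC : Clo P) (hk : P (aff k k)) {q : ℕ} (f : Fin (q + 1) → MvPolynomial (Fin 0) k)
    (hf : ∀ j, (f j).IsHomogeneous 2) : P (zer f) := by
  have h0 : ∀ j, f j = 0 := by
    intro j
    rw [MvPolynomial.eq_C_of_isEmpty (f j)]
    have h1 : MvPolynomial.coeff 0 (f j) = 0 := by
      apply (hf j).coeff_eq_zero
      rw [map_zero]
      norm_num
    rw [h1, map_zero]
  refine hC.cls0.iso (A := MvPolynomial (Fin 0) k) ?_ (hC.poly k hk 0)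
  have h1 : Ideal.span (Set.range f) = ⊥ := by
    rw [Ideal.span_eq_bot]
    rintro _ ⟨j, rfl⟩
    exact h0 j
  exact ((Ideal.quotientEquivAlgOfEq k h1).trans
    (AlgEquiv.quotientBot k (MvPolynomial (Fin 0) k))).symm

/-- Projective zero sets. -/
theorem oddP_iff (hC : Clo2 P) (hk : P (aff k k)) (q : ℕ) : OddSystemsP P q ↔ OddSystems P q := by
  constructor
  · intro h n f hn hf hd
    rcases n with _ | n
    · exact absurd hn (by decide)
    · exact (cone_iff hC f (fun _ => 2) hf (fun _ => by norm_num) hk).mpr (h n f hn hf hd)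
  · intro h n f hn hf hd
    exact (cone_iff hC f (fun _ => 2) hf (fun _ => by norm_num) hk).mp (h (n + 1) f hn hf hd)

/-- Projective zero sets. -/
theorem allP_iff (hC : Clo2 P) (hk : P (aff k k)) (q : ℕ) : AllSystemsP P q ↔ AllSystems P q := by
  constructor
  · intro h n f hf
    rcases n with _ | n
    · exact zer_zero hC.toClo hk f hf
    · exact (cone_iff hC f (fun _ => 2) hf (fun _ => by norm_num) hk).mpr (h n f hf)
  · intro h n f hf
    exact (cone_iff hC f (fun _ => 2) hf (fun _ => by norm_num) hk).mp (h (n + 1) f hf)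

/-- All systems of `d + 2` quadratic forms. -/
theorem all_iff [PerfectField k] (hC : Clo P) (h2 : (2 : k) ≠ 0)
    (h0 : ∀ X : Var k, X.DimLE (0 : ℕ) → P X) (d : ℕ) :
    AllSystems P (d + 1) ↔ (∀ X : Var k, X.DimLE d → P X) ∧ DoubleCovers P (d + 1) := by
  constructor
  · intro h
    have h3 := (odd_iff hC h2 h0 d).mpr fun n f _ hf _ => h n f hf
    exact ⟨h3, (evens hC h2 d h3).mp fun n f _ hf _ => h n f hf⟩
  · rintro ⟨hlow, hD⟩ n f hf
    refine hC.zeros _ (d + 1) f ?_
    rcases Nat.even_or_odd ((gram (gen f)).map (algebraMap (MvPolynomial (Fin (d + 1)) k)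
        (FractionRing (MvPolynomial (Fin (d + 1)) k)))).rank with h | h
    · exact t_EVS2 k (fun A [CommRing A] [Algebra k A] [Algebra.FiniteType k A] => P (aff k A)) d
        h2 (hC.cls hlow) (hC.even h2) k n (d + 1) 0 f (Nat.zero_le d) le_rfl (dl_field k) hf h
        (fun c => dr_congr (neg_neg c) (hD (-c)))
    · exact t_OVS2 k (fun A [CommRing A] [Algebra k A] [Algebra.FiniteType k A] => P (aff k A)) d
        h2 (hC.cls hlow) hC.odd k n (d + 1) 0 f (Nat.zero_le d) le_rfl (dl_field k) hf h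

/-! ## Smooth affine cubic hypersurfaces -/

/-- The property `P` holds for the hypersurfaces `y ^ 2 - y = t_0 f_0(x) + ... + t_q f_q(x)`, for systems
of quadratic forms in an odd number of variables. -/
def OddV (P : Var k → Prop) (q : ℕ) : Prop :=
  ∀ (n : ℕ) (f : Fin (q + 1) → MvPolynomial (Fin n) k), Odd n → (∀ j, (f j).IsHomogeneous 2) →
    (gram (gen f)).det ≠ 0 → P (aff k (VR (MvPolynomial (Fin n) k) f))

lemma odd_rank {q n : ℕ} (f : Fin (q + 1) → MvPolynomial (Fin n) k) (hn : Odd n)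
    (hd : (gram (gen f)).det ≠ 0) :
    Odd ((gram (gen f)).map (algebraMap (MvPolynomial (Fin q) k)
      (FractionRing (MvPolynomial (Fin q) k)))).rank := by
  have hinj := IsFractionRing.injective (MvPolynomial (Fin q) k)
    (FractionRing (MvPolynomial (Fin q) k))
  have h3 : ((gram (gen f)).map (algebraMap (MvPolynomial (Fin q) k)
      (FractionRing (MvPolynomial (Fin q) k)))).det ≠ 0 := by
    have h4 : ((gram (gen f)).map (algebraMap (MvPolynomial (Fin q) k)
        (FractionRing (MvPolynomial (Fin q) k)))).det =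
        algebraMap _ (FractionRing (MvPolynomial (Fin q) k)) (gram (gen f)).det :=
      (RingHom.map_det _ _).symm
    rw [h4]
    exact (map_ne_zero_iff _ hinj).mpr hd
  rw [Matrix.rank_of_isUnit _ ((Matrix.isUnit_iff_isUnit_det _).mpr (isUnit_iff_ne_zero.mpr h3)),
    Fintype.card_fin]
  exact hn

/-- Smooth affine cubic hypersurfaces. -/
theorem oddV_iff [PerfectField k] (hC : Clo P) (h2 : (2 : k) ≠ 0)
    (h0 : ∀ X : Var k, X.DimLE (0 : ℕ) → P X) (d : ℕ) :
    (∀ X : Var k, X.DimLE d → P X) ↔ OddV P (d + 1) := by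
  constructor
  · intro hlow n f hn hf hd
    exact t_OVS2 k (fun A [CommRing A] [Algebra k A] [Algebra.FiniteType k A] => P (aff k A)) d
      h2 (hC.cls hlow) hC.odd k n (d + 1) 0 f (Nat.zero_le d) le_rfl (dl_field k) hf
      (odd_rank f hn hd)
  · intro h
    exact low_of_odd hC h2 h0 d fun n f hn hf hd => hC.zeros _ (d + 1) f (h n f hn hf hd)

/-! ## Cubic hypersurfaces -/

/-- The affine cubics. -/
def OddC (P : Var k → Prop) (q : ℕ) : Prop :=
  ∀ (n : ℕ) (f : Fin (q + 1) → MvPolynomial (Fin n) k), Odd n → (∀ j, (f j).IsHomogeneous 2) →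
    (gram (gen f)).det ≠ 0 → P (ccone f)

open QCV.UNV in
/-- Fewer equations. -/
lemma oddC_pred (hC : Clo P) {q : ℕ} (h : OddC P (q + 1)) : OddC P q := by
  intro n f hn hf hdet
  have h1 := h n (ins f) hn (by
    intro j
    refine Fin.cases (hf 0) (fun j => ?_) j
    refine Fin.cases (MvPolynomial.isHomogeneous_zero _ _ _) (fun j => ?_) j
    exact hf j.succ) (by
    rw [gen_ins, QCV.UPD.gram_map, ← RingHom.map_det]
    intro h0
    apply hdet
    exact MvPolynomial.rename_injective _ (Fin.succ_injective q) (by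
      rw [map_zero]
      exact h0))
  let S := MvPolynomial (Fin n) k
  obtain ⟨e1⟩ := QCV.t_CBF k n (q + 1) (ins f)
  obtain ⟨e2⟩ := QCV.t_CBF k n q f
  have hσ : (fun j => ins f (Equiv.swap 0 1 j)) =
      (Fin.cons 0 f : Fin (q + 1 + 1) → MvPolynomial (Fin n) k) := by
    funext j
    refine Fin.cases ?_ (fun j => ?_) j
    · rw [Equiv.swap_apply_left]
      rfl
    · refine Fin.cases ?_ (fun j => ?_) j
      · change ins f (Equiv.swap 0 1 1) = _
        rw [Equiv.swap_apply_right]
        rfl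
      · rw [Equiv.swap_apply_of_ne_of_ne]
        · rfl
        · exact Fin.succ_ne_zero _
        · intro h
          have := congrArg Fin.val h
          simp at this
  obtain ⟨e3⟩ := QCV.lin_perm_iso k S (ins f) (Equiv.swap 0 1)
  rw [hσ] at e3
  have h2 : P (aff k (MvPolynomial (Fin (q + 1 + 1)) S ⧸
      Ideal.span {lin (Fin.cons 0 f : Fin (q + 1 + 1) → S)})) :=
    hC.cls0.iso e3.symm (hC.cls0.iso e1 h1)
  refine hC.cls0.iso e2.symm ?_
  let M := MvPolynomial (Fin (q + 1)) S
  let e : MvPolynomial (Fin (q + 1 + 1)) S ≃ₐ[k] M[X] :=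
    (MvPolynomial.finSuccEquiv S (q + 1)).restrictScalars k
  let π : M →ₐ[k] M ⧸ Ideal.span {lin f} := Ideal.Quotient.mkₐ k _
  have hπ : Function.Surjective π := Ideal.Quotient.mkₐ_surjective k _
  let φ : MvPolynomial (Fin (q + 1 + 1)) S →ₐ[k] (M ⧸ Ideal.span {lin f})[X] :=
    (Polynomial.mapAlgHom π).comp e.toAlgHom
  have hφ : Function.Surjective φ := (Polynomial.map_surjective π.toRingHom hπ).comp e.surjective
  have hef : e (lin (Fin.cons 0 f : Fin (q + 1 + 1) → S)) = C (lin f) := by
    change MvPolynomial.finSuccEquiv S (q + 1) (lin (Fin.cons 0 f : Fin (q + 1 + 1) → S)) = C (lin f)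
    unfold lin
    rw [map_sum, map_sum, Fin.sum_univ_succ, Fin.cons_zero, map_zero, mul_zero, map_zero, zero_add]
    refine Finset.sum_congr rfl fun j _ => ?_
    rw [Fin.cons_succ, map_mul, map_mul, MvPolynomial.finSuccEquiv_X_succ,
      MvPolynomial.finSuccEquiv_apply, MvPolynomial.eval₂Hom_C]
    rfl
  have hk : RingHom.ker φ.toRingHom = Ideal.span {lin (Fin.cons 0 f : Fin (q + 1 + 1) → S)} := by
    have h2 : RingHom.ker φ.toRingHom =
        Ideal.comap e.toRingEquiv.toRingHom (RingHom.ker (Polynomial.mapRingHom π.toRingHom)) := by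
      ext x
      rfl
    have h3 : RingHom.ker π.toRingHom = Ideal.span {lin f} := Ideal.mk_ker
    have h4 : Ideal.map C (Ideal.span {lin f}) =
        Ideal.map e.toRingEquiv.toRingHom
          (Ideal.span {lin (Fin.cons 0 f : Fin (q + 1 + 1) → S)}) := by
      rw [Ideal.map_span, Ideal.map_span, Set.image_singleton, Set.image_singleton]
      exact congrArg (fun x => Ideal.span {x}) hef.symm
    rw [h2, Polynomial.ker_mapRingHom, h3, h4]
    exact Ideal.comap_map_of_bijective e.toRingEquiv.toRingHom e.bijective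
  have hk2 : RingHom.ker φ = Ideal.span {lin (Fin.cons 0 f : Fin (q + 1 + 1) → S)} := hk
  have e4 := (Ideal.quotientEquivAlgOfEq k hk2.symm).trans
    (Ideal.quotientKerAlgEquivOfSurjective hφ)
  exact hC.unline (lineE (CC k _) (RingEquiv.refl _) (fun _ => rfl)) (hC.cls0.iso e4 h2)

/-- From the affine cubics to all varieties. -/
theorem low_of_oddC [PerfectField k] (hC : Clo P) (h2 : (2 : k) ≠ 0)
    (h0 : ∀ X : Var k, X.DimLE (0 : ℕ) → P X) (d : ℕ) (ho : OddC P (d + 1)) :
    ∀ X : Var k, X.DimLE d → P X := by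
  induction d with
  | zero => exact h0
  | succ d ih =>
    have hlow := ih (oddC_pred hC ho)
    intro X hX
    refine noeth hC (d + 1) (fun V₀ hint hdim => ⟨V₀, OpenIn.refl V₀, inferInstance, ?_⟩) X hX
    obtain ⟨g, hg, hgX⟩ := exists_hyp V₀ hint hdim
    obtain ⟨N, f, hr, hodd⟩ := exists_rep h2 g hg
    exact (hgX P hC hlow).mpr ((ccone_iff hC h2 d hlow g f hr hodd).mpr
      (ho N f hr.odd hr.quad hr.det))

/-- The affine and the projective cubics. -/
theorem oddC_iff (hC : Clo2 P) (hk : P (aff k k)) (q : ℕ) : CubicSystems P q ↔ OddC P q := by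
  constructor
  · intro h n f hn hf hd
    obtain ⟨n, rfl⟩ : ∃ n', n = n' + 1 := by
      obtain ⟨s, hs⟩ := hn
      exact ⟨2 * s, hs⟩
    have hm := cone_iff (n := n + 1 + q) hC (fun _ : Fin 1 => cubf f) (fun _ => 3)
      (fun _ => cubf_homogeneous f hf) (fun _ => by norm_num) hk
    exact hm.mpr (h (n + 1) f hn hf hd)
  · intro h n f hn hf hd X S
    exact (proj_iff hC hk (fun _ : Fin 1 => cubf f) (fun _ => 3)
      (fun _ => cubf_homogeneous f hf) (fun _ => by norm_num) S).mpr (h n f hn hf hd)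

/-- Cubic hypersurfaces. -/
theorem cubic_iff [PerfectField k] (hC : Clo2 P) (h2 : (2 : k) ≠ 0)
    (h0 : ∀ X : Var k, X.DimLE (0 : ℕ) → P X) (d : ℕ) :
    (∀ X : Var k, X.DimLE d → P X) ↔ CubicSystems P (d + 1) := by
  constructor
  · intro h n f hn hf hd X S
    exact hC.member h X (QCV.member_cubicSystems h2 d n f hn hf hd X S)
  · intro h
    exact low_of_oddC hC.toClo h2 h0 d ((oddC_iff hC (base_field (d := 0) h0) (d + 1)).mp h)

end LFQ
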