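import Pool.Agent.LFQ.St
import Pool.Agent.QCV.H_TWR

/-!
# LFQ: statements of the modules, second part
-/

set_option autoImplicit false

open CategoryTheory AlgebraicGeometry Limits Polynomial TopologicalSpace

namespace LFQ

open Pool.Agent.Lib_helper55.Beil Pool.Agent.Lib_helper66.OneP CUB
open QCV (TwClR)

universe v

/-- **TWR** (the twist, in the other direction; `QCV/H_TWR.lean`): the same comparison lemma (ECM) as in
`S_TWI`, with the roles of the two varieties exchanged: `e.symm`, the automorphism
`w₁ = e.trans (w.symm.trans e.symm)` acts trivially by `tr_iso` for `w'.symm` (`TWR.sgn_symm`) and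
`(e.trans e').symm`; see `QCV.TWR.step` and `QCV.t_TWR`. -/
def S_TWR : Prop :=
  ∀ (k Λ : Type) [Field k] [CommRing Λ] [IsNoetherianRing Λ] (T : BM.{v} k Λ), T.Pub →
    IsUnit (2 : Λ) → (2 : k) ≠ 0 →
    TwClR k (fun A [CommRing A] [Algebra k A] [Algebra.FiniteType k A] => T.FG (aff k A))

end LFQ
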