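import Pool.Agent.LFQ.M_TWI
import Pool.Agent.LFQ.St2

/-!
# LFQ: the twist, in the other direction
-/

set_option autoImplicit false

open CategoryTheory AlgebraicGeometry Limits Polynomial TopologicalSpace

namespace LFQ

open Pool.Agent.Lib_helper55.Beil Pool.Agent.Lib_helper66.OneP CUB
open QCV (Dr QC dinv TwClR)

universe v

/-- **TWR**. -/
theorem t_TWR : S_TWR.{v} := by
  intro k Λ _ _ _ T hT h2 hk B _ _ _ a c δ ha hδ h hFG
  obtain ⟨e, w, e', w', hw', h3, h4⟩ := QCV.t_ETW QCV.t_EBC QCV.t_ESG k B a c δ hδ h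
  have hw2 : QCV.Sgn ![1, -1, 1, -1] w'.symm := QCV.TWR.sgn_symm _ (by
    intro j
    fin_cases j <;> rfl) w' hw'
  have h5 := TWI.tr_qt hT h2 hk (Dr B 0 (-δ)) _ _ w'.symm
    (fun j => (QCV.EST.unit_vec a δ ha hδ j).map (algebraMap B (Dr B 0 (-δ)))) hw2
  let w₁ := e.trans (w.symm.trans e.symm)
  have h6 := tr_iso hT w'.symm w₁ (e.trans e').symm (fun x => by
    obtain ⟨u, rfl⟩ := (e.trans e').surjective x
    rw [AlgEquiv.symm_apply_eq, AlgEquiv.symm_apply_apply]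
    change w'.symm (e' (e u)) = e' (e (e.symm (w.symm (e u))))
    rw [AlgEquiv.apply_symm_apply, AlgEquiv.symm_apply_eq, ← h4, AlgEquiv.apply_symm_apply]) h5
  refine TWI.fg_cm hT h2 _ _ _ _ _ _ e.symm w₁ (fun y => ?_) h6 hFG
  change _ = e.symm (w.symm (e (dinv _ _ k (e.symm y))))
  rw [h3, AlgEquiv.symm_apply_apply, AlgEquiv.apply_symm_apply]

end LFQ
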