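import Pool.Agent.LFQ.Base
import Pool.Agent.QCV.E_ASM

/-!
# LFQ: statements of the modules

`P` is a property of varieties with the closure properties `Clo P` (Clo.lean), `T` a homology theory with
the published properties `T.Pub` (Defs.lean).  All modules are independent; files `LFQ/M_XXX.lean` with
`theorem t_XXX : S_XXX` (or `M_XXX`, where the other statements are hypotheses).
-/

set_option autoImplicit false

open CategoryTheory AlgebraicGeometry Limits Polynomial TopologicalSpace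

namespace LFQ

open Pool.Agent.Lib_helper55.Beil Pool.Agent.Lib_helper66.OneP CUB
open UQ (Mo Pt DimLE Co Ca Comp sp sdbl dm Inv ofCl ofOp ofPr ofEt ofBun ofLine ofIso comp_of pr_of_cl
  pr_of_et pr_ofPr op_ofOp cl_ofCl et_ofEt line_ofLine bun_ofBun bun_of_line)
open QCV (Dr Bun Cls0 Cls Strat OddCl EvenCl TwCl DL ER fs gram gen lsub hyp lgen OddGen OddSystems
  EvenSystems DoubleCovers)

universe v

/-! ## Homology -/

/-- **ZER** (the constructor `zeros`).
Let `V = Spec VR A f`: `y ^ 2 - y = t_0 f_0 + ... + t_m f_m`, with the involution `τ : y ↦ 1 - y`.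
For a variety `V` with an involution `t` let `AF V t`: for all `i, n` the submodule
`{w | P t w = - w}` of `H i n V` is finitely generated.
(1) (`ab_line` in QCV/G_CHN.lean.)  Let `Parts a j t tZ tU` (QCV/G_TC.lean), `L : Line U S`,
`tU.g ≫ L.q = L.q`.  Then `AF V t → AF Z tZ`: the map `P a` from the anti-invariants of `Z` to those of
`V` is injective: if `P a w = 0` then `w = B u` (`exZ`), `u = V L x` (`hT.bundles.bij`; indices
`i = i' + 1`, `n + 1 = n' + 2`), `P tU u = u` (`hT.bundles.push` for the cartesian square with the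
isomorphism `tU` over the identity of `S`), so `P tZ w = B (P tU u) = B u = w` (`P_B`), and
`P tZ w = - w`, so `2 w = 0`, `two_cancel`.
(2) (`ab_step`, `ab_chain` in QCV/G_CHN.lean, with `AF` in place of `AB`, verbatim.)
(3) (`pf_of_zero` in QCV/G_TWO.lean.)  Finally all `f_j = 0`: `V` is the union of two disjoint sheets
`I0, I1 : S → V`, `S = Spec A'[t_0, ..., t_m]`, `I1 = τ I0`.  `x ↦ P I0 x - P I1 x` maps `H i n S` injectively
into the anti-invariants: `R o (P I0 x) = x` (`hT.push.clopen`), `R o (P I1 x) = 0` (`exX`).  So `FG S`.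
(4) Descend along the polynomial ring: `S → Spec A'` is an iterated line (`pf_mv_desc` in
QCV/G_RED3.lean; here with `hT.bundles.bij`, `fg_unline` in H_BAS.lean). -/
def S_ZER : Prop :=
  ∀ (k Λ : Type) [Field k] [CommRing Λ] [IsNoetherianRing Λ] (T : BM.{v} k Λ), T.Pub →
    IsUnit (2 : Λ) →
    ∀ (A : Type) [CommRing A] [Algebra k A] [Algebra.FiniteType k A] (m : ℕ) (f : Fin (m + 1) → A),
      T.FG (aff k (VR A f)) → T.FG (aff k (A ⧸ Ideal.span (Set.range f)))

/-- **TWI** (the twist; port of E_EGM, E_EHT, E_EQT, E_ECM, E_EST in QCV with `TR` of `LFQ/Base.lean`,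
`tr_line`, `tr_glue`, `tr_iso`, `tr_dbl` of `LFQ/H_TR.lean`; all degrees, no cycles).
(EGM) `TR T (Localization.Away X) wU`, as in StE2.lean (`exU`, `P_B`, `R_P`, `two_cancel`).
(EHT) `TR T (HP B c) w`.  (EQT) `TR T (QC B a c) w`.
(ECM) `e : Dr X₁ b₁ c₁ ≃ Dr X₂ b₂ c₂`, `e (dinv x) = w (dinv (e x))`, `TR T (Dr X₂ b₂ c₂) w`, `FG X₂`; then
`FG X₁`: let `m` be in `H i n X₁`, `P ε μ = R m` (`P_iso`), so `P τ₂ μ = μ`; the map `m ↦ P g₂ μ` into
`H i n X₂` is linear (it is `P g₂ ∘ P ε⁻¹ ∘ R`) and injective: if `P g₂ μ = 0` then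
`0 = R g₂ (P g₂ μ) = μ + P τ₂ μ = 2 μ` (`hT.cov.inv`), so `μ = 0`, `R m = 0`, `2 m = P g₁ (R m) = 0`.
(EST) `S_ETW` (`t_ETW t_EBC t_ESG`, E_ASM.lean) as in E_EST.lean; no shift of levels is needed. -/
def S_TWI : Prop :=
  ∀ (k Λ : Type) [Field k] [CommRing Λ] [IsNoetherianRing Λ] (T : BM.{v} k Λ), T.Pub →
    IsUnit (2 : Λ) → (2 : k) ≠ 0 →
    TwCl k (fun A [CommRing A] [Algebra k A] [Algebra.FiniteType k A] => T.FG (aff k A))

/-! ## Linear algebra -/

/-- **PAR** (parity).
Let `s, f, P` be as in `Asm.s_ULZ` (QCV/StU1.lean; `m + 1` parameters), `p` the only prime of the field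
`K`, `ρ` the rank of `gram (gen (f ∘ succ))` over the field `FractionRing ...` (`genHom m p` is injective).
If `ρ` is odd, nothing is to be done.  If `ρ` is even, add the plane `u v + t_1 u ^ 2` (the last two of
the `n + 2 * (s + 1)` variables are `u, v`): `s' = s + 1`, `f'_0 = f_0 + u v`, `f'_1 = f_1 + u ^ 2`,
`f'_j = f_j` for `j ≥ 2` (renamed), `P'` is the block sum of `P` and the matrix of `u ↦ u`,
`v ↦ v + t_1 u` (`t_1 = X 0`), so `lsub P' (hyp φ (s + 1)) = lsub P (hyp φ s) + u (v + t_1 u) = lgen f'`, and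
`det P' = det P`.  The matrix of `gen (f' ∘ succ)` is the block sum of the one of `gen (f ∘ succ)` and
`!![2, 0; 0, 0]`, so its rank is `ρ + 1` (`2` is not zero).
(Suggestion: use `Fin (n + 2 * s) ⊕ Fin 2` and `Matrix.fromBlocks`, `finSumFinEquiv`; see U_ULC.lean for
block sums and `lsub`.) -/
def S_PAR : Prop :=
  ∀ (K : Type) [Field K] (m n : ℕ) (φ : MvPolynomial (Fin n) (MvPolynomial (Fin (m + 1)) K)),
    (2 : K) ≠ 0 → φ.IsHomogeneous 2 →
    ∃ (s : ℕ) (f : Fin (m + 1 + 1) → MvPolynomial (Fin (n + 2 * s)) K)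
      (P : Matrix (Fin (n + 2 * s)) (Fin (n + 2 * s)) (MvPolynomial (Fin (m + 1)) K)),
      (∀ j, (f j).IsHomogeneous 2) ∧ IsUnit P.det ∧ lsub P (hyp φ s) = lgen f ∧
        OddGen K 0 (fun j : Fin (m + 1) => f j.succ)

/-! ## Properties of varieties -/

/-- **UST** (stratification of the generic member; `t_UST` in QCV/U_UST.lean with `Cls0`: the open part
needs the closed part, which is `MvPolynomial (Fin m) (S / (f 1))`, covered by the hypothesis for
`j = 1`). -/
def S_UST2 : Prop :=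
  ∀ (k : Type) [Field k]
    (P : ∀ (A : Type) [CommRing A] [Algebra k A] [Algebra.FiniteType k A], Prop), Cls0 k P →
    (∀ (A : Type) [CommRing A] [Algebra k A] [Algebra.FiniteType k A], P A → P A[X]) →
    ∀ (m : ℕ) (S : Type) [CommRing S] [Algebra k S] [Algebra.FiniteType k S] (f : Fin (m + 1) → S),
      (∀ j ≤ m, P (S ⧸ Ideal.span (f '' {l : Fin (m + 1) | 1 ≤ l.1 ∧ l.1 ≤ j}))) →
      P (S ⧸ Ideal.span (Set.range f)) → P (MvPolynomial (Fin m) S ⧸ Ideal.span {fs f})

/-- **UHY** (removal of hyperbolic planes; `t_UHY` in QCV/U_UHY.lean with `Clo`: `TCL` is `Clo.clo3`,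
the open part is `Localization.Away X`, by `Clo.cls0.opn`). -/
def S_UHY2 : Prop :=
  ∀ (k : Type) [Field k] (P : Var k → Prop), Clo P →
    ∀ (B : Type) [CommRing B] [Algebra k B] [Algebra.FiniteType k B] (n s : ℕ)
      (φ : MvPolynomial (Fin n) B), P (aff k B) →
      P (aff k (ER (fun _ : Fin 1 => hyp φ s))) → P (aff k (ER (fun _ : Fin 1 => φ)))

/-- **GM** (the punctured line).
Proof.  `Clo.bundle` for the line `Spec A[X] → Spec A` (a `Bun`: locally, even globally, a `Line`), the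
section `X ↦ 0` (`clo (UHY.ev k A)`, `UHY.ev_surj`, `UHY.ev_ker` in QCV/U_UHY.lean) and the complement
`Localization.Away X` (`complementary_away`, `awayHom`). -/
def S_GM2 : Prop :=
  ∀ (k : Type) [Field k] (P : Var k → Prop), Clo P →
    ∀ (A : Type) [CommRing A] [Algebra k A] [Algebra.FiniteType k A],
      P (aff k (Localization.Away (X : A[X]))) → P (aff k A)

/-- **UNO** (reduction to hypersurfaces; `t_UNO` in QCV/U_UNO.lean with `Clo`).
The open part `D(h)` of `V(g)`, `h ∈ k[x] / (g)` the class of `h' ∈ k[x]`: `D(h)` is the complement of the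
closed part `V(h')` of `V(g h')`.  So `P (D(h))` by `Clo.cut` (`cls0.opn`): the homomorphism
`k[x] / (g h') → k[x] / (g) → Localization.Away h` is a localisation away from the class of `h'` (if `x`
is mapped to zero then `h' ^ n x ∈ (g)`, so `h' ^ (n + 1) x ∈ (g h')`). -/
def S_UNO2 : Prop :=
  ∀ (k : Type) [Field k] [PerfectField k] (P : Var k → Prop), Clo P →
    ∀ d : ℕ, (∀ X : Var k, X.DimLE d → P X) →
      (∀ g : MvPolynomial (Fin (d + 2)) k,
        P (aff k (MvPolynomial (Fin (d + 2)) k ⧸ Ideal.span {g}))) →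
      ∀ X : Var k, X.DimLE (d + 1 : ℕ) → P X

/-- **HYP** (one hypersurface; `gg_hyper_of` in QCV/U_ALL.lean with `Clo`, `S_PAR` in place of `S_ULZ`
and `S_UST2` in place of `S_UST`: the heads `f_1 = ... = f_j = 0`, `1 ≤ j ≤ d + 1`, are `built_quadrics`, the
head `j = d + 2` is `built_odd` (QCV/Cls2 or Final.lean) with `OddGen` from `S_PAR`; the class `Built` is
contained in `QCV.Member` by `member_of_built` (Cls4.lean), and `Clo.member`). -/
def S_HYP2 : Prop :=
  ∀ (k : Type) [Field k] (P : Var k → Prop), Clo P → (2 : k) ≠ 0 →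
    ∀ d : ℕ, (∀ X : Var k, X.DimLE d → P X) → OddSystems P (d + 2) →
      ∀ g : MvPolynomial (Fin (d + 2)) k,
        P (aff k (MvPolynomial (Fin (d + 2)) k ⧸ Ideal.span {g}))

def M_HYP2 : Prop := S_PAR → S_UST2 → S_UHY2 → S_GM2 → S_HYP2

/-- **DBC** (from systems in an even number of variables to double covers; `doubleCovers_of` in
QCV/Fin9.lean with `Clo`, `S_UST2`: all heads `f_1 = ... = f_j = 0`, `j ≤ d + 1`, are
`built_quadrics`). -/
def S_DBC2 : Prop :=
  ∀ (k : Type) [Field k] (P : Var k → Prop), Clo P → (2 : k) ≠ 0 →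
    ∀ d : ℕ, (∀ X : Var k, X.DimLE d → P X) → EvenSystems P (d + 1) → DoubleCovers P (d + 1)

def M_DBC2 : Prop := S_UST2 → S_UHY2 → S_GM2 → S_DBC2

end LFQ
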