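import Pool.Agent.LFQ.H_BAS
import Pool.Agent.LFQ.St
import Pool.Agent.QCV.G_CHN
import Pool.Agent.QCV.G_TWO

/-!
# LFQ, module ZER: zeros of several functions from one hypersurface
-/

set_option autoImplicit false

open CategoryTheory AlgebraicGeometry Limits Polynomial TopologicalSpace

namespace LFQ

open Pool.Agent.Lib_helper55.Beil Pool.Agent.Lib_helper66.OneP CUB
open UQ (Mo Pt DimLE Co Ca Comp sp sdbl dm ofCl ofOp ofPr ofEt ofBun ofLine ofIso comp_of pr_of_cl
  pr_of_et pr_ofPr op_ofOp cl_ofCl et_ofEt line_ofLine bun_ofBun bun_of_line)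
open QCV (Inv Parts)

universe v

namespace ZER

variable {k : Type} [Field k] {Λ : Type} [CommRing Λ] {T : BM.{v} k Λ}

/-- The anti-invariant part. -/
def anti (T : BM.{v} k Λ) (i n : ℤ) {V : Var k} (t : ClosedIn V V) : Submodule Λ (T.H i n V) :=
  LinearMap.ker (T.pf i n (ofCl t) + LinearMap.id)

lemma mem_anti {i n : ℤ} {V : Var k} {t : ClosedIn V V} {m : T.H i n V} :
    m ∈ anti T i n t ↔ T.P (ofCl t) m = -m := by
  have h1 : m ∈ anti T i n t ↔ T.P (ofCl t) m + m = 0 := Iff.rfl
  rw [h1, add_eq_zero_iff_eq_neg]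

/-- The anti-invariant parts are finitely generated. -/
def AF (T : BM.{v} k Λ) {V : Var k} (t : ClosedIn V V) : Prop :=
  ∀ i n : ℤ, Module.Finite Λ (anti T i n t)

variable [IsNoetherianRing Λ]

lemma af_of_fg {V : Var k} (t : ClosedIn V V) (h : T.FG V) : AF T t := fun i n =>
  fin_inj (anti T i n t).subtype (Submodule.injective_subtype _) (h i n)

/-- The closed part if the involution acts trivially on the homology of the open part. -/
theorem af_closed (hT : T.Pub) (h2 : IsUnit (2 : Λ)) {Z U V : Var k} {a : ClosedIn Z V}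
    {j : OpenIn U V} {t : ClosedIn V V} {tZ : ClosedIn Z Z} {tU : ClosedIn U U}
    (h : Parts a j t tZ tU) (hU : ∀ (i n : ℤ) (u : T.H i n U), T.P (ofCl tU) u = u)
    (hV : AF T t) : AF T tZ := by
  intro i n
  have hpa : (ofCl a).Pr := pr_of_cl a.closed
  have hpt : (ofCl t).Pr := pr_of_cl t.closed
  have hpZ : (ofCl tZ).Pr := pr_of_cl tZ.closed
  have hpU : (ofCl tU).Pr := pr_of_cl tU.closed
  let φ : anti T i n tZ →ₗ[Λ] anti T i n t :=
    (T.pf i n (ofCl a)).restrict (p := anti T i n tZ) (q := anti T i n t) (fun w hw => by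
      have hw' := mem_anti.mp hw
      refine mem_anti.mpr ?_
      change T.P (ofCl t) (T.P (ofCl a) w) = -T.P (ofCl a) w
      rw [P_sq hT (ofCl a) (ofCl t) (ofCl tZ) (ofCl a) hpa hpt hpZ hpa h.hZ.symm, hw', P_neg])
  refine fin_inj φ ?_ (hV i n)
  rw [injective_iff_map_eq_zero]
  rintro ⟨w, hw⟩ h0
  have h1 : T.P (ofCl a) w = 0 := congrArg Subtype.val h0
  obtain ⟨u, hu⟩ := (exZ hT a j h.hc w).mp h1
  have h3 := P_B hT a j a j h.hc h.hc (ofCl tZ) (ofCl tU) (ofCl t) hpZ hpU hpt h.hZ.symm h.hU.symm u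
  rw [hU, hu, mem_anti.mp hw] at h3
  exact Subtype.ext (zero_of_eq_neg h2 h3.symm)

/-- The involution acts trivially on the homology of a product with the line over whose base it is
trivial. -/
theorem tr_over (hT : T.Pub) {U S : Var k} (L : Line U S) (t : ClosedIn U U) (ht : Inv t)
    (h : t.g ≫ L.q = L.q) (i n : ℤ) (u : T.H i n U) : T.P (ofCl t) u = u := by
  obtain ⟨i, rfl⟩ : ∃ i', i = i' + 1 := ⟨i - 1, by ring⟩
  obtain ⟨n, rfl⟩ : ∃ n', n = n' + 2 := ⟨n - 2, by ring⟩
  have hB : (ofLine L).Bun := bun_of_line (line_ofLine L)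
  obtain ⟨x, rfl⟩ := (hT.bundles.bij i n (ofLine L) hB).surjective u
  let s : Mo S S := ⟨𝟙 _, Category.id_comp _⟩
  have hi := ht.isIso
  have hs : s.Pr := by
    change IsProper (𝟙 S.X)
    infer_instance
  have hs' : IsIso s.g := by
    change IsIso (𝟙 S.X)
    infer_instance
  have hi' : IsIso (ofCl t).g := hi
  have hsq : (ofLine L).g ≫ s.g = (ofCl t).g ≫ (ofLine L).g := by
    change L.q ≫ 𝟙 S.X = t.g ≫ L.q
    rw [h, Category.comp_id]
  have hca : IsPullback (ofLine L).g (ofCl t).g s.g (ofLine L).g := IsPullback.of_vert_isIso ⟨hsq⟩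
  have h1 := hT.bundles.push i n (ofLine L) (ofLine L) (ofCl t) s hB hs hca x
  rw [P_one hT s rfl x] at h1
  exact h1.symm

/-- Surjective closed immersions. -/
theorem af_surj (hT : T.Pub) (h2 : IsUnit (2 : Λ)) {Z V : Var k} (a : ClosedIn Z V)
    (ha : Function.Surjective a.g) (t : ClosedIn V V) (tZ : ClosedIn Z Z) (ht : Inv t)
    (hZ : tZ.g ≫ a.g = a.g ≫ t.g) (hV : AF T t) : AF T tZ := by
  have hem := isEmpty_openVar_bot V
  have hc : Complementary a (openVarIn V ⊥) := by
    rw [Complementary, range_openVarIn, ha.range_eq]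
    simp
  have hU : (idIn (openVar V ⊥)).g ≫ (openVarIn V ⊥).g = (openVarIn V ⊥).g ≫ t.g :=
    isInitialOfIsEmpty.hom_ext _ _
  have h : Parts a (openVarIn V ⊥) t tZ (idIn (openVar V ⊥)) := ⟨hc, ht, hZ, hU⟩
  refine af_closed hT h2 h (fun i n u => ?_) hV
  have := hT.fin.empty i n (openVar V ⊥) hem
  exact Subsingleton.elim _ _

section VRs

variable {R R' : Type} [CommRing R] [CommRing R'] [Algebra k R] [Algebra k R']
  [Algebra.FiniteType k R] [Algebra.FiniteType k R']

/-- One step. -/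
theorem af_step (hT : T.Pub) (h2 : IsUnit (2 : Λ)) (hKERQ : S_KERQ) (hVRL : S_VRL) (m : ℕ)
    (f : Fin (m + 1) → R) (l : Fin (m + 1)) (ψ : R →ₐ[k] R') (hψ : Function.Surjective ψ)
    (hk : RingHom.ker ψ.toRingHom = Ideal.span {f l})
    (hV : AF T (V := aff k (VR R f)) (vcl (tau (lin f)))) :
    AF T (V := aff k (VR R' (fun j => ψ (f j)))) (vcl (tau (lin fun j => ψ (f j)))) := by
  let a : VR R f := VRbase (k := k) f (f l)
  let φ : VR R f →ₐ[k] Localization.Away a := awayHom k a
  let σ0 : R →ₐ[k] Localization.Away (f l) := awayHom k (f l)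
  obtain ⟨ee, he1, he2, he3⟩ := hVRL k R (Localization.Away (f l)) (Localization.Away a) m f l σ0 φ
    (isLocalization_awayHom _) (isLocalization_awayHom _)
  let σ : MvPolynomial (Fin m) (Localization.Away (f l)) →ₐ[k] Localization.Away a :=
    (ee.symm : _ →ₐ[k] _).comp (CC k _)
  let tB : Localization.Away a ≃ₐ[k] Localization.Away a :=
    IsLocalization.algEquivOfAlgEquiv (M := Submonoid.powers a) (T := Submonoid.powers a)
      (Localization.Away a) (Localization.Away a) (tau (k := k) (lin f)) (by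
        rw [Submonoid.map_powers]
        congr 1
        exact tau_VRbase f (f l))
  have htB : ∀ x, tB (φ x) = φ (tau (k := k) (lin f) x) := fun x =>
    IsLocalization.algEquivOfAlgEquiv_eq _ x
  have hker : RingHom.ker (VRmap ψ f).toRingHom = Ideal.span {a} := by
    rw [hKERQ.2.2.1 k R R' (m + 1) f ψ, hk, Ideal.map_span, Set.image_singleton]
    rfl
  have hC : ∀ r : R, σ (MvPolynomial.C (σ0 r)) = φ (VRbase (k := k) f r) := fun r => by
    change ee.symm (C (MvPolynomial.C (σ0 r))) = _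
    rw [← he1 r, AlgEquiv.symm_apply_apply]
  have hX : ∀ j : Fin m, σ (MvPolynomial.X j) =
      φ (algebraMap (MvPolynomial (Fin (m + 1)) R) (VR R f) (MvPolynomial.X (l.succAbove j))) :=
    fun j => by
      change ee.symm (C (MvPolynomial.X j)) = _
      rw [← he2 j, AlgEquiv.symm_apply_apply]
  have key : tB.toRingEquiv.toRingHom.comp σ.toRingHom = σ.toRingHom := by
    apply MvPolynomial.ringHom_ext
    · intro s
      have h7 : (tB.toRingEquiv.toRingHom.comp σ.toRingHom).comp MvPolynomial.C =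
          σ.toRingHom.comp MvPolynomial.C := by
        apply IsLocalization.ringHom_ext (Submonoid.powers (f l))
        ext1 r
        change tB (σ (MvPolynomial.C (σ0 r))) = σ (MvPolynomial.C (σ0 r))
        rw [hC, htB, tau_VRbase]
      exact RingHom.congr_fun h7 s
    · intro j
      change tB (σ (MvPolynomial.X j)) = σ (MvPolynomial.X j)
      rw [hX, htB, tau_VRalg]
  have hloc := isLocalization_awayHom (k := k) a
  have hparts : Parts (clo (VRmap ψ f) (VRmap_surjective ψ hψ f))
      (opn φ (isOpenImmersion_spm φ a hloc)) (vcl (tau (k := k) (lin f)))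
      (vcl (tau (k := k) (lin fun j => ψ (f j)))) (vcl tB) := by
    refine ⟨complementary_away φ a hloc (VRmap ψ f) (VRmap_surjective ψ hψ f) hker,
      QCV.inv_tau (lin f), QCV.tau_VRmap_g f ψ hψ, ?_⟩
    change spm (tB : _ →ₐ[k] _) ≫ spm φ = spm φ ≫ spm (tauH (k := k) (lin f))
    rw [spm_comp, spm_comp]
    congr 1
    exact AlgHom.ext fun x => htB x
  have hL : (vcl tB).g ≫ (lineE σ ee.symm.toRingEquiv (fun s => rfl)).q =
      (lineE σ ee.symm.toRingEquiv (fun s => rfl)).q := by
    change spm (tB : _ →ₐ[k] _) ≫ spm σ = spm σ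
    rw [spm_comp]
    congr 1
    exact AlgHom.ext fun x => RingHom.congr_fun key x
  exact af_closed hT h2 hparts (fun i n u =>
    tr_over hT (lineE σ ee.symm.toRingEquiv (fun s => rfl)) (vcl tB)
      (QCV.inv_open _ _ _ hparts.ht hparts.hU) hL i n u) hV

/-- Several equations. -/
theorem af_chain (hT : T.Pub) (h2 : IsUnit (2 : Λ)) (hKERQ : S_KERQ) (hVRL : S_VRL) (m : ℕ)
    (L : List (Fin (m + 1))) :
    ∀ {R R' : Type} [CommRing R] [CommRing R'] [Algebra k R]
    [Algebra k R'] [Algebra.FiniteType k R] [Algebra.FiniteType k R']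
    (f : Fin (m + 1) → R) (ψ : R →ₐ[k] R') (_ : Function.Surjective ψ),
    RingHom.ker ψ.toRingHom = Ideal.span (f '' {j | j ∈ L}) →
    AF T (V := aff k (VR R f)) (vcl (tau (lin f))) →
    AF T (V := aff k (VR R' (fun j => ψ (f j)))) (vcl (tau (lin fun j => ψ (f j)))) := by
  induction L with
  | nil =>
    intro R R' _ _ _ _ _ _ f ψ hψ hk hV
    have h1 : RingHom.ker (VRmap ψ f).toRingHom = ⊥ := by
      rw [hKERQ.2.2.1 k R R' (m + 1) f ψ, hk]
      simp
    refine af_surj hT h2 (clo (VRmap ψ f) (VRmap_surjective ψ hψ f)) ?_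
      (vcl (tau (k := k) (lin f))) _ (QCV.inv_tau (lin f)) (QCV.tau_VRmap_g f ψ hψ) hV
    have h3 : (Set.range (clo (VRmap ψ f) (VRmap_surjective ψ hψ f)).g : Set (PrimeSpectrum _)) =
        Set.univ := by
      have h4 : (Set.range (clo (VRmap ψ f) (VRmap_surjective ψ hψ f)).g : Set (PrimeSpectrum _)) =
        (Set.range (PrimeSpectrum.comap (VRmap ψ f).toRingHom) : Set (PrimeSpectrum _)) := rfl
      rw [h4, range_spm_surj _ (VRmap_surjective ψ hψ f), h1]
      ext x
      simp
    exact Set.range_eq_univ.mp h3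
  | cons l L ih =>
    intro R R' _ _ _ _ _ _ f ψ hψ hk hV
    let I : Ideal R := Ideal.span {f l}
    let π : R →ₐ[k] R ⧸ I := Ideal.Quotient.mkₐ k I
    have hle : I ≤ RingHom.ker ψ.toRingHom := by
      rw [hk]
      apply Ideal.span_mono
      rintro _ rfl
      exact ⟨l, by simp, rfl⟩
    let ψ₁ : (R ⧸ I) →ₐ[k] R' := Ideal.Quotient.liftₐ I ψ (fun a ha => hle ha)
    have hπ : Function.Surjective π := Ideal.Quotient.mkₐ_surjective k I
    have hcomp : ψ = ψ₁.comp π := by
      ext x
      rfl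
    have hkπ : RingHom.ker π.toRingHom = Ideal.span {f l} := Ideal.mk_ker
    clear_value ψ₁ π
    subst hcomp
    have hψ₁ : Function.Surjective ψ₁ := by
      intro x
      obtain ⟨y, hy⟩ := hψ x
      exact ⟨π y, hy⟩
    have hk₁ : RingHom.ker ψ₁.toRingHom = Ideal.span ((fun j => π (f j)) '' {j | j ∈ L}) := by
      have h1 : RingHom.ker ψ₁.toRingHom =
          (RingHom.ker (ψ₁.comp π).toRingHom).map π.toRingHom := by
        have h2 : RingHom.ker (ψ₁.comp π).toRingHom =
          (RingHom.ker ψ₁.toRingHom).comap π.toRingHom := rfl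
        rw [h2]
        exact (Ideal.map_comap_of_surjective π.toRingHom hπ _).symm
      rw [h1, hk, Ideal.map_span]
      apply le_antisymm
      · rw [Ideal.span_le]
        rintro _ ⟨_, ⟨j, hj, rfl⟩, rfl⟩
        rcases List.mem_cons.mp hj with rfl | hj
        · have h3 : π (f j) = 0 := by
            have : f j ∈ RingHom.ker π.toRingHom := by
              rw [hkπ]; exact Ideal.subset_span rfl
            exact this
          have h4 : π.toRingHom (f j) = 0 := h3
          rw [h4]
          exact Ideal.zero_mem _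
        · exact Ideal.subset_span ⟨j, hj, rfl⟩
      · apply Ideal.span_mono
        rintro _ ⟨j, hj, rfl⟩
        exact ⟨f j, ⟨j, List.mem_cons_of_mem _ hj, rfl⟩, rfl⟩
    exact ih (fun j => π (f j)) ψ₁ hψ₁ hk₁
      (af_step hT h2 hKERQ hVRL m f l π hπ hkπ hV)

end VRs

/-! ### Two sheets -/

/-- Two sheets which are exchanged by the involution. -/
theorem fg_of_sheets (hT : T.Pub) {S V : Var k} (I0 I1 : ClosedIn S V) (o : OpenIn S V)
    (t : ClosedIn V V) (ho : I0.g = o.g) (hc : Complementary I1 o) (h01 : I0.g ≫ t.g = I1.g)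
    (h10 : I1.g ≫ t.g = I0.g) (hV : AF T t) : T.FG S := by
  intro i n
  have hp0 : (ofCl I0).Pr := pr_of_cl I0.closed
  have hp1 : (ofCl I1).Pr := pr_of_cl I1.closed
  have hpt : (ofCl t).Pr := pr_of_cl t.closed
  let δ : T.H i n S →ₗ[Λ] anti T i n t :=
    LinearMap.codRestrict (anti T i n t) (T.pf i n (ofCl I0) - T.pf i n (ofCl I1)) (fun x => by
      refine mem_anti.mpr ?_
      change T.P (ofCl t) (T.P (ofCl I0) x - T.P (ofCl I1) x) =
        -(T.P (ofCl I0) x - T.P (ofCl I1) x)
      rw [P_sub, P_comp hT (ofCl I0) (ofCl t) (ofCl I1) hp0 hpt h01,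
        P_comp hT (ofCl I1) (ofCl t) (ofCl I0) hp1 hpt h10, neg_sub])
  refine fin_inj δ ?_ (hV i n)
  rw [injective_iff_map_eq_zero]
  intro x hx
  have h1 : T.P (ofCl I0) x - T.P (ofCl I1) x = 0 := congrArg Subtype.val hx
  have eo : (ofOp o : Mo S V) = ofCl I0 := by
    unfold ofOp ofCl
    congr 1
    exact ho.symm
  have h2 : (ofCl I0).Op := by
    rw [← eo]
    exact op_ofOp o
  have h3 : T.R (ofOp o) (T.P (ofCl I0) x) = x := by
    rw [eo]
    exact hT.push.clopen i n (ofCl I0) (cl_ofCl I0) h2 x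
  have h4 : T.R (ofOp o) (T.P (ofCl I1) x) = 0 := (exX hT I1 o hc _).mpr ⟨x, rfl⟩
  have h5 := congrArg (T.R (ofOp o)) h1
  rw [R_sub, h3, h4, sub_zero, R_zero] at h5
  exact h5

/-- The double cover which belongs to the zero function. -/
theorem fg_of_zero (hT : T.Pub) (m : ℕ) {R' : Type} [CommRing R'] [Algebra k R']
    [Algebra.FiniteType k R'] (g : Fin (m + 1) → R') (hg : ∀ j, g j = 0)
    (hV : AF T (V := aff k (VR R' g)) (vcl (tau (lin g)))) :
    T.FG (aff k (MvPolynomial (Fin (m + 1)) R')) := by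
  have h' : ∀ j, AlgHom.id k R' (g j) = 0 := hg
  let s0 := sheet (AlgHom.id k R') g h' false
  let s1 := sheet (AlgHom.id k R') g h' true
  have hs0 : Function.Surjective s0 := sheet_surjective _ Function.surjective_id _ h' false
  have hs1 : Function.Surjective s1 := sheet_surjective _ Function.surjective_id _ h' true
  have hloc := isLocalization_sheet_false (k := k) g h'
  have hc := complementary_away s0 (1 - yy (lin g)) hloc s1 hs1 (ker_sheet_true g h')
  have h01 : (clo s0 hs0).g ≫ (vcl (tau (k := k) (lin g))).g = (clo s1 hs1).g := by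
    change spm s0 ≫ spm (tauH (k := k) (lin g)) = spm s1
    rw [spm_comp]
    exact congrArg spm (sheet_tau (AlgHom.id k R') g h')
  have h10 : (clo s1 hs1).g ≫ (vcl (tau (k := k) (lin g))).g = (clo s0 hs0).g := by
    rw [← h01, Category.assoc, QCV.inv_tau (k := k) (lin g), Category.comp_id]
  exact fg_of_sheets hT (clo s0 hs0) (clo s1 hs1) (opn s0 (isOpenImmersion_spm s0 _ hloc))
    (vcl (tau (k := k) (lin g))) rfl hc h01 h10 hV

/-! ### Descent -/

/-- Products with an affine space. -/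
theorem fg_mv_desc (hT : T.Pub) (A : Type) [CommRing A] [Algebra k A] [Algebra.FiniteType k A]
    (m : ℕ) (h : T.FG (aff k (MvPolynomial (Fin m) A))) : T.FG (aff k A) := by
  induction m with
  | zero =>
    let e : MvPolynomial (Fin 0) A ≃ₐ[k] A :=
      (MvPolynomial.isEmptyAlgEquiv A (Fin 0)).restrictScalars k
    exact fg_iso hT (viso e.symm) h
  | succ m ih =>
    refine ih ?_
    let B := MvPolynomial (Fin m) A
    let e : MvPolynomial (Fin (m + 1)) A ≃ₐ[k] B[X] :=
      (MvPolynomial.finSuccEquiv A m).restrictScalars k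
    let φ : B →ₐ[k] MvPolynomial (Fin (m + 1)) A := (e.symm : _ →ₐ[k] _).comp (CC k B)
    exact fg_unline hT (lineE φ e.symm.toRingEquiv (fun _ => rfl)) h

end ZER

/-- **ZER**. -/
theorem t_ZER : S_ZER := by
  intro k Λ _ _ _ T hT h2 A _ _ _ m f h
  refine ZER.fg_mv_desc hT (A ⧸ Ideal.span (Set.range f)) (m + 1) ?_
  have hψ : Function.Surjective (Ideal.Quotient.mkₐ k (Ideal.span (Set.range f))) :=
    Ideal.Quotient.mkₐ_surjective k _
  have hk : RingHom.ker (Ideal.Quotient.mkₐ k (Ideal.span (Set.range f))).toRingHom =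
      Ideal.span (Set.range f) := Ideal.mk_ker
  refine ZER.fg_of_zero hT m (fun j => Ideal.Quotient.mkₐ k (Ideal.span (Set.range f)) (f j)) ?_ ?_
  · intro j
    have h1 : f j ∈ RingHom.ker (Ideal.Quotient.mkₐ k (Ideal.span (Set.range f))).toRingHom := by
      rw [hk]
      exact Ideal.subset_span ⟨j, rfl⟩
    exact h1
  · refine ZER.af_chain hT h2 CUB.Asm.s_KERQ CUB.Asm.s_VRL m (List.finRange (m + 1)) f
      (Ideal.Quotient.mkₐ k (Ideal.span (Set.range f))) hψ ?_ ?_
    · rw [hk]
      congr 1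
      ext x
      simp
    · exact ZER.af_of_fg _ h

end LFQ
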