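import Pool.Agent.LFQ.H_BAS
import Pool.Agent.LFQ.M_SYS
import Pool.Agent.LFQ.M_LINK
import Pool.Agent.LFQ.M_ZER
import Pool.Agent.LFQ.M_TWR

/-!
# LFQ: assembly
-/

set_option autoImplicit false

open CategoryTheory AlgebraicGeometry Limits Polynomial TopologicalSpace

namespace LFQ

open Pool.Agent.Lib_helper55.Beil Pool.Agent.Lib_helper66.OneP CUB
open UQ (Mo Pt DimLE OddS EvenS DblS AllS OddSP AllSP CubS Member PSub psub_iff Four)

universe v

/-! ## Comparison of the languages -/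

section

variable {k : Type} [Field k]

lemma projs_iff {R : Type} [CommRing R] [Algebra k R] {n : ℕ} {ι : Type}
    (f : ι → MvPolynomial (Fin (n + 1)) R) (P : Var k → Prop) :
    (∀ X : Var k, PSub k f X → P X) ↔ ∀ (X : Var k) (_ : QCV.ProjSub f X), P X :=
  ⟨fun h X S => h X ((psub_iff f X).mpr ⟨S⟩),
    fun h X hX => by
      obtain ⟨S⟩ := (psub_iff f X).mp hX
      exact h X S⟩

lemma oddSP_iff (P : Var k → Prop) (q : ℕ) : OddSP P q ↔ QCV.OddSystemsP P q :=
  forall_congr' fun _ => forall_congr' fun f => forall_congr' fun _ => forall_congr' fun _ =>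
    forall_congr' fun _ => projs_iff f P

lemma allSP_iff (P : Var k → Prop) (q : ℕ) : AllSP P q ↔ QCV.AllSystemsP P q :=
  forall_congr' fun _ => forall_congr' fun f => forall_congr' fun _ => projs_iff f P

lemma cubS_iff (P : Var k → Prop) (q : ℕ) : CubS P q ↔ QCV.CubicSystems P q :=
  forall_congr' fun _ => forall_congr' fun f => forall_congr' fun _ => forall_congr' fun _ =>
    forall_congr' fun _ => projs_iff (fun _ : Fin 1 => UQ.cub f) P

lemma four_of {R : Var k → Prop} {n q : ℕ} {f : Fin (q + 1) → MvPolynomial (Fin (n + 1)) k}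
    (hf : QCV.Three R f) : Four R f :=
  ⟨hf.1, (projs_iff f R).mpr fun Y S => hf.2.1 Y S, hf.2.2.1,
    (projs_iff (n := n + 1 + q) (fun _ : Fin 1 => UQ.cub f) R).mpr fun Y S => hf.2.2.2 Y S⟩

lemma five_congr {R R' : Var k → Prop} (h : ∀ Y, R' Y → R Y) {n q : ℕ}
    {f : Fin (q + 1) → MvPolynomial (Fin (n + 1)) k} (hf : Five R' f) : Five R f :=
  ⟨⟨h _ hf.1.1, fun Y S => h _ (hf.1.2.1 Y S), h _ hf.1.2.2.1, fun Y S => h _ (hf.1.2.2.2 Y S)⟩,
    h _ hf.2⟩

/-- The hypersurface `y ^ 2 - y = t_0 f_0 + ... + t_q f_q`. -/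
lemma sas_iff {P : Var k → Prop} (hC : Clo P) {A : Type} [CommRing A] [Algebra k A]
    [Algebra.FiniteType k A] {m : ℕ} (f : Fin m → A) :
    P (UQ.sas k A f) ↔ P (aff k (VR A f)) := by
  obtain ⟨s⟩ := UQ.sas_iso (k := k) f
  exact ⟨hC.iso ⟨s.e.symm, by rw [← s.comm]; exact s.e.inv_hom_id_assoc _⟩, hC.iso s⟩

lemma smS_iff {P : Var k → Prop} (hC : Clo P) (q : ℕ) : SmS P q ↔ OddV P q :=
  forall_congr' fun _ => forall_congr' fun f => forall_congr' fun _ => forall_congr' fun _ =>
    forall_congr' fun _ => sas_iff hC f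

end

section

variable {k : Type} [Field k] {Λ : Type} [CommRing Λ] [IsNoetherianRing Λ] {T : BM.{v} k Λ}

/-- Finitely generated homology has the closure properties. -/
theorem fgClo (hT : T.Pub) (h2 : IsUnit (2 : Λ)) : Clo T.FG where
  iso := fg_iso hT
  empty := fg_empty hT
  paste := fg_paste hT
  cut := fg_cut hT
  third := fg_third hT
  line := fun A _ _ _ h => fg_line hT A h
  unline := fg_unline hT
  cover := fun A _ _ _ b c h => fg_cover hT h2 A b c h
  etale := fg_etale hT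
  bundle := fun B s j _ hc hU => fg_bundle hT B s j hc hU
  odd := fg_odd hT h2
  even := fun hk => QCV.Asm.s_EVI k _ hk
    { iso := fun e h => fg_iso hT (viso e.symm) h
      triv := fun A _ _ _ h => fg_empty hT _ (QCV.isEmpty_aff A h)
      glue := fun a z u s hZ hU => fg_paste hT _ _
        (CUB.complementary_away u a s.away z s.surj s.ker) hZ hU
      opn := fun a z u s hA hZ => fg_cut hT _ _
        (CUB.complementary_away u a s.away z s.surj s.ker) hA hZ }
    (fun A _ _ _ h => fg_line hT A h) (fun A _ _ _ b c h => fg_cover hT h2 A b c h)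
    (t_TWI k Λ T hT h2 hk)
  zeros := fun A _ _ _ m f h => t_ZER k Λ T hT h2 A m f h

/-- Finitely generated homology has the closure properties, second list. -/
theorem fgClo2 (hT : T.Pub) (h2 : IsUnit (2 : Λ)) : Clo2 T.FG where
  toClo := fgClo hT h2
  up := fun B h => fg_bun hT (UQ.ofBun B) (UQ.bun_ofBun B) h
  twr := fun hk => t_TWR k Λ T hT h2 hk

/-- Dimension zero. -/
lemma fg_zero (hT : T.Pub) : ∀ X : Var k, X.DimLE (0 : ℕ) → T.FG X :=
  fun X hX => hT.fin.curves X fun x => (hX x).trans (by exact_mod_cast Nat.zero_le 1)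

theorem quadrics [Finite k] (hT : T.Pub) (h2 : IsUnit (2 : Λ)) (hk : (2 : k) ≠ 0) :
    T.Quadrics where
  odd d := odd_iff (fgClo hT h2) hk (fg_zero hT) d
  oddP d := by
    rw [oddSP_iff]
    exact (odd_iff (fgClo hT h2) hk (fg_zero hT) d).trans
      (oddP_iff (fgClo2 hT h2) (base_field (fg_zero hT)) (d + 1)).symm
  cubic d := by
    rw [cubS_iff]
    exact cubic_iff (fgClo2 hT h2) hk (fg_zero hT) d
  smooth d := (oddV_iff (fgClo hT h2) hk (fg_zero hT) d).trans
    (smS_iff (fgClo hT h2) (d + 1)).symm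
  even d h := evens (fgClo hT h2) hk d h
  all d := (all_iff (fgClo hT h2) hk (fg_zero hT) d).symm
  allP d := by
    rw [allSP_iff]
    exact ((allP_iff (fgClo2 hT h2) (base_field (fg_zero hT)) (d + 1)).trans
      (all_iff (fgClo hT h2) hk (fg_zero hT) d)).symm
  dis d h n m f hn hf hd := by
    refine ⟨dis_iff (fgClo2 hT h2) hk d h (n + 1) m hn (by omega) f hf hd, fun X hX => ?_⟩
    obtain ⟨S⟩ := (psub_iff f X).mp hX
    exact disP_iff (fgClo2 hT h2) hk d h n m hn f hf hd S

theorem main [Finite k] (hT : T.Pub) (h2 : IsUnit (2 : Λ)) : T.Main where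
  one := fun X hX => (fgClo hT h2).member (d := 1) (fun X h => hT.fin.curves X h) X
    (UQ.member_to hX)
  member := fun d => ⟨fun h X hX => (fgClo hT h2).member h X (UQ.member_to hX),
    fun h X hX => h X (Member.small X hX)⟩
  alt := fun hA d => ⟨fun h Y D hY hD => h Y fun x =>
      (dimLE_of_idim hY.2.1 x).trans (by exact_mod_cast hD),
    fun h => alt (fgClo hT h2) hA d fun Y D hY hD => h Y D hY hD⟩
  cone := fun A _ _ _ n ι f h1 hA => by
    choose m hm1 hm2 using h1
    exact (cone_iff (fgClo2 hT h2) f m hm2 hm1 hA).trans (projs_iff f T.FG).symm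
  smooth := ⟨fun h n m f _ => h _, fun h => of_smC (fgClo hT h2) h⟩
  quadrics := quadrics hT h2

omit [IsNoetherianRing Λ] in
lemma low_of_le_one (hT : T.Pub) {d : ℕ} (h : d ≤ 1 ∨ T.Low d) : T.Low d := by
  rcases h with h | h
  · exact fun X hX => hT.fin.curves X fun x => (hX x).trans (by exact_mod_cast h)
  · exact h

/-- Each integral variety. -/
theorem eachX [Finite k] (hk : (2 : k) ≠ 0) (d : ℕ) (X : Var k) : Each.{v} k d X := by
  intro hX hd
  obtain ⟨n, f, h1, h3, h4, h5⟩ := each hk X hX hd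
  refine ⟨n, f, h1, h3, h4, ?_⟩
  intro Λ _ _ T h2 hT hlow
  have h6 := h5 T.FG (fgClo2 hT h2) (low_of_le_one hT hlow)
  exact ⟨four_of h6.1, h6.2.trans (sas_iff (fgClo hT h2) f).symm⟩

end

section

variable {k : Type} [Field k] [Finite k] {ℓ : Nat.Primes} {T : BM.{v} k (Zp ℓ)}

omit [Field k] [Finite k] in
lemma isUnit_two (h : (ℓ : ℕ) ≠ 2) : IsUnit (2 : Zp ℓ) := by
  have : Fact (ℓ : ℕ).Prime := ⟨ℓ.2⟩
  have key : IsUnit (2 : ℤ_[ℓ]) := by
    rw [PadicInt.isUnit_iff]
    by_contra hcon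
    have h1 : ‖((2 : ℕ) : ℤ_[ℓ])‖ < 1 :=
      lt_of_le_of_ne (PadicInt.norm_le_one _) (by exact_mod_cast hcon)
    rw [← Int.cast_natCast, PadicInt.norm_int_lt_one_iff_dvd] at h1
    have h2 : (ℓ : ℕ) ∣ 2 := by exact_mod_cast h1
    exact h ((Nat.prime_dvd_prime_iff_eq ℓ.2 Nat.prime_two).mp h2)
  exact key

instance noeth_Zp : IsNoetherianRing (Zp ℓ) :=
  inferInstanceAs (IsNoetherianRing (@PadicInt ℓ ⟨ℓ.2⟩))

theorem famMain (F : Fam k ℓ T) (hℓ : (ℓ : ℕ) ≠ 2) (hp : ¬ CharP k ℓ) (hT : T.Pub) (hA : PAlt k) :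
    F.Main := by
  have h2 := isUnit_two hℓ
  have hC := fgClo hT h2
  have hM := main hT h2
  have low : ∀ d : ℕ, F.LL d ↔ T.Low d := by
    intro d
    constructor
    · intro h
      exact alt hC hA d fun Y D hY hD => (link F hT hp hY).2 (h Y D hY hD)
    · intro h Y D hY hD
      exact (link F hT hp hY).1 (h Y fun x => (dimLE_of_idim hY.2.1 x).trans (by exact_mod_cast hD))
  have all : F.Q1 ↔ ∀ X : Var k, T.FG X := by
    constructor
    · intro h X
      obtain ⟨D, hD⟩ := CUB.t_FDM k X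
      exact (low D).1 (fun Y D' hY _ => h Y D' hY) X hD
    · intro h Y D hY
      exact (link F hT hp hY).1 (h Y)
  refine ⟨low, fun d => (low d).trans (hM.member d), all, all.trans hM.smooth, fun hk => ?_⟩
  have hQ := hM.quadrics hk
  refine ⟨fun d => (low d).trans (hQ.odd d), fun d => (low d).trans (hQ.oddP d),
    fun d => (low d).trans (hQ.cubic d), fun d => (low d).trans (hQ.smooth d), ?_, ?_, ?_⟩
  · intro d Y D hY hD hlow
    have hYd : DimLE Y (d + 1 : ℕ) := fun x =>
      (dimLE_of_idim hY.2.1 x).trans (by exact_mod_cast hD)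
    obtain ⟨n, f, h1, h3, h4, h5⟩ := eachX.{v} hk d Y hY.2.1.1 hYd
    refine ⟨n, f, h1, h3, h4, five_congr (fun X hX => ?_) (h5 (Zp ℓ) T h2 hT
      (hlow.imp id (low d).1))⟩
    exact (link F hT hp hY).symm.trans hX
  · constructor
    · intro h q n f _ _ _
      exact all.1 h _
    · intro h Y D hY
      exact (low D).2 ((hQ.odd D).2 (h (D + 1))) Y D hY le_rfl
  · constructor
    · intro h q n f _ _ _ X _
      exact all.1 h X
    · intro h Y D hY
      exact (low D).2 ((hQ.cubic D).2 (h (D + 1))) Y D hY le_rfl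

end

end LFQ
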