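import Pool.Agent.LFQ.Defs
import Pool.Agent.LFQ.Clo

/-!
# LFQ: basic lemmas on the homology theories

Modules on homology use `ClosedIn`, `OpenIn`, `PrMor`, ... with `ofCl`, `ofOp`, `ofPr` (`UQ/Geo.lean`).
-/

set_option autoImplicit false

open CategoryTheory AlgebraicGeometry Limits Polynomial TopologicalSpace

namespace LFQ

open Pool.Agent.Lib_helper55.Beil Pool.Agent.Lib_helper66.OneP CUB
open UQ (Mo Pt DimLE Co Ca Comp sp sdbl dm Inv ofCl ofOp ofPr ofEt ofBun ofLine ofIso comp_of pr_of_cl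
  pr_of_et pr_ofPr op_ofOp cl_ofCl et_ofEt line_ofLine bun_ofBun bun_of_line)
open QCV (Dr Bun Cls0 Cls Strat OddCl EvenCl DL)

universe v

variable {k : Type} [Field k] {Λ : Type} [CommRing Λ] {T : BM.{v} k Λ}

/-! ## Linearity -/

section Lin

variable {i n : ℤ} {X Y Z U : Var k}

lemma P_add (f : Mo X Y) (x y : T.H i n X) : T.P f (x + y) = T.P f x + T.P f y := map_add (T.pf i n f) x y

lemma P_sub (f : Mo X Y) (x y : T.H i n X) : T.P f (x - y) = T.P f x - T.P f y := map_sub (T.pf i n f) x y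

lemma P_neg (f : Mo X Y) (x : T.H i n X) : T.P f (-x) = -T.P f x := map_neg (T.pf i n f) x

lemma P_zero (f : Mo X Y) : T.P f (0 : T.H i n X) = 0 := map_zero (T.pf i n f)

lemma P_smul (f : Mo X Y) (c : Λ) (x : T.H i n X) : T.P f (c • x) = c • T.P f x :=
  map_smul (T.pf i n f) c x

lemma R_add (f : Mo X Y) (x y : T.H i n Y) : T.R f (x + y) = T.R f x + T.R f y := map_add (T.pb i n f) x y

lemma R_sub (f : Mo X Y) (x y : T.H i n Y) : T.R f (x - y) = T.R f x - T.R f y := map_sub (T.pb i n f) x y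

lemma R_neg (f : Mo X Y) (x : T.H i n Y) : T.R f (-x) = -T.R f x := map_neg (T.pb i n f) x

lemma R_zero (f : Mo X Y) : T.R f (0 : T.H i n Y) = 0 := map_zero (T.pb i n f)

lemma R_smul (f : Mo X Y) (c : Λ) (x : T.H i n Y) : T.R f (c • x) = c • T.R f x :=
  map_smul (T.pb i n f) c x

lemma B_sub (a : Mo Z X) (j : Mo U X) (x y : T.H i (n + 1) U) :
    T.B a j (x - y) = T.B a j x - T.B a j y := map_sub (T.bd i n a j) x y

lemma B_neg (a : Mo Z X) (j : Mo U X) (x : T.H i (n + 1) U) : T.B a j (-x) = -T.B a j x :=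
  map_neg (T.bd i n a j) x

lemma B_zero (a : Mo Z X) (j : Mo U X) : T.B a j (0 : T.H i (n + 1) U) = 0 :=
  map_zero (T.bd i n a j)

/-- Two is invertible. -/
lemma two_cancel (h2 : IsUnit (2 : Λ)) {x : T.H i n X} (h : (2 : Λ) • x = 0) : x = 0 := by
  obtain ⟨u, hu⟩ := h2
  have h1 : (↑u⁻¹ : Λ) • ((2 : Λ) • x) = 0 := by rw [h, smul_zero]
  rwa [smul_smul, ← hu, Units.inv_mul, one_smul] at h1

lemma zero_of_eq_neg (h2 : IsUnit (2 : Λ)) {x : T.H i n X} (h : x = -x) : x = 0 := by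
  refine two_cancel h2 ?_
  rw [two_smul]
  nth_rw 2 [h]
  exact add_neg_cancel x

end Lin

/-! ## Functoriality -/

section Fun

variable (hT : T.Pub) {i n : ℤ}

include hT

lemma P_one {X : Var k} (f : Mo X X) (h : f.g = 𝟙 X.X) (m : T.H i n X) : T.P f m = m :=
  hT.push.one i n f h m

lemma P_comp {X Y Z : Var k} (f : Mo X Y) (g : Mo Y Z) (h : Mo X Z) (hf : f.Pr) (hg : g.Pr)
    (e : f.g ≫ g.g = h.g) (m : T.H i n X) : T.P g (T.P f m) = T.P h m :=
  hT.push.comp i n f g h hf hg e m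

/-- A commutative square of proper morphisms. -/
lemma P_sq {X Y Y' Z : Var k} (f : Mo X Y) (g : Mo Y Z) (f' : Mo X Y') (g' : Mo Y' Z) (hf : f.Pr)
    (hg : g.Pr) (hf' : f'.Pr) (hg' : g'.Pr) (e : f.g ≫ g.g = f'.g ≫ g'.g) (m : T.H i n X) :
    T.P g (T.P f m) = T.P g' (T.P f' m) := by
  let h : Mo X Z := ⟨f.g ≫ g.g, by rw [Category.assoc, g.comm, f.comm]⟩
  rw [P_comp hT f g h hf hg rfl, P_comp hT f' g' h hf' hg' e.symm]

lemma exX {Z U X : Var k} (a : ClosedIn Z X) (j : OpenIn U X) (h : Complementary a j)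
    (m : T.H i n X) : T.R (ofOp j) m = 0 ↔ ∃ z : T.H i n Z, T.P (ofCl a) z = m :=
  hT.loc.atX i n (ofCl a) (ofOp j) (comp_of h) m

lemma exZ {Z U X : Var k} (a : ClosedIn Z X) (j : OpenIn U X) (h : Complementary a j)
    (z : T.H i n Z) : T.P (ofCl a) z = 0 ↔ ∃ u : T.H i (n + 1) U, T.B (ofCl a) (ofOp j) u = z :=
  hT.loc.atZ i n (ofCl a) (ofOp j) (comp_of h) z

lemma exU {Z U X : Var k} (a : ClosedIn Z X) (j : OpenIn U X) (h : Complementary a j)
    (u : T.H i (n + 1) U) :
    T.B (ofCl a) (ofOp j) u = 0 ↔ ∃ m : T.H i (n + 1) X, T.R (ofOp j) m = u :=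
  hT.loc.atU i n (ofCl a) (ofOp j) (comp_of h) u

/-- Restriction to an open subvariety and push-forward. -/
lemma R_P {U' X' U X : Var k} (j' : Mo U' X') (f' : Mo U' U) (f : Mo X' X) (j : Mo U X)
    (hf : f.Pr) (hj : j.Op) (h : IsPullback j'.g f'.g f.g j.g) (m : T.H i n X') :
    T.R j (T.P f m) = T.P f' (T.R j' m) :=
  hT.push.base i n j' f' f j hf hj h m

/-- Boundary maps and push-forward. -/
lemma P_B {Z' U' X' Z U X : Var k} (a' : ClosedIn Z' X') (j' : OpenIn U' X') (a : ClosedIn Z X)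
    (j : OpenIn U X) (h' : Complementary a' j') (h : Complementary a j) (r : Mo Z' Z) (s : Mo U' U)
    (f : Mo X' X) (hr : r.Pr) (hs : s.Pr) (hf : f.Pr) (e1 : a'.g ≫ f.g = r.g ≫ a.g)
    (e2 : j'.g ≫ f.g = s.g ≫ j.g) (u : T.H i (n + 1) U') :
    T.P r (T.B (ofCl a') (ofOp j') u) = T.B (ofCl a) (ofOp j) (T.P s u) :=
  hT.push.boundary i n (ofCl a') (ofOp j') (ofCl a) (ofOp j) r s f (comp_of h') (comp_of h) hr hs hf
    e1 e2 u

/-- Push-forward along an isomorphism is bijective. -/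
lemma P_iso {X Y : Var k} (s : VIso X Y) : Function.Bijective (T.pf i n (ofIso s)) := by
  let t : Mo Y X := ⟨s.e.inv, by rw [← s.comm, s.e.inv_hom_id_assoc]⟩
  have hs : (ofIso s).Pr := by
    change IsProper s.e.hom
    infer_instance
  have ht : t.Pr := by
    change IsProper s.e.inv
    infer_instance
  have h1 : ∀ m : T.H i n X, T.P t (T.P (ofIso s) m) = m := by
    intro m
    rw [P_comp hT (ofIso s) t ⟨𝟙 _, Category.id_comp _⟩ hs ht s.e.hom_inv_id]
    exact P_one hT _ rfl m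
  have h3 : ∀ m : T.H i n Y, T.P (ofIso s) (T.P t m) = m := by
    intro m
    rw [P_comp hT t (ofIso s) ⟨𝟙 _, Category.id_comp _⟩ ht hs s.e.inv_hom_id]
    exact P_one hT _ rfl m
  exact ⟨Function.LeftInverse.injective (g := T.P t) h1,
    Function.RightInverse.surjective (g := T.P t) h3⟩

end Fun

/-! ## Affine varieties -/

section Aff

variable {A B C : Type} [CommRing A] [Algebra k A] [Algebra.FiniteType k A] [CommRing B] [Algebra k B]
  [Algebra.FiniteType k B] [CommRing C] [Algebra k C] [Algebra.FiniteType k C]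

/-- The morphism of spectra defined by a homomorphism. -/
noncomputable def mo (φ : A →ₐ[k] B) : Mo (aff k B) (aff k A) := ⟨spm φ, spm_comm φ⟩

lemma mo_g_comp (φ : A →ₐ[k] B) (χ : B →ₐ[k] C) : (mo χ).g ≫ (mo φ).g = (mo (χ.comp φ)).g :=
  spm_comp φ χ

lemma mo_surj_pr (φ : A →ₐ[k] B) (h : Function.Surjective φ) : (mo φ).Pr := by
  have h1 : IsClosedImmersion (mo φ).g := IsClosedImmersion.spec_of_surjective _ h
  exact (inferInstance : IsProper (mo φ).g)

lemma mo_equiv_pr (e : A ≃ₐ[k] B) : (mo (e : A →ₐ[k] B)).Pr := mo_surj_pr _ e.surjective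

lemma dm_pr (b c : A) : (dm k A b c).Pr := (QCV.dbl b c k).proper

end Aff

/-- The automorphism `t` acts trivially on the homology. -/
def TR (T : BM.{v} k Λ) (A : Type) [CommRing A] [Algebra k A] [Algebra.FiniteType k A]
    (t : A ≃ₐ[k] A) : Prop :=
  ∀ (i n : ℤ) (m : T.H i n (aff k A)), T.P (mo (t : A →ₐ[k] A)) m = m

/-! ## Finitely generated modules -/

/-- The middle term of an exact sequence is finitely generated if the others are. -/
lemma fin_mid [IsNoetherianRing Λ] {M N L : Type*} [AddCommGroup M] [Module Λ M] [AddCommGroup N]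
    [Module Λ N] [AddCommGroup L] [Module Λ L] (f : M →ₗ[Λ] N) (g : N →ₗ[Λ] L)
    (h : ∀ x, g x = 0 → ∃ y, f y = x) (hM : Module.Finite Λ M) (hL : Module.Finite Λ L) :
    Module.Finite Λ N := by
  have h1 : (LinearMap.ker g).FG := by
    have h2 : LinearMap.ker g ≤ LinearMap.range f := fun x hx => h x hx
    have h3 : IsNoetherian Λ (LinearMap.range f) := inferInstance
    have h4 : (LinearMap.ker g).comap (LinearMap.range f).subtype |>.FG := IsNoetherian.noetherian _
    have h5 := h4.map (LinearMap.range f).subtype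
    rwa [Submodule.map_comap_subtype, inf_eq_right.mpr h2] at h5
  have h6 : (LinearMap.range g).FG := IsNoetherian.noetherian _
  have h7 : (⊤ : Submodule Λ N).FG := by
    refine Submodule.fg_of_fg_map_of_fg_inf_ker g ?_ ?_
    · rwa [Submodule.map_top]
    · rwa [top_inf_eq]
  exact ⟨h7⟩

/-- A module which embeds into a finitely generated one. -/
lemma fin_inj [IsNoetherianRing Λ] {M N : Type*} [AddCommGroup M] [Module Λ M] [AddCommGroup N]
    [Module Λ N] (f : M →ₗ[Λ] N) (h : Function.Injective f) (hN : Module.Finite Λ N) :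
    Module.Finite Λ M :=
  Module.Finite.of_injective f h

end LFQ
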