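import Pool.Agent.LFQ.H_TR
import Pool.Agent.CUB2.Asm2

/-!
# LFQ: finitely generated homology, closure properties
-/

set_option autoImplicit false

open CategoryTheory AlgebraicGeometry Limits Polynomial TopologicalSpace

namespace LFQ

open Pool.Agent.Lib_helper55.Beil Pool.Agent.Lib_helper66.OneP CUB
open UQ (Mo Pt DimLE Co Ca Comp sp sdbl dm Inv ofCl ofOp ofPr ofEt ofBun ofLine ofIso comp_of pr_of_cl
  pr_of_et pr_ofPr op_ofOp cl_ofCl et_ofEt line_ofLine bun_ofBun bun_of_line)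
open QCV (Dr Bun Cls0 Cls Strat OddCl EvenCl DL autc)

universe v

variable {k : Type} [Field k] {Λ : Type} [CommRing Λ] [IsNoetherianRing Λ] {T : BM.{v} k Λ}

lemma fg_iso (hT : T.Pub) {X Y : Var k} (s : VIso X Y) (h : T.FG X) : T.FG Y := fun i n =>
  have := h i n
  Module.Finite.of_surjective (T.pf i n (ofIso s)) (P_iso hT s).surjective

lemma fg_empty (hT : T.Pub) (X : Var k) (h : IsEmpty X.X) : T.FG X := fun i n =>
  have := hT.fin.empty i n X h
  inferInstance

lemma fg_paste (hT : T.Pub) {Z U X : Var k} (a : ClosedIn Z X) (j : OpenIn U X)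
    (hc : Complementary a j) (hZ : T.FG Z) (hU : T.FG U) : T.FG X := fun i n =>
  fin_mid (T.pf i n (ofCl a)) (T.pb i n (ofOp j)) (fun x hx => (exX hT a j hc x).mp hx) (hZ i n)
    (hU i n)

lemma fg_cut (hT : T.Pub) {Z U X : Var k} (a : ClosedIn Z X) (j : OpenIn U X)
    (hc : Complementary a j) (hX : T.FG X) (hZ : T.FG Z) : T.FG U := by
  intro i n
  obtain ⟨n, rfl⟩ : ∃ n', n = n' + 1 := ⟨n - 1, by ring⟩
  exact fin_mid (T.pb i (n + 1) (ofOp j)) (T.bd i n (ofCl a) (ofOp j))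
    (fun x hx => (exU hT a j hc x).mp hx) (hX i (n + 1)) (hZ i n)

lemma fg_third (hT : T.Pub) {Z U X : Var k} (a : ClosedIn Z X) (j : OpenIn U X)
    (hc : Complementary a j) (hX : T.FG X) (hU : T.FG U) : T.FG Z := fun i n =>
  fin_mid (T.bd i n (ofCl a) (ofOp j)) (T.pf i n (ofCl a)) (fun x hx => (exZ hT a j hc x).mp hx)
    (hU i (n + 1)) (hX i n)

/-- A line bundle and its base. -/
lemma fg_bun (hT : T.Pub) {Y X : Var k} (q : Mo Y X) (hq : q.Bun) (h : T.FG X) : T.FG Y := by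
  intro i n
  obtain ⟨i, rfl⟩ : ∃ i', i = i' + 1 := ⟨i - 1, by ring⟩
  obtain ⟨n, rfl⟩ : ∃ n', n = n' + 2 := ⟨n - 2, by ring⟩
  have := h i n
  exact Module.Finite.of_surjective (T.lb i n q) (hT.bundles.bij i n q hq).surjective

lemma fin_unbun (hT : T.Pub) {Y X : Var k} (q : Mo Y X) (hq : q.Bun) (i n : ℤ)
    (h : Module.Finite Λ (T.H (i + 1) (n + 2) Y)) : Module.Finite Λ (T.H i n X) :=
  fin_inj (T.lb i n q) (hT.bundles.bij i n q hq).injective h

lemma fg_unbun (hT : T.Pub) {Y X : Var k} (q : Mo Y X) (hq : q.Bun) (h : T.FG Y) : T.FG X :=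
  fun i n => fin_unbun hT q hq i n (h _ _)

lemma fg_line (hT : T.Pub) (A : Type) [CommRing A] [Algebra k A] [Algebra.FiniteType k A]
    (h : T.FG (aff k A)) : T.FG (aff k A[X]) := fg_bun hT (lq k A) lq_bun h

lemma fg_unline (hT : T.Pub) {Y X : Var k} (L : Line Y X) (h : T.FG Y) : T.FG X :=
  fg_unbun hT (ofLine L) (bun_of_line (line_ofLine L)) h

lemma fg_cover (hT : T.Pub) (h2 : IsUnit (2 : Λ)) (A : Type) [CommRing A] [Algebra k A]
    [Algebra.FiniteType k A] (b c : A) (h : T.FG (aff k (Dr A b c))) : T.FG (aff k A) := by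
  intro i n
  have h1 : Module.Finite Λ (T.H i n (sdbl k A b c)) := h i n
  obtain ⟨u, hu⟩ := h2
  refine Module.Finite.of_surjective (T.pf i n (dm k A b c)) fun m => ?_
  refine ⟨(↑u⁻¹ : Λ) • T.R (dm k A b c) m, ?_⟩
  have h3 : T.P (dm k A b c) (T.R (dm k A b c) m) = (2 : Λ) • m := hT.cov.dbl i n A b c m
  have h4 : T.pf i n (dm k A b c) ((↑u⁻¹ : Λ) • T.R (dm k A b c) m) =
      (↑u⁻¹ : Λ) • T.P (dm k A b c) (T.R (dm k A b c) m) := map_smul _ _ _
  refine h4.trans ((congrArg (fun y => (↑u⁻¹ : Λ) • y) h3).trans ?_)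
  change (↑u⁻¹ : Λ) • ((2 : Λ) • m) = m
  rw [smul_smul, ← hu, Units.inv_mul, one_smul]

lemma fg_etale (hT : T.Pub) {V U : Var k} (f : Pool.Agent.Lib_helper66.OneP.FinEt V U)
    (hU : IsIntegral U.X) (h : T.FG V) : T.FG U := by
  intro i n
  obtain ⟨D, hD, hd⟩ := hT.cov.etale (ofEt f) (et_ofEt f) hU
  obtain ⟨N, hN, hm⟩ := hT.fin.quot i n U D hD
  have h1 := h i n
  have h2 : (LinearMap.range (T.pf i n (ofEt f))).FG := by
    have h4 : (⊤ : Submodule Λ (T.H i n V)).FG := Module.Finite.fg_top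
    rw [LinearMap.range_eq_map]
    exact h4.map _
  have h3 : (⊤ : Submodule Λ (T.H i n U)) ≤ LinearMap.range (T.pf i n (ofEt f)) ⊔ N := by
    intro m _
    obtain ⟨m', hm'⟩ := hm m
    have h4 : m = (D : Λ) • m' + (m - (D : Λ) • m') := by abel
    rw [h4]
    refine Submodule.add_mem_sup ?_ hm'
    rw [← hd i n m']
    exact ⟨_, rfl⟩
  have h4 : (LinearMap.range (T.pf i n (ofEt f)) ⊔ N).FG := h2.sup hN
  rw [top_le_iff.mp h3] at h4
  exact ⟨h4⟩

/-- The base of a line bundle. -/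
lemma fg_bundle (hT : T.Pub) {Y X U : Var k} (B : Bun Y X) (s : ClosedIn X Y) (j : OpenIn U Y)
    (hc : Complementary s j) (hU : T.FG U) : T.FG X := by
  obtain ⟨D, hD⟩ := CUB.t_FDM k X
  have key : ∀ (m : ℕ) (i : ℤ), (D : ℤ) < i + m → ∀ n : ℤ, Module.Finite Λ (T.H i n X) := by
    intro m
    induction m with
    | zero =>
      intro i hi n
      exact hT.fin.large i n D X hD (by simpa using hi)
    | succ m ih =>
      intro i hi n
      refine fin_unbun hT (ofBun B) (bun_ofBun B) i n ?_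
      exact fin_mid (T.pf (i + 1) (n + 2) (ofCl s)) (T.pb (i + 1) (n + 2) (ofOp j))
        (fun x hx => (exX hT s j hc x).mp hx) (ih (i + 1) (by push_cast at hi ⊢; linarith) (n + 2))
        (hU _ _)
  intro i n
  refine key ((D : ℤ) + 1 - i).toNat i ?_ n
  have := Int.self_le_toNat ((D : ℤ) + 1 - i)
  linarith

omit [CommRing Λ] [IsNoetherianRing Λ] in
/-- In characteristic two the involution is trivial. -/
lemma dinv_two {S : Type} [CommRing S] [Algebra k S] (c : S) (hk : (2 : k) = 0) (x : Dr S 0 c) :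
    QCV.dinv 0 c k x = x := by
  have h6 : (2 : Dr S 0 c) = 0 := by
    have := congrArg (algebraMap k (Dr S 0 c)) hk
    rwa [map_ofNat, map_zero] at this
  have h4 : (QCV.dinv 0 c k : Dr S 0 c →ₐ[k] Dr S 0 c).toRingHom = RingHom.id _ := by
    apply AdjoinRoot.ringHom_ext
    · ext a
      exact QCV.dinv_of 0 c k a
    · refine (QCV.dinv_rt 0 c k).trans ?_
      change - algebraMap S (Dr S 0 c) 0 - QCV.rt 0 c = QCV.rt 0 c
      rw [map_zero]
      linear_combination (-QCV.rt 0 c) * h6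
  exact RingHom.congr_fun h4 x

/-- Quadric cones in an odd number of variables. -/
theorem fg_odd (hT : T.Pub) (h2 : IsUnit (2 : Λ)) :
    OddCl k (fun A [CommRing A] [Algebra k A] [Algebra.FiniteType k A] => T.FG (aff k A)) := by
  intro A _ _ _ m a ha hA
  have hu0 : IsUnit (a (0 : Fin (2 * m + 1))) := ha _
  obtain ⟨w, hw⟩ := hu0
  have hb : ∀ j : Fin (2 * m), (a j.succ * ↑w⁻¹) * a 0 = a j.succ := by
    intro j
    rw [← hw, mul_assoc, Units.inv_mul, mul_one]
  obtain ⟨e⟩ := QCV.t_ODR k A (2 * m) a (fun j => a j.succ * ↑w⁻¹) (ha 0) hb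
  refine fg_iso hT (viso e) ?_
  set c : MvPolynomial (Fin (2 * m)) A := QCV.dia fun j : Fin (2 * m) => a j.succ * ↑w⁻¹ with hc
  -- the involution acts trivially
  have htr : TR T (Dr (MvPolynomial (Fin (2 * m)) A) 0 c) (QCV.dinv 0 c k) := by
    by_cases hk : (2 : k) = 0
    · refine tr_nil hT _ fun x => ?_
      rw [dinv_two c hk x, sub_self]
      exact IsNilpotent.zero
    · refine tr_dia hT h2 hk m A _ fun j => (ha _).mul ?_
      exact (w⁻¹).isUnit
  -- the base
  have hB : T.FG (aff k (MvPolynomial (Fin (2 * m)) A)) :=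
    (QCV.Asm.s_PLY k (fun A [CommRing A] [Algebra k A] [Algebra.FiniteType k A] => T.FG (aff k A))
      { iso := fun e h => fg_iso hT (viso e.symm) h
        triv := fun A _ _ _ h => fg_empty hT _ (QCV.isEmpty_aff A h)
        glue := fun a z u s hZ hU => fg_paste hT _ _
          (CUB.complementary_away u a s.away z s.surj s.ker) hZ hU
        opn := fun a z u s hA hZ => fg_cut hT _ _
          (CUB.complementary_away u a s.away z s.surj s.ker) hA hZ }
      (fun A _ _ _ h => fg_line hT A h) A (2 * m)).1 hA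
  intro i n
  refine fin_inj (T.pf i n (dm k (MvPolynomial (Fin (2 * m)) A) 0 c)) ?_ (hB i n)
  rw [injective_iff_map_eq_zero]
  intro x hx
  have h3 := hT.cov.inv i n (MvPolynomial (Fin (2 * m)) A) 0 c
    (ofCl (QCV.autc (QCV.dinv 0 c k)))
    ⟨QCV.dinvHom 0 c, QCV.dinvHom_of 0 c, QCV.dinvHom_rt 0 c, rfl⟩ x
  have h4 : T.P (ofCl (QCV.autc (QCV.dinv 0 c k))) x = x := htr i n x
  have h5 : T.P (dm k (MvPolynomial (Fin (2 * m)) A) 0 c) x = 0 := hx
  have h6 : x + T.P (ofCl (QCV.autc (QCV.dinv 0 c k))) x = 0 := by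
    refine h3.symm.trans ?_
    exact (congrArg (T.R (dm k (MvPolynomial (Fin (2 * m)) A) 0 c)) h5).trans (R_zero _)
  have h7 : (2 : Λ) • x = 0 := by
    rw [two_smul]
    exact (congrArg (fun y => x + y) h4.symm).trans h6
  exact two_cancel h2 h7

end LFQ
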