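import Pool.Agent.LFQ.Base
import Pool.Agent.QCV.O_ASM

/-!
# LFQ: automorphisms which act trivially on the homology
-/

set_option autoImplicit false

open CategoryTheory AlgebraicGeometry Limits Polynomial TopologicalSpace

namespace LFQ

open Pool.Agent.Lib_helper55.Beil Pool.Agent.Lib_helper66.OneP CUB
open UQ (Mo Pt DimLE Co Ca Comp sp sdbl dm Inv ofCl ofOp ofPr ofEt ofBun ofLine ofIso comp_of pr_of_cl
  pr_of_et pr_ofPr op_ofOp cl_ofCl et_ofEt line_ofLine bun_ofBun bun_of_line)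
open QCV (Dr Bun Cls0 Cls Strat OddCl EvenCl DL autc)

universe v

variable {k : Type} [Field k] {Λ : Type} [CommRing Λ] {T : BM.{v} k Λ}
variable {A B : Type} [CommRing A] [Algebra k A] [Algebra.FiniteType k A] [CommRing B] [Algebra k B]
  [Algebra.FiniteType k B]

/-- The identity acts trivially. -/
lemma tr_refl (hT : T.Pub) : TR T A (AlgEquiv.refl : A ≃ₐ[k] A) :=
  fun _ _ m => P_one hT _ spm_id m

/-- An automorphism which is trivial modulo nilpotents. -/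
lemma tr_nil (hT : T.Pub) (t : A ≃ₐ[k] A) (ht : ∀ x, IsNilpotent (t x - x)) : TR T A t := by
  intro i n m
  have hs := hT.fin.empty i n (openVar (aff k A) ⊥) (isEmpty_openVar_bot (aff k A))
  obtain ⟨z, rfl⟩ := (exX hT (QCV.ONIL.rd k A) (openVarIn (aff k A) ⊥)
      (QCV.complementary_surj (QCV.ONIL.rd k A) QCV.ONIL.rd_surj) m).mp (Subsingleton.elim _ _)
  exact P_comp hT (ofCl (QCV.ONIL.rd k A)) (mo (t : A →ₐ[k] A)) (ofCl (QCV.ONIL.rd k A))
    (pr_of_cl (QCV.ONIL.rd k A).closed) (mo_equiv_pr t) (QCV.ONIL.rd_comp t ht) z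

/-- The line over a variety as a line bundle. -/
noncomputable def lq (k A : Type) [Field k] [CommRing A] [Algebra k A] [Algebra.FiniteType k A] :
    Mo (aff k A[X]) (aff k A) := mo (CC k A)

lemma lq_bun : (lq k A).Bun :=
  bun_of_line (line_ofLine (lineE (CC k A) (RingEquiv.refl _) (fun _ => rfl)))

/-- Products with the affine line. -/
lemma tr_line (hT : T.Pub) (t : A ≃ₐ[k] A) (t' : A[X] ≃ₐ[k] A[X]) (htt : ∀ a, t' (C a) = C (t a))
    (h : TR T A t) : TR T A[X] t' := by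
  intro i n m
  obtain ⟨i, rfl⟩ : ∃ i', i = i' + 1 := ⟨i - 1, by ring⟩
  obtain ⟨n, rfl⟩ : ∃ n', n = n' + 2 := ⟨n - 2, by ring⟩
  obtain ⟨x, rfl⟩ := (hT.bundles.bij i n (lq k A) lq_bun).surjective m
  have hsq : (lq k A).g ≫ (mo (t : A →ₐ[k] A)).g = (mo (t' : A[X] →ₐ[k] A[X])).g ≫ (lq k A).g := by
    change spm (CC k A) ≫ spm (t : A →ₐ[k] A) = spm (t' : A[X] →ₐ[k] A[X]) ≫ spm (CC k A)
    rw [spm_comp, spm_comp]
    exact congrArg spm (AlgHom.ext fun a => (htt a).symm)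
  have hi1 : IsIso (mo (t : A →ₐ[k] A)).g := QCV.OGLU.isIso_autc t
  have hi2 : IsIso (mo (t' : A[X] →ₐ[k] A[X])).g := QCV.OGLU.isIso_autc t'
  have hca : IsPullback (lq k A).g (mo (t' : A[X] →ₐ[k] A[X])).g (mo (t : A →ₐ[k] A)).g (lq k A).g :=
    IsPullback.of_vert_isIso ⟨hsq⟩
  have h1 := hT.bundles.push i n (lq k A) (lq k A) (mo (t' : A[X] →ₐ[k] A[X])) (mo (t : A →ₐ[k] A))
    lq_bun (mo_equiv_pr t) hca x
  rw [h i n x] at h1
  exact h1.symm

/-- Gluing. -/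
lemma tr_glue (hT : T.Pub) (h2 : IsUnit (2 : Λ)) {Z U : Type} [CommRing Z] [Algebra k Z]
    [Algebra.FiniteType k Z] [CommRing U] [Algebra k U] [Algebra.FiniteType k U] (a : A)
    (z : A →ₐ[k] Z) (u : A →ₐ[k] U) (tA : A ≃ₐ[k] A) (tZ : Z ≃ₐ[k] Z) (tU : U ≃ₐ[k] U)
    (s : Strat a z u) (hA : ∀ x, tA (tA x) = x) (hz : ∀ x, z (tA x) = tZ (z x))
    (hu : ∀ x, u (tA x) = tU (u x)) (rZ : TR T Z tZ) (rU : TR T U tU) : TR T A tA := by
  intro i n m
  have hc := CUB.complementary_away u a s.away z s.surj s.ker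
  have c1 : spm z ≫ (autc tA).g = (autc tZ).g ≫ spm z := QCV.OGLU.comm_autc tA tZ z hz
  have c2 : spm u ≫ (autc tA).g = (autc tU).g ≫ spm u := QCV.OGLU.comm_autc tA tU u hu
  have hi := QCV.OGLU.isIso_autc tA
  have hi' := QCV.OGLU.isIso_autc tU
  have c3 : IsPullback (spm u) (autc tU).g (autc tA).g (spm u) := IsPullback.of_vert_isIso ⟨c2⟩
  set δ : T.H i n (aff k A) := T.P (mo (tA : A →ₐ[k] A)) m - m with hδ
  have e1 : T.R (ofOp (opn u (isOpenImmersion_spm u a s.away))) δ = 0 := by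
    rw [hδ, R_sub, R_P hT (ofOp (opn u (isOpenImmersion_spm u a s.away))) (mo (tU : U →ₐ[k] U))
      (mo (tA : A →ₐ[k] A)) (ofOp (opn u (isOpenImmersion_spm u a s.away))) (mo_equiv_pr tA)
      (op_ofOp _) c3, rU, sub_self]
  obtain ⟨w, hw⟩ := (exX hT _ _ hc δ).mp e1
  have e3 : T.P (mo (tA : A →ₐ[k] A)) δ = δ := by
    rw [← hw, P_sq hT (ofCl (clo z s.surj)) (mo (tA : A →ₐ[k] A)) (mo (tZ : Z →ₐ[k] Z))
      (ofCl (clo z s.surj)) (pr_of_cl (clo z s.surj).closed) (mo_equiv_pr tA) (mo_equiv_pr tZ)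
      (pr_of_cl (clo z s.surj).closed) c1, rZ]
  have e6 : T.P (mo (tA : A →ₐ[k] A)) δ = -δ := by
    rw [hδ, P_sub, P_comp hT (mo (tA : A →ₐ[k] A)) (mo (tA : A →ₐ[k] A)) ⟨𝟙 _, Category.id_comp _⟩
      (mo_equiv_pr tA) (mo_equiv_pr tA) (QCV.OGLU.autc_autc tA hA), P_one hT _ rfl, neg_sub]
  exact sub_eq_zero.mp (zero_of_eq_neg h2 (e3.symm.trans e6))

/-- Isomorphisms. -/
lemma tr_iso (hT : T.Pub) (t : A ≃ₐ[k] A) (t' : B ≃ₐ[k] B) (e : A ≃ₐ[k] B)
    (h : ∀ x, e (t x) = t' (e x)) (H : TR T A t) : TR T B t' := by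
  intro i n m
  have hc : (mo (e : A →ₐ[k] B)).g ≫ (mo (t : A →ₐ[k] A)).g =
      (mo (t' : B →ₐ[k] B)).g ≫ (mo (e : A →ₐ[k] B)).g := QCV.OISO.isc_comm t t' e h
  have h1 := H i n (T.P (mo (e : A →ₐ[k] B)) m)
  rw [P_sq hT (mo (e : A →ₐ[k] B)) (mo (t : A →ₐ[k] A)) (mo (t' : B →ₐ[k] B)) (mo (e : A →ₐ[k] B))
    (mo_equiv_pr e) (mo_equiv_pr t) (mo_equiv_pr t') (mo_equiv_pr e) hc] at h1
  exact (P_iso hT (viso e)).injective h1

/-- Descent along a double cover. -/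
lemma tr_dbl (hT : T.Pub) (h2 : IsUnit (2 : Λ)) (b c : A) (t : A ≃ₐ[k] A) (t' : Dr A b c ≃ₐ[k] Dr A b c)
    (htt : ∀ a, t' (algebraMap A (Dr A b c) a) = algebraMap A (Dr A b c) (t a))
    (h : TR T (Dr A b c) t') : TR T A t := by
  intro i n m
  have hcomm : (mo (t' : Dr A b c →ₐ[k] Dr A b c)).g ≫ (dm k A b c).g =
      (dm k A b c).g ≫ (mo (t : A →ₐ[k] A)).g := QCV.ODCV.autc_dbl b c t t' htt
  have h1 : T.P (dm k A b c) (T.R (dm k A b c) m) = (2 : Λ) • m := hT.cov.dbl i n A b c m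
  have h3 : T.P (mo (t : A →ₐ[k] A)) (T.P (dm k A b c) (T.R (dm k A b c) m)) =
      T.P (dm k A b c) (T.R (dm k A b c) m) := by
    have h4 := P_sq hT (mo (t' : Dr A b c →ₐ[k] Dr A b c)) (dm k A b c) (dm k A b c)
      (mo (t : A →ₐ[k] A)) (mo_equiv_pr t') (dm_pr b c) (dm_pr b c) (mo_equiv_pr t) hcomm
      (T.R (dm k A b c) m)
    rw [h] at h4
    exact h4.symm
  have h5 : (2 : Λ) • T.P (mo (t : A →ₐ[k] A)) m = (2 : Λ) • m := by
    rw [← P_smul]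
    exact (congrArg (T.P (mo (t : A →ₐ[k] A))) h1).symm.trans (h3.trans h1)
  rw [← sub_eq_zero, ← smul_sub] at h5
  exact sub_eq_zero.mp (two_cancel h2 h5)

/-- The double cover of a hyperbolic plane. -/
lemma tr_hyp (hT : T.Pub) (h2 : IsUnit (2 : Λ)) (S : Type) [CommRing S] [Algebra k S]
    [Algebra.FiniteType k S] (c : S) (h : TR T (Dr S 0 c) (QCV.dinv 0 c k)) :
    TR T (QCV.HW S c) (QCV.dinv _ _ k) := by
  obtain ⟨z, u, tZ, tU, hS, hz, hu, hZC, hUC⟩ := QCV.t_OHYR k S c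
  haveI h1 : Algebra.FiniteType S[X] (Localization.Away (X : S[X])) :=
    IsLocalization.finiteType_of_monoid_fg (Submonoid.powers (X : S[X])) _
  haveI h2 : Algebra.FiniteType k (Localization.Away (X : S[X])) :=
    Algebra.FiniteType.trans (S := S[X]) inferInstance h1
  refine tr_glue hT ‹_› _ z u (QCV.dinv _ _ k) tZ tU hS (QCV.dinv_dinv _ _ k) hz hu ?_ ?_
  · exact tr_line hT (QCV.dinv 0 c k) tZ hZC h
  · exact tr_line hT AlgEquiv.refl tU (fun a => hUC a) (tr_refl hT)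

/-- One hyperbolic plane. -/
lemma tr_step (hT : T.Pub) (h2 : IsUnit (2 : Λ)) (hk : (2 : k) ≠ 0) (n : ℕ) (A : Type) [CommRing A]
    [Algebra k A] [Algebra.FiniteType k A] (a : Fin (n + 2) → A) (ha : ∀ j, IsUnit (a j)) (δ : A)
    (hδ : δ * a 0 = a 1)
    (h : TR T (Dr (MvPolynomial (Fin n) (Dr A 0 δ)) 0
      (QCV.dia fun j => algebraMap A (Dr A 0 δ) (a j.succ.succ))) (QCV.dinv 0 _ k)) :
    TR T (Dr (MvPolynomial (Fin (n + 2)) A) 0 (QCV.dia a)) (QCV.dinv 0 (QCV.dia a) k) := by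
  obtain ⟨e, t', h1, h3⟩ := QCV.Asm.s_ORNG k A n a δ hk (ha 0) (ha 1) hδ
  have g1 := tr_hyp hT h2 (MvPolynomial (Fin n) (Dr A 0 δ))
    (QCV.dia fun j => algebraMap A (Dr A 0 δ) (a j.succ.succ)) h
  have g2 := tr_iso hT (QCV.dinv _ _ k) t' e.symm (fun y => by
    apply e.injective
    rw [h3, AlgEquiv.apply_symm_apply, AlgEquiv.apply_symm_apply]) g1
  exact tr_dbl hT h2 0 (algebraMap (MvPolynomial (Fin (n + 2)) A) _ (MvPolynomial.C δ))
    (QCV.dinv 0 (QCV.dia a) k) t' h1 g2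

/-- Diagonal forms in an even number of variables. -/
lemma tr_dia (hT : T.Pub) (h2 : IsUnit (2 : Λ)) (hk : (2 : k) ≠ 0) (m : ℕ) :
    ∀ (A : Type) [CommRing A] [Algebra k A] [Algebra.FiniteType k A] (a : Fin (2 * m) → A),
      (∀ j, IsUnit (a j)) →
      TR T (Dr (MvPolynomial (Fin (2 * m)) A) 0 (QCV.dia a)) (QCV.dinv 0 (QCV.dia a) k) := by
  induction m with
  | zero =>
    intro A _ _ _ a _
    have hc : QCV.dia a = 0 := by
      unfold QCV.dia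
      exact Finset.sum_eq_zero (fun j _ => absurd j.2 (by omega))
    exact tr_nil hT (QCV.dinv 0 (QCV.dia a) k) (QCV.ODIA.nil k (QCV.dia a) hc)
  | succ m ih =>
    intro A _ _ _ a ha
    have hu0 : IsUnit (a (0 : Fin (2 * m + 2))) := ha _
    obtain ⟨u, hu⟩ := hu0
    refine tr_step hT h2 hk (2 * m) A a ha (a (1 : Fin (2 * m + 2)) * ↑u⁻¹) ?_ ?_
    · rw [← hu, mul_assoc, Units.inv_mul, mul_one]
    · exact ih (Dr A 0 _) _ (fun j => (ha _).map _)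

end LFQ
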