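import Pool.Agent.LFQ.M_UNO
import Pool.Agent.QCV.Fin5

/-!
# LFQ: from smooth projective varieties to all varieties, by alterations
-/

set_option autoImplicit false

open CategoryTheory AlgebraicGeometry Limits Polynomial TopologicalSpace

namespace LFQ

open Pool.Agent.Lib_helper55.Beil Pool.Agent.Lib_helper66.OneP CUB
open UQ (Mo Pt DimLE Co Ca Comp sp sdbl dm Inv toCl toOp toEt)

variable {k : Type} [Field k] {P : Var k → Prop}

lemma dimLE_of_idim {X : Var k} {d : ℕ} (h : UQ.IDim X d) : X.DimLE d := by
  obtain ⟨hi, h⟩ := h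
  intro x
  refine (dim_le_of_specializes X (genericPoint_specializes x)).trans ?_
  exact le_of_eq h

/-- A property with the closure properties which holds for the smooth projective varieties of dimension
at most `d` holds for all varieties of dimension at most `d`. -/
theorem alt [PerfectField k] (hP : Clo P) (hA : PAlt k) (d : ℕ)
    (h : ∀ (Y : Var k) (D : ℕ), SPj Y D → D ≤ d → P Y) : ∀ X : Var k, X.DimLE d → P X := by
  have key : ∀ e ≤ d, ∀ X : Var k, X.DimLE e → P X := by
    intro e
    induction e using Nat.strong_induction_on with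
    | _ e ih =>
    intro he X hX
    refine noeth hP e (fun V₀ hint hdim => ?_) X hX
    obtain ⟨m, hm⟩ := t_DST.2.1 k V₀ (genericPoint V₀.X)
    have hme : m ≤ e := by
      have := hdim (genericPoint V₀.X)
      rw [hm] at this
      exact_mod_cast this
    obtain ⟨U', V, Y, a, p, b, ha, hp, hb, ⟨u⟩, hY⟩ := hA V₀ m ⟨hint, hm⟩
    have ha' := (toOp a ha).isOpen
    have hY' : P Y := h Y m hY (hme.trans he)
    have hYi : IsIntegral Y.X := hY.2.1.1
    have hYd : Y.DimLE m := dimLE_of_idim hY.2.1
    have hUi : IsIntegral U'.X := by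
      have : Nonempty U'.X := ⟨u⟩
      exact isIntegral_of_isOpenImmersion (toOp a ha).g
    have hb' := (toOp b hb).isOpen
    have hV : P V := by
      rcases isEmpty_or_nonempty V.X with h0 | h0
      · exact hP.empty V h0
      rcases Nat.eq_zero_or_pos m with rfl | hpos
      · obtain ⟨Z, z, hc, hZ⟩ := QCV.exists_compl (d := 0) hYi
          (fun x => (hYd x).trans (by exact_mod_cast Nat.zero_le 1)) (toOp b hb) h0
        refine hP.cut z (toOp b hb) hc hY' (hP.empty Z ⟨fun x => ?_⟩)
        have h1 : z.g x ∉ Set.range b.g := by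
          have h2 : z.g x ∈ Set.range z.g := ⟨x, rfl⟩
          rw [hc] at h2
          exact h2
        by_cases h2 : genericPoint Y.X = z.g x
        · apply h1
          rw [← h2]
          obtain ⟨v⟩ := h0
          exact (genericPoint_specializes (b.g v)).mem_open
            (toOp b hb).g.isOpenEmbedding.isOpen_range ⟨v, rfl⟩
        · have h3 := t_DST.1 k Y _ _ (genericPoint_specializes (z.g x)) h2
          have h4 := hYd (genericPoint Y.X)
          rw [Nat.cast_zero] at h4
          exact absurd (lt_of_lt_of_le h3 h4) not_lt_zero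
      · obtain ⟨m', rfl⟩ : ∃ m', m = m' + 1 := ⟨m - 1, by omega⟩
        obtain ⟨Z, z, hc, hZ⟩ := QCV.exists_compl hYi hYd (toOp b hb) h0
        exact hP.cut z (toOp b hb) hc hY' (ih m' (by omega) (by omega) Z hZ)
    exact ⟨U', toOp a ha, ⟨u⟩, hP.etale (toEt p hp) hUi hV⟩
  exact key d le_rfl

end LFQ
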