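import Pool.Agent.LFQ.M_EACH

/-!
# LFQ: a system of quadratic forms in an even number of variables and its discriminant double cover
-/

set_option autoImplicit false

open CategoryTheory AlgebraicGeometry Limits Polynomial TopologicalSpace

namespace LFQ

open Pool.Agent.Lib_helper55.Beil Pool.Agent.Lib_helper66.OneP CUB
open QCV (Dr Bun Cls0 Cls Strat OddCl EvenCl TwClR DL ER mf QC dia fs gram gen
  lsub hyp lgen zer hyV ccone disV cubf ProjSub dl_field dimLE_of_DL t_EQI t_EH2 t_EE1 t_EDU t_EDS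
  t_QDS t_QDF t_QDP)

variable {k : Type} [Field k] {P : Var k → Prop}

lemma dr_congr {B : Type} [CommRing B] [Algebra k B] [Algebra.FiniteType k B] {c c' : B}
    (h : c = c') (hc : P (aff k (Dr B 0 c))) : P (aff k (Dr B 0 c')) := by
  subst h
  exact hc

lemma qc_congr {B : Type} [CommRing B] [Algebra k B] [Algebra.FiniteType k B] {a a' : Fin 4 → B}
    {c c' : B} (h : a = a') (h' : c = c') (hD : P (aff k (QC B a c))) :
    P (aff k (QC B a' c')) := by
  subst h
  subst h'
  exact hD

open QCV.EVI in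
/-- **EVR**: from a quadric cone in an even number of variables to the discriminant double cover. -/
theorem t_EVR (hC : Clo2 P) (h2 : (2 : k) ≠ 0) (A : Type) [CommRing A] [Algebra k A]
    [Algebra.FiniteType k A] (hA : P (aff k A)) (m : ℕ) :
    ∀ a : Fin (2 * (m + 1)) → A, (∀ j, IsUnit (a j)) →
      P (aff k (MvPolynomial (Fin (2 * (m + 1))) A ⧸ Ideal.span {dia a})) →
      P (aff k (Dr A 0 ((-1) ^ (m + 1 + 1) * ∏ j, a j))) := by
  have hTw := hC.twr h2
  have hl : ∀ (A : Type) [CommRing A] [Algebra k A] [Algebra.FiniteType k A],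
      P (aff k A) → P (aff k A[X]) := hC.line
  induction m with
  | zero =>
    intro a ha hc
    obtain ⟨z, u, hs⟩ := t_EE1 k A a ha
    have h3 := hC.cls0.opn _ z u hs hc
      (dpoint (P := fun A [CommRing A] [Algebra k A] [Algebra.FiniteType k A] => P (aff k A))
        hC.cls0 A hA)
    have h4 := t_GM2 k P hC.toClo _ h3
    have e : a 0 * a 1 = (-1 : A) ^ (0 + 1 + 1) * ∏ j, a j := by
      have h3 : ∏ j, a j = a 0 * a 1 := Fin.prod_univ_two a
      rw [h3]
      ring
    exact dr_congr e h4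
  | succ m ih =>
    intro a ha hc
    obtain ⟨v, hv⟩ := (ha 0).exists_right_inv
    -- the coefficients
    let b : Fin (2 * m + 4) → A := a
    have hb : ∀ j, IsUnit (b j) := ha
    change b 0 * v = 1 at hv
    let δ : A := - (b 1 * v)
    have hδu : IsUnit δ := ((hb 1).mul (IsUnit.of_mul_eq_one_right (b 0) hv)).neg
    have hδ : δ * b 0 = - b 1 := by
      change - (b 1 * v) * b 0 = - b 1
      linear_combination (- b 1) * hv
    let b' : Fin (2 * m + 4) → A := fun j =>
      if j.1 = 1 then - b 0 else if j.1 = 3 then δ * b 3 else b j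
    have h0' : b' 0 = b 0 := rfl
    have h1' : b' 1 = - b 0 := rfl
    have h2' : b' 2 = b 2 := rfl
    have h3' : b' 3 = δ * b 3 := rfl
    have h4' : ∀ j : Fin (2 * m), b' j.succ.succ.succ.succ = b j.succ.succ.succ.succ := by
      intro j
      change (if (j.1 + 1 + 1 + 1 + 1 : ℕ) = 1 then _ else if (j.1 + 1 + 1 + 1 + 1 : ℕ) = 3 then _
        else _) = _
      rw [if_neg (by omega), if_neg (by omega)]
    have hb' : ∀ j, IsUnit (b' j) := by
      intro j
      change IsUnit (if j.1 = 1 then - b 0 else if j.1 = 3 then δ * b 3 else b j)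
      split_ifs
      · exact (hb 0).neg
      · exact hδu.mul (hb 3)
      · exact hb j
    have hprod : ∏ j, b' j = ∏ j, b j := by
      rw [prod_four, prod_four, h0', h1', h2', h3']
      simp only [h4']
      linear_combination (- b 0 * b 2 * b 3 * ∏ j : Fin (2 * m), b j.succ.succ.succ.succ) * hδ
    -- the cone of `b'`
    obtain ⟨e1⟩ := t_EQI k A m a
    obtain ⟨e2⟩ := t_EQI k A m b'
    have hcone : P (aff k (MvPolynomial (Fin (2 * (m + 2))) A ⧸
        Ideal.span {dia (b' : Fin (2 * (m + 2)) → A)})) := by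
      refine hC.cls0.iso e2.symm ?_
      have h5 := hTw (MvPolynomial (Fin (2 * m)) A) _ _ (MvPolynomial.C δ) ?_ ?_ ?_
        (hC.cls0.iso e1 hc)
      · refine qc_congr ?_ ?_ h5
        · funext j
          fin_cases j
          · rfl
          · change - MvPolynomial.C (b 0) = MvPolynomial.C (- b 0)
            rw [map_neg]
          · rfl
          · change MvPolynomial.C δ * MvPolynomial.C (b 3) = MvPolynomial.C (δ * b 3)
            rw [map_mul]
        · congr 1
      · intro j
        exact (ha _).map MvPolynomial.C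
      · exact hδu.map MvPolynomial.C
      · change MvPolynomial.C δ * MvPolynomial.C (b 0) = - MvPolynomial.C (b 1)
        rw [← map_mul, hδ, map_neg]
    -- removal of the hyperbolic plane
    obtain ⟨s, z, u, hs⟩ := t_EH2 k A (2 * (m + 1)) b' h2 (hb' 0) rfl
    have hopen := punct (P := fun A [CommRing A] [Algebra k A] [Algebra.FiniteType k A] => P (aff k A))
      hC.cls0 hl (MvPolynomial (Fin (2 * (m + 1))) A) (hC.poly A hA _)
    have hZ : P (aff k (MvPolynomial (Fin (2 * (m + 1))) A ⧸
        Ideal.span {dia fun j : Fin (2 * (m + 1)) => b' j.succ.succ})[X]) :=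
      hC.clo3 (Z := (MvPolynomial (Fin (2 * (m + 1))) A ⧸
        Ideal.span {dia fun j : Fin (2 * (m + 1)) => b' j.succ.succ})[X]) s z u hs hcone hopen
    have hc2 := hC.unline (lineE (CC k _) (RingEquiv.refl _) (fun _ => rfl)) hZ
    have hih := ih (fun j => b' j.succ.succ) (fun j => hb' _) hc2
    obtain ⟨e⟩ := t_EDU k A ((-1) ^ (m + 1 + 1) * ∏ j : Fin (2 * (m + 1)), b' j.succ.succ) (b 0)
      (hb 0)
    refine dr_congr ?_ (hC.cls0.iso e hih)
    have h5 : ∏ j, a j = b' 0 * (b' 1 * ∏ j : Fin (2 * (m + 1)), b' j.succ.succ) :=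
      hprod.symm.trans (prod_two (2 * (m + 1)) b')
    rw [h5, h0', h1']
    ring

open QCV.QOD in
/-- **EOR**: from a quadratic form in an even number of variables over a domain to the discriminant
double cover. -/
theorem t_EOR (hC : Clo2 P) (h2 : (2 : k) ≠ 0) (d : ℕ)
    (hlow : ∀ X : Var k, X.DimLE d → P X) (B : Type) [CommRing B] [IsDomain B] [Algebra k B]
    [Algebra.FiniteType k B] (hD : DL k B (d + 1)) (hB : P (aff k B)) (m : ℕ)
    (f : MvPolynomial (Fin (2 * (m + 1))) B) (hf : f.IsHomogeneous 2)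
    (hdet0 : (gram f).det ≠ 0) (h : P (aff k (ER (fun _ : Fin 1 => f)))) :
    P (aff k (Dr B 0 ((-1) ^ (m + 1 + 1) * (gram f).det))) := by
  have hinj : Function.Injective (algebraMap k B) := (algebraMap k B).injective
  have h2B : (2 : B) ≠ 0 := by
    intro h
    apply h2
    apply hinj
    rw [map_zero, map_ofNat, h]
  obtain ⟨a, ha, Pm, w, hdet, hdiag, hw⟩ :=
    t_QDS t_QDF B (2 * (m + 1)) (gram f) h2B (gram_transpose f)
  have hrank : ((gram f).map (algebraMap B (FractionRing B))).rank = 2 * (m + 1) := by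
    rw [Matrix.rank_of_isUnit, Fintype.card_fin]
    rw [Matrix.isUnit_iff_isUnit_det, isUnit_iff_ne_zero]
    intro h
    apply hdet0
    apply IsFractionRing.injective B (FractionRing B)
    rw [map_zero, ← h, RingHom.map_det]
    rfl
  have hwu : ∀ j, IsUnit (w j) := fun j => (hw j).1 (by rw [hrank]; exact j.2)
  -- the strata of the base
  have hstrat : Strat (k := k) a (Ideal.Quotient.mkₐ k (Ideal.span {a})) (awayHom k a) := by
    refine ⟨Ideal.Quotient.mkₐ_surjective k _, ?_, isLocalization_awayHom a⟩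
    exact Ideal.Quotient.mkₐ_ker k (Ideal.span {a})
  have hDZ : DL k (B ⧸ Ideal.span {a}) d := QCV.Asm.s_DLR.2.2.2.2 k B d a ha hD
  have hU : P (aff k (Localization.Away a)) :=
    hC.cls0.opn _ _ _ hstrat hB (hlow _ (dimLE_of_DL hDZ))
  -- the open part of the cone
  obtain ⟨z', u', hs'⟩ := QCV.Asm.s_FAM.1 k B (B ⧸ Ideal.span {a}) (Localization.Away a) (Fin 1)
    (2 * (m + 1)) a _ _ (fun _ => f) hstrat
  have h3 := hC.cls0.opn _ z' u' hs' h (by
    refine hC.member hlow _ (QCV.member_of_built (QCV.built_quadrics (r := 1) (e := d) _ le_rfl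
      (by omega) (dimLE_of_DL hDZ) fun l => ?_))
    exact (hf.map _).totalDegree_le)
  have hf' : (MvPolynomial.map (algebraMap B (Localization.Away a)) f).IsHomogeneous 2 :=
    hf.map _
  have hdiag' : Pm.transpose *
      gram (MvPolynomial.map (algebraMap B (Localization.Away a)) f) * Pm =
      Matrix.diagonal w := by
    rw [gram_map]
    exact hdiag
  have htwo : (2 : Localization.Away a) * algebraMap k (Localization.Away a) 2⁻¹ = 1 := by
    rw [← map_ofNat (algebraMap k (Localization.Away a)) 2, ← map_mul, mul_inv_cancel₀ h2,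
      map_one]
  obtain ⟨e1⟩ := t_QDP k (Localization.Away a) (2 * (m + 1))
    (MvPolynomial.map (algebraMap B (Localization.Away a)) f) Pm w
    (fun j => algebraMap k (Localization.Away a) 2⁻¹ * w j) h2 hf' hdet hdiag' (fun j => by
      rw [← mul_assoc, htwo, one_mul])
  have hunit : IsUnit (algebraMap k (Localization.Away a) 2⁻¹) :=
    IsUnit.of_mul_eq_one_right _ htwo
  have e3 : Ideal.span {MvPolynomial.map (algebraMap B (Localization.Away a)) f} =
      Ideal.span (Set.range (mf (awayHom k a).toRingHom (fun _ : Fin 1 => f))) := by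
    congr 1
    ext x
    constructor
    · rintro rfl
      exact ⟨0, rfl⟩
    · rintro ⟨j, rfl⟩
      rfl
  have h4 := hC.cls0.iso e1 (hC.cls0.iso (Ideal.quotientEquivAlgOfEq k e3).symm h3)
  have h5 := t_EVR hC h2 (Localization.Away a) hU m
    (fun j => algebraMap k (Localization.Away a) 2⁻¹ * w j) (fun j => hunit.mul (hwu j)) h4
  have hdG : ((gram f).map (algebraMap B (Localization.Away a))).det =
      algebraMap B (Localization.Away a) (gram f).det := by
    rw [RingHom.map_det]
    rfl
  have hc : (-1 : Localization.Away a) ^ (m + 1 + 1) *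
      ∏ j, (algebraMap k (Localization.Away a) 2⁻¹ * w j) =
      (Pm.det * (algebraMap k (Localization.Away a) 2⁻¹) ^ (m + 1)) ^ 2 *
        awayHom k a ((-1) ^ (m + 1 + 1) * (gram f).det) := by
    rw [QCV.EOD.det_eq _ Pm w _ hdiag, hdG]
    congr 1
    change _ = algebraMap B (Localization.Away a) _
    rw [map_mul, map_pow, map_neg, map_one]
  obtain ⟨e2⟩ := t_EDU k (Localization.Away a)
    (awayHom k a ((-1) ^ (m + 1 + 1) * (gram f).det))
    (Pm.det * (algebraMap k (Localization.Away a) 2⁻¹) ^ (m + 1))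
    (hdet.mul (hunit.pow (m + 1)))
  have h6 := hC.cls0.iso e2.symm (dr_congr hc h5)
  -- gluing
  obtain ⟨zd, ud, hsd⟩ := t_EDS k B (B ⧸ Ideal.span {a}) (Localization.Away a) a _ _ hstrat 0
    ((-1) ^ (m + 1 + 1) * (gram f).det)
  refine hC.cls0.glue _ zd ud hsd ?_ ?_
  · exact hlow _ (dimLE_of_DL (QCV.Asm.s_DLR.2.2.1 k (B ⧸ Ideal.span {a}) _ d hDZ))
  · have e0 : awayHom k a 0 = 0 := map_zero _
    rw [e0]
    exact h6

/-- A system of `d + 2` quadratic forms in an even number of variables and its discriminant double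
cover. -/
theorem dis_iff (hC : Clo2 P) (h2 : (2 : k) ≠ 0) (d : ℕ)
    (hlow : ∀ X : Var k, X.DimLE d → P X) (n m : ℕ) (hn : n = 2 * m) (hm : 1 ≤ m)
    (f : Fin (d + 1 + 1) → MvPolynomial (Fin n) k) (hf : ∀ j, (f j).IsHomogeneous 2)
    (hd : (gram (gen f)).det ≠ 0) : P (zer f) ↔ P (disV m f) := by
  subst hn
  constructor
  · intro h
    obtain ⟨m, rfl⟩ : ∃ m', m = m' + 1 := ⟨m - 1, by omega⟩
    obtain ⟨e1⟩ := QCV.t_QSW k k (2 * (m + 1)) (d + 1) f
    have h6 := hC.cls0.iso e1 (fs_of_zer hC.toClo hlow f hf h)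
    exact t_EOR hC h2 d hlow (MvPolynomial (Fin (d + 1)) k)
      ((QCV.Asm.s_DLM k k 0 (d + 1) (dl_field k)).mono (by omega))
      (hC.poly k (base_field hlow) (d + 1)) m
      (gen f) (QCV.EVS.gen_homog f hf) hd h6
  · intro h
    refine hC.zeros _ (d + 1) f ?_
    exact QCV.Asm.s_EVS k (fun A [CommRing A] [Algebra k A] [Algebra.FiniteType k A] => P (aff k A))
      d h2 (hC.cls hlow) (hC.even h2) k m (d + 1) 0 f (Nat.zero_le d) le_rfl (dl_field k) hf
      hd h

/-- The same for the projective variety. -/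
theorem disP_iff (hC : Clo2 P) (h2 : (2 : k) ≠ 0) (d : ℕ)
    (hlow : ∀ X : Var k, X.DimLE d → P X) (n m : ℕ) (hn : n + 1 = 2 * m)
    (f : Fin (d + 1 + 1) → MvPolynomial (Fin (n + 1)) k) (hf : ∀ j, (f j).IsHomogeneous 2)
    (hd : (gram (gen f)).det ≠ 0) {X : Var k} (S : ProjSub f X) : P X ↔ P (disV m f) :=
  (proj_iff hC (base_field hlow) f (fun _ => 2) hf (fun _ => by norm_num) S).trans
    (dis_iff hC h2 d hlow (n + 1) m hn (by omega) f hf hd)

end LFQ
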