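import Pool.Agent.LFQ.M_CNE

/-!
# LFQ: each integral variety and the zero set of a system of quadratic forms
-/

set_option autoImplicit false

open CategoryTheory AlgebraicGeometry Limits Polynomial TopologicalSpace

namespace LFQ

open Pool.Agent.Lib_helper55.Beil Pool.Agent.Lib_helper66.OneP CUB
open QCV (Dr Bun Cls0 Cls Strat OddCl EvenCl TwClR DL ER fs gram gen lsub hyp lgen zer hyV ccone
  cubf cubf_homogeneous ProjSub dl_field dimLE_of_DL Three OddSystems EvenSystems DoubleCovers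
  AllSystems)

variable {k : Type} [Field k] {P : Var k → Prop}

/-- The base field. -/
lemma base_field {d : ℕ} (hlow : ∀ X : Var k, X.DimLE d → P X) : P (aff k k) :=
  hlow _ fun x => (dimLE_of_DL (dl_field k) x).trans (by exact_mod_cast Nat.zero_le d)

/-- At most `d + 1` quadratic equations. -/
lemma few (hC : Clo P) {d : ℕ} (hlow : ∀ X : Var k, X.DimLE d → P X) {N j : ℕ} (hj : j ≤ d + 1)
    (f : Fin j → MvPolynomial (Fin N) k) (hf : ∀ l, (f l).totalDegree ≤ 2) :
    P (aff k (MvPolynomial (Fin N) k ⧸ Ideal.span (Set.range f))) := by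
  rcases Nat.eq_zero_or_pos j with rfl | hj0
  · refine hC.cls0.iso (A := MvPolynomial (Fin N) k) ?_ (hC.poly k (base_field hlow) N)
    have h1 : Ideal.span (Set.range f) = ⊥ := by
      rw [Set.range_eq_empty, Ideal.span_empty]
    exact ((Ideal.quotientEquivAlgOfEq k h1).trans
      (AlgEquiv.quotientBot k (MvPolynomial (Fin N) k))).symm
  · exact hC.member hlow _ (QCV.member_of_built (QCV.built_quadrics (e := 0) f hj0 (by omega)
      (dimLE_of_DL (dl_field k)) hf))

/-- The set of the forms `f_1, ..., f_j`. -/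
lemma image_heads {α : Type*} {m : ℕ} (f : Fin (m + 1) → α) (j : ℕ) (hj : j ≤ m) :
    f '' {l : Fin (m + 1) | 1 ≤ l.1 ∧ l.1 ≤ j} =
      Set.range (fun l : Fin j => f ⟨l.1 + 1, by have := l.2; omega⟩) := by
  ext y
  constructor
  · rintro ⟨l, ⟨hl1, hl2⟩, rfl⟩
    refine ⟨⟨l.1 - 1, by omega⟩, congrArg f (Fin.ext ?_)⟩
    change l.1 - 1 + 1 = l.1
    omega
  · rintro ⟨l, rfl⟩
    refine ⟨_, ⟨?_, ?_⟩, rfl⟩
    · change 1 ≤ l.1 + 1
      omega
    · change l.1 + 1 ≤ j
      have := l.2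
      omega

/-- From the zero set to the generic member, for `d + 2` quadratic forms. -/
lemma fs_of_zer (hC : Clo P) {d : ℕ} (hlow : ∀ X : Var k, X.DimLE d → P X) {N : ℕ}
    (f : Fin (d + 1 + 1) → MvPolynomial (Fin N) k) (hf : ∀ j, (f j).IsHomogeneous 2)
    (h : P (zer f)) :
    P (aff k (MvPolynomial (Fin (d + 1)) (MvPolynomial (Fin N) k) ⧸ Ideal.span {fs f})) := by
  refine QCV.t_UST2 k (fun A [CommRing A] [Algebra k A] [Algebra.FiniteType k A] => P (aff k A))
    hC.cls0 hC.line (d + 1) (MvPolynomial (Fin N) k) f ?_ h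
  intro j hj
  refine hC.cls0.iso (Ideal.quotientEquivAlgOfEq k (congrArg Ideal.span (image_heads f j hj).symm)) ?_
  exact few hC hlow hj _ (fun l => (hf _).totalDegree_le)

/-- From the zero set to the generic member, for `d + 3` quadratic forms with odd rank at infinity. -/
lemma fs_of_zer2 (hC : Clo P) (h2 : (2 : k) ≠ 0) {d : ℕ} (hlow : ∀ X : Var k, X.DimLE d → P X) {N : ℕ}
    (f : Fin (d + 1 + 1 + 1) → MvPolynomial (Fin N) k) (hf : ∀ j, (f j).IsHomogeneous 2)
    (hodd : Odd ((gram (gen fun j : Fin (d + 1 + 1) => f j.succ)).map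
      (algebraMap (MvPolynomial (Fin (d + 1)) k)
        (FractionRing (MvPolynomial (Fin (d + 1)) k)))).rank)
    (h : P (zer f)) :
    P (aff k (MvPolynomial (Fin (d + 1 + 1)) (MvPolynomial (Fin N) k) ⧸ Ideal.span {fs f})) := by
  refine QCV.t_UST2 k (fun A [CommRing A] [Algebra k A] [Algebra.FiniteType k A] => P (aff k A))
    hC.cls0 hC.line (d + 1 + 1) (MvPolynomial (Fin N) k) f ?_ h
  intro j hj
  refine hC.cls0.iso (Ideal.quotientEquivAlgOfEq k (congrArg Ideal.span (image_heads f j hj).symm)) ?_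
  exact hC.member hlow _ (QCV.member_sub h2 d f hf hodd j hj)

/-- Each hypersurface `g = 0` and its system of quadratic forms. -/
theorem rep_iff (hC : Clo P) (h2 : (2 : k) ≠ 0) (d : ℕ)
    (hlow : ∀ X : Var k, X.DimLE d → P X) (g : MvPolynomial (Fin (d + 1 + 1)) k) {N : ℕ}
    (f : Fin (d + 1 + 1 + 1) → MvPolynomial (Fin N) k) (hr : RepC g f)
    (hodd : Odd ((gram (gen fun j : Fin (d + 1 + 1) => f j.succ)).map
      (algebraMap (MvPolynomial (Fin (d + 1)) k)
        (FractionRing (MvPolynomial (Fin (d + 1)) k)))).rank) :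
    P (hyV g) ↔ P (zer f) := by
  have hk := base_field hlow
  have hc := hC.cls hlow
  constructor
  · intro h
    refine hC.zeros _ (d + 1 + 1) f ?_
    refine QCV.vr_of_gen (fun A [CommRing A] [Algebra k A] [Algebra.FiniteType k A] => P (aff k A)) d
      h2 hc hC.odd f hr.quad hodd ?_
    exact hr.up (fun A [CommRing A] [Algebra k A] [Algebra.FiniteType k A] => P (aff k A))
      hc.toCls0 hc.line (fun m => hC.poly _ (hC.poly k hk _) m) (hC.poly k hk _) h
  · intro h
    obtain ⟨e1⟩ := QCV.t_QSW k k N (d + 1 + 1) f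
    exact hr.down P hC hk (hC.cls0.iso e1 (fs_of_zer2 hC h2 hlow f hr.quad hodd h))

/-- Each hypersurface `g = 0` and a smooth affine cubic hypersurface. -/
theorem vr_iff (hC : Clo P) (h2 : (2 : k) ≠ 0) (d : ℕ)
    (hlow : ∀ X : Var k, X.DimLE d → P X) (g : MvPolynomial (Fin (d + 1 + 1)) k) {N : ℕ}
    (f : Fin (d + 1 + 1 + 1) → MvPolynomial (Fin N) k) (hr : RepC g f)
    (hodd : Odd ((gram (gen fun j : Fin (d + 1 + 1) => f j.succ)).map
      (algebraMap (MvPolynomial (Fin (d + 1)) k)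
        (FractionRing (MvPolynomial (Fin (d + 1)) k)))).rank) :
    P (hyV g) ↔ P (aff k (VR (MvPolynomial (Fin N) k) f)) := by
  have hk := base_field hlow
  have hc := hC.cls hlow
  constructor
  · intro h
    refine QCV.vr_of_gen (fun A [CommRing A] [Algebra k A] [Algebra.FiniteType k A] => P (aff k A)) d
      h2 hc hC.odd f hr.quad hodd ?_
    exact hr.up (fun A [CommRing A] [Algebra k A] [Algebra.FiniteType k A] => P (aff k A))
      hc.toCls0 hc.line (fun m => hC.poly _ (hC.poly k hk _) m) (hC.poly k hk _) h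
  · exact fun h => (rep_iff hC h2 d hlow g f hr hodd).mpr (hC.zeros _ (d + 1 + 1) f h)

/-- Each hypersurface `g = 0` and a cubic hypersurface. -/
theorem ccone_iff (hC : Clo P) (h2 : (2 : k) ≠ 0) (d : ℕ)
    (hlow : ∀ X : Var k, X.DimLE d → P X) (g : MvPolynomial (Fin (d + 1 + 1)) k) {N : ℕ}
    (f : Fin (d + 1 + 1 + 1) → MvPolynomial (Fin N) k) (hr : RepC g f)
    (hodd : Odd ((gram (gen fun j : Fin (d + 1 + 1) => f j.succ)).map
      (algebraMap (MvPolynomial (Fin (d + 1)) k)
        (FractionRing (MvPolynomial (Fin (d + 1)) k)))).rank) :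
    P (hyV g) ↔ P (ccone f) := by
  have hk := base_field hlow
  have hc := hC.cls hlow
  constructor
  · intro h
    exact QCV.cls_ccone k (fun A [CommRing A] [Algebra k A] [Algebra.FiniteType k A] => P (aff k A))
      hc.toCls0 hc.line f (fun j hj => hC.member hlow _ (QCV.member_sub h2 d f hr.quad hodd j hj))
      ((rep_iff hC h2 d hlow g f hr hodd).mp h)
  · intro h
    obtain ⟨e⟩ := QCV.t_CBF k N (d + 1 + 1) f
    obtain ⟨e'⟩ := QCV.t_CBF k N (d + 1) (fun j : Fin (d + 1 + 1) => f j.succ)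
    obtain ⟨e1⟩ := QCV.t_QSW k k N (d + 1 + 1) f
    have htail : P (ccone fun j : Fin (d + 1 + 1) => f j.succ) :=
      QCV.cls_ccone k (fun A [CommRing A] [Algebra k A] [Algebra.FiniteType k A] => P (aff k A))
        hc.toCls0 hc.line (fun j : Fin (d + 1 + 1) => f j.succ)
        (fun j hj => few hC hlow hj _ (fun l => (hr.quad _).totalDegree_le))
        (hC.member hlow _ (QCV.member_tail h2 d f hr.quad hodd))
    exact hr.down P hC hk (hC.cls0.iso e1 (fs_of_lin hC f (hC.cls0.iso e' htail)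
      (hC.cls0.iso e h)))

/-! ## Integral varieties -/

/-- A nonempty open subvariety of an integral variety of dimension at most `d + 1`. -/
lemma open_iff (hC : Clo P) {d : ℕ} (hlow : ∀ X : Var k, X.DimLE d → P X) {X U : Var k}
    (hX : IsIntegral X.X) (hd : X.DimLE (d + 1 : ℕ)) (j : OpenIn U X) (hU : Nonempty U.X) :
    P X ↔ P U := by
  obtain ⟨Z, a, hc, hZ⟩ := QCV.exists_compl hX hd j hU
  exact ⟨fun h => hC.cut a j hc h (hlow Z hZ), fun h => hC.paste a j hc (hlow Z hZ) h⟩

lemma hyV_zero (hC : Clo P) {q : ℕ} (hk : P (aff k k)) : P (hyV (0 : MvPolynomial (Fin q) k)) := by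
  refine hC.cls0.iso (A := MvPolynomial (Fin q) k) ?_ (hC.poly k hk q)
  have h1 : Ideal.span {(0 : MvPolynomial (Fin q) k)} = ⊥ := by simp
  exact ((Ideal.quotientEquivAlgOfEq k h1).trans
    (AlgEquiv.quotientBot k (MvPolynomial (Fin q) k))).symm

lemma hyV_one (hC : Clo P) (q : ℕ) : P (hyV (1 : MvPolynomial (Fin q) k)) := by
  refine hC.cls0.triv _ ?_
  rw [Ideal.span_singleton_one]
  exact Ideal.Quotient.subsingleton_iff.mpr rfl

/-- The transcendence degree of a localisation. -/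
lemma trdeg_away {A : Type} [CommRing A] [IsDomain A] [Algebra k A] {a : A} (ha : a ≠ 0) :
    Algebra.trdeg k (Localization.Away a) = Algebra.trdeg k A := by
  have hle := powers_le_nonZeroDivisors_of_noZeroDivisors ha
  have : IsDomain (Localization.Away a) := IsLocalization.isDomain_localization hle
  have : FaithfulSMul A (Localization.Away a) :=
    (faithfulSMul_iff_algebraMap_injective _ _).mpr (IsLocalization.injective _ hle)
  have : Algebra.IsAlgebraic A (Localization.Away a) :=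
    IsLocalization.isAlgebraic _ (Submonoid.powers a)
  rw [← _root_.trdeg_add_eq k A (A := Localization.Away a), _root_.trdeg_eq_zero (R := A), add_zero]

/-- The hypersurface is not the affine space. -/
lemma g_ne_zero {A : Type} [CommRing A] [IsDomain A] [Algebra k A] {r : ℕ}
    (hr : Algebra.trdeg k A = r) {g : MvPolynomial (Fin (r + 1)) k} {a : A}
    {h : MvPolynomial (Fin (r + 1)) k ⧸ Ideal.span {g}}
    (hdom : IsDomain (MvPolynomial (Fin (r + 1)) k ⧸ Ideal.span {g})) (hh : h ≠ 0) (ha : a ≠ 0)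
    (e : Localization.Away h ≃ₐ[k] Localization.Away a) : g ≠ 0 := by
  rintro rfl
  have h1 := e.trdeg_eq
  rw [trdeg_away hh, trdeg_away ha, hr] at h1
  have h2 : Ideal.span {(0 : MvPolynomial (Fin (r + 1)) k)} = ⊥ := by simp
  have h3 := ((Ideal.quotientEquivAlgOfEq k h2).trans
    (AlgEquiv.quotientBot k (MvPolynomial (Fin (r + 1)) k))).trdeg_eq
  rw [h3, MvPolynomial.trdeg_of_isDomain] at h1
  simp only [Cardinal.mk_fintype, Fintype.card_fin, Cardinal.lift_natCast] at h1
  have h4 : r + 1 = r := by exact_mod_cast h1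
  omega

/-- Each integral variety of dimension at most `d + 1` and a hypersurface. -/
theorem exists_hyp [PerfectField k] {d : ℕ} (X : Var k) (hX : IsIntegral X.X)
    (hd : X.DimLE (d + 1 : ℕ)) :
    ∃ g : MvPolynomial (Fin (d + 1 + 1)) k, g ≠ 0 ∧
      ∀ P : Var k → Prop, Clo P → (∀ Y : Var k, Y.DimLE d → P Y) → (P X ↔ P (hyV g)) := by
  obtain ⟨A, i1, i2, i3, i4, j, hj⟩ := QCV.t_UAF k X
  have hgd : Algebra.trdeg k A ≤ ((d + 1 : ℕ) : Cardinal) := by
    rw [← dim_generic_aff, hj]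
    exact hd _
  obtain ⟨r, hr2, hr⟩ := Cardinal.exists_nat_eq_of_le_nat hgd
  rcases Nat.lt_or_ge d r with h1 | h1
  · obtain rfl : r = d + 1 := by omega
    obtain ⟨g, a, h, hdom, hh, ha, ⟨e⟩⟩ := QCV.t_UHB k A (d + 1) hr
    have hnA : Nonempty (aff k A).X := ⟨genericPoint _⟩
    have hdA : (aff k A).DimLE (d + 1 : ℕ) := QCV.dimLE_open j hd
    have hg : g ≠ 0 := g_ne_zero hr hdom hh ha e
    refine ⟨g, hg, ?_⟩
    intro P hC hlow
    rw [open_iff hC hlow hX hd j hnA,
      open_iff hC hlow QCV.isIntegral_aff hdA (opn (awayHom k a) (isOpenImmersion_away a))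
        (QCV.nonempty_away ha),
      open_iff hC hlow (QCV.isIntegral_aff (k := k)
        (A := MvPolynomial (Fin (d + 1 + 1)) k ⧸ Ideal.span {g})) (QCV.dimLE_hyV hg)
        (opn (awayHom k h) (isOpenImmersion_away h)) (QCV.nonempty_away hh)]
    exact ⟨hC.iso (viso e), hC.iso (viso e.symm)⟩
  · refine ⟨1, one_ne_zero, ?_⟩
    intro P hC hlow
    refine ⟨fun _ => hyV_one hC _, fun _ => hlow _ fun x => ?_⟩
    refine (dim_le_of_specializes X (genericPoint_specializes x)).trans ?_
    rw [← hj, dim_generic_aff, hr]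
    exact_mod_cast h1

/-- Each integral variety `X` of dimension at most `d + 1`, the zero sets of `d + 3` quadratic forms
in an odd number of variables, and cubic hypersurfaces. -/
theorem each [PerfectField k] (h2 : (2 : k) ≠ 0) {d : ℕ} (X : Var k) (hX : IsIntegral X.X)
    (hd : X.DimLE (d + 1 : ℕ)) :
    ∃ (n : ℕ) (f : Fin (d + 1 + 1 + 1) → MvPolynomial (Fin (n + 1)) k), Odd (n + 1) ∧
      (∀ j, (f j).IsHomogeneous 2) ∧ (gram (gen f)).det ≠ 0 ∧
      ∀ P : Var k → Prop, Clo2 P → (∀ Y : Var k, Y.DimLE d → P Y) →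
        Three (fun Y => P X ↔ P Y) f ∧
          (P X ↔ P (aff k (VR (MvPolynomial (Fin (n + 1)) k) f))) := by
  obtain ⟨g, hg, hgX⟩ := exists_hyp X hX hd
  obtain ⟨N, f, hr, hodd⟩ := exists_rep h2 g hg
  obtain ⟨n, rfl⟩ : ∃ n, N = n + 1 := by
    obtain ⟨s, hs⟩ := hr.odd
    exact ⟨2 * s, hs⟩
  refine ⟨n, f, hr.odd, hr.quad, hr.det, ?_⟩
  intro P hC hlow
  have hk := base_field hlow
  have h3 : P X ↔ P (zer f) :=
    (hgX P hC.toClo hlow).trans (rep_iff hC.toClo h2 d hlow g f hr hodd)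
  have h4 : P X ↔ P (ccone f) :=
    (hgX P hC.toClo hlow).trans (ccone_iff hC.toClo h2 d hlow g f hr hodd)
  exact ⟨⟨h3, fun Y S => h3.trans (proj_iff hC hk f (fun _ => 2) hr.quad (fun _ => by norm_num)
      S).symm, h4, fun Y S => h4.trans (proj_iff hC hk (fun _ : Fin 1 => cubf f) (fun _ => 3)
      (fun _ => cubf_homogeneous f hr.quad) (fun _ => by norm_num) S).symm⟩,
    (hgX P hC.toClo hlow).trans (vr_iff hC.toClo h2 d hlow g f hr hodd)⟩

end LFQ
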