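import Pool.Agent.LFQ.St
import Pool.Agent.QCV.U_FIN
import Pool.Agent.QCV.Fin9

/-!
# LFQ, modules HYP2, DBC2: one hypersurface, one double cover
-/

set_option autoImplicit false

open CategoryTheory AlgebraicGeometry Limits Polynomial TopologicalSpace

namespace LFQ

open Pool.Agent.Lib_helper55.Beil Pool.Agent.Lib_helper66.OneP CUB
open QCV (Dr Bun Cls0 Cls Strat OddCl EvenCl DL ER HR fs gram gen lgram lsub hyp lgen OddGen OddSystems
  EvenSystems DoubleCovers built_quadrics built_odd member_of_built dimLE_of_DL dl_field Built zer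
  t_QSW t_UGM t_UDT t_USB t_UGA)

variable {k : Type} [Field k]

namespace HYP

/-- The complement of `D(a)`, with any closed subscheme structure. -/
theorem complementary_rad {A B Z : Type} [CommRing A] [Algebra k A] [Algebra.FiniteType k A]
    [CommRing B] [Algebra k B] [Algebra.FiniteType k B] [CommRing Z] [Algebra k Z]
    [Algebra.FiniteType k Z] (φ : A →ₐ[k] B) (a : A)
    (h : @IsLocalization.Away A _ a B _ φ.toRingHom.toAlgebra)
    (ψ : A →ₐ[k] Z) (hψ : Function.Surjective ψ)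
    (hk : ∀ p : PrimeSpectrum A, RingHom.ker ψ.toRingHom ≤ p.asIdeal ↔ a ∈ p.asIdeal) :
    Complementary (clo ψ hψ) (opn φ (isOpenImmersion_spm φ a h)) := by
  have h1 : Set.range (clo ψ hψ).g =
      (Set.range (PrimeSpectrum.comap ψ.toRingHom) : Set (PrimeSpectrum A)) := rfl
  have h2 : Set.range (opn φ (isOpenImmersion_spm φ a h)).g =
      (Set.range (PrimeSpectrum.comap φ.toRingHom) : Set (PrimeSpectrum A)) := rfl
  have h3 : (Set.range (PrimeSpectrum.comap ψ.toRingHom) : Set (PrimeSpectrum A)) =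
      (Set.range (PrimeSpectrum.comap φ.toRingHom))ᶜ := by
    rw [range_spm_surj ψ hψ, range_spm_away φ a h]
    ext p
    simp only [Set.mem_ofPred_eq, Set.mem_compl_iff, not_not]
    exact hk p
  unfold Complementary
  rw [h1, h2]
  exact h3

/-- The zero section of a cone. -/
noncomputable def zs (k : Type) [Field k] {B : Type} [CommRing B] [Algebra k B] {n : ℕ}
    (φ : MvPolynomial (Fin n) B) (h : MvPolynomial.constantCoeff φ = 0) :
    ER (fun _ : Fin 1 => φ) →ₐ[k] B :=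
  Ideal.Quotient.liftₐ _
    ((MvPolynomial.aeval (fun _ => (0 : B)) : MvPolynomial (Fin n) B →ₐ[B] B).restrictScalars k)
    (by
      intro a ha
      have h1 : Ideal.span (Set.range fun _ : Fin 1 => φ) ≤ RingHom.ker
          (MvPolynomial.aeval (fun _ => (0 : B)) : MvPolynomial (Fin n) B →ₐ[B] B) := by
        rw [Ideal.span_le]
        rintro _ ⟨_, rfl⟩
        change MvPolynomial.aeval (fun _ => (0 : B)) φ = 0
        have h2 := MvPolynomial.aeval_zero (S₁ := B) φ
        rw [h, map_zero] at h2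
        exact h2
      exact h1 ha)

lemma zs_mk {B : Type} [CommRing B] [Algebra k B] {n : ℕ}
    (φ : MvPolynomial (Fin n) B) (h : MvPolynomial.constantCoeff φ = 0) (F : MvPolynomial (Fin n) B) :
    zs k φ h (Ideal.Quotient.mk _ F) = MvPolynomial.constantCoeff F :=
  MvPolynomial.aeval_zero (S₁ := B) F

lemma zs_surj {B : Type} [CommRing B] [Algebra k B] {n : ℕ}
    (φ : MvPolynomial (Fin n) B) (h : MvPolynomial.constantCoeff φ = 0) :
    Function.Surjective (zs k φ h) := fun b => ⟨Ideal.Quotient.mk _ (MvPolynomial.C b), by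
  rw [zs_mk, MvPolynomial.constantCoeff_C]⟩

lemma zs_ker {B : Type} [CommRing B] [Algebra k B] {n : ℕ}
    (φ : MvPolynomial (Fin n) B) (h : MvPolynomial.constantCoeff φ = 0)
    (p : PrimeSpectrum (ER (fun _ : Fin 1 => φ)))
    (hp : ∀ i, (Ideal.Quotient.mk _ (MvPolynomial.X i) : ER (fun _ : Fin 1 => φ)) ∈ p.asIdeal) :
    RingHom.ker (zs k φ h).toRingHom ≤ p.asIdeal := by
  intro x hx
  obtain ⟨F, rfl⟩ := Ideal.Quotient.mk_surjective x
  have h1 : MvPolynomial.constantCoeff F = 0 := by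
    rw [← zs_mk (k := k) φ h]
    exact hx
  have h2 : F ∈ Ideal.span (MvPolynomial.X '' (Set.univ : Set (Fin n)) :
      Set (MvPolynomial (Fin n) B)) := by
    rw [MvPolynomial.mem_ideal_span_X_image]
    intro m hm
    by_contra hcon
    push Not at hcon
    have h3 : m = 0 := Finsupp.ext fun i => hcon i (Set.mem_univ i)
    rw [MvPolynomial.mem_support_iff, h3] at hm
    exact hm h1
  have h3 : Ideal.span (MvPolynomial.X '' (Set.univ : Set (Fin n)) :
      Set (MvPolynomial (Fin n) B)) ≤ p.asIdeal.comap (Ideal.Quotient.mk _) := by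
    rw [Ideal.span_le]
    rintro _ ⟨i, -, rfl⟩
    exact hp i
  exact h3 h2

/-- An open part of a cone. -/
lemma opnCone {P : Var k → Prop} (hC : Clo P) {B U : Type} [CommRing B] [Algebra k B]
    [Algebra.FiniteType k B] [CommRing U] [Algebra k U] [Algebra.FiniteType k U] {n : ℕ}
    (φ : MvPolynomial (Fin n) B) (h : MvPolynomial.constantCoeff φ = 0) (i₀ : Fin n)
    (u : ER (fun _ : Fin 1 => φ) →ₐ[k] U)
    (hu : @IsLocalization.Away _ _ (Ideal.Quotient.mk _ (MvPolynomial.X i₀)) _ _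
      u.toRingHom.toAlgebra)
    (hp : ∀ p : PrimeSpectrum (ER (fun _ : Fin 1 => φ)),
      (Ideal.Quotient.mk _ (MvPolynomial.X i₀) : ER (fun _ : Fin 1 => φ)) ∈ p.asIdeal →
      ∀ i, (Ideal.Quotient.mk _ (MvPolynomial.X i) : ER (fun _ : Fin 1 => φ)) ∈ p.asIdeal)
    (hB : P (aff k B)) (hA : P (aff k (ER (fun _ : Fin 1 => φ)))) : P (aff k U) := by
  refine hC.cut _ _ (complementary_rad u _ hu (zs k φ h) (zs_surj φ h) fun p => ?_) hA hB
  constructor
  · intro h1
    apply h1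
    change zs k φ h _ = 0
    rw [zs_mk, MvPolynomial.constantCoeff_X]
  · intro h1
    exact zs_ker φ h p (hp p h1)

/-- The heads of a system. -/
lemma heads {P : Var k → Prop} (hC : Clo P) (d : ℕ) (hlow : ∀ X : Var k, X.DimLE d → P X)
    {n m : ℕ} (f : Fin (m + 1) → MvPolynomial (Fin n) k) (hf : ∀ j, (f j).IsHomogeneous 2) (j : ℕ)
    (hjm : j ≤ m) (hj : j ≤ d + 1) :
    P (aff k (MvPolynomial (Fin n) k ⧸ Ideal.span (f '' {l : Fin (m + 1) | 1 ≤ l.1 ∧ l.1 ≤ j}))) := by
  have h6 : f '' {l : Fin (m + 1) | 1 ≤ l.1 ∧ l.1 ≤ j} =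
      Set.range (fun l : Fin j => f ⟨l.1 + 1, by omega⟩) := by
    ext y
    constructor
    · rintro ⟨l, ⟨hl1, hl2⟩, rfl⟩
      refine ⟨⟨l.1 - 1, by omega⟩, congrArg f (Fin.ext ?_)⟩
      change l.1 - 1 + 1 = l.1
      omega
    · rintro ⟨l, rfl⟩
      refine ⟨_, ⟨?_, ?_⟩, rfl⟩
      · change 1 ≤ l.1 + 1
        omega
      · change l.1 + 1 ≤ j
        have := l.2
        omega
  refine hC.cls0.iso (Ideal.quotientEquivAlgOfEq k (congrArg Ideal.span h6.symm)) ?_
  rcases Nat.eq_zero_or_pos j with rfl | hj0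
  · refine hC.cls0.iso (A := MvPolynomial (Fin n) k) ?_ (hC.poly k (hlow _ ?_) n)
    · have h1 : Ideal.span (Set.range (fun l : Fin 0 =>
          f ⟨l.1 + 1, by have := l.2; omega⟩)) = ⊥ := by
        rw [Set.range_eq_empty, Ideal.span_empty]
      exact ((Ideal.quotientEquivAlgOfEq k h1).trans
        (AlgEquiv.quotientBot k (MvPolynomial (Fin n) k))).symm
    · exact fun x => (dimLE_of_DL (dl_field k) x).trans (by exact_mod_cast Nat.zero_le d)
  · refine hC.member hlow _ (member_of_built ?_)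
    exact built_quadrics (e := 0) _ hj0 (by omega)
      (dimLE_of_DL (dl_field k)) (fun l => (hf _).totalDegree_le)

lemma const_of_hom {B : Type} [CommRing B] {n : ℕ} {φ : MvPolynomial (Fin n) B}
    (h : φ.IsHomogeneous 2) : MvPolynomial.constantCoeff φ = 0 := by
  by_contra hcon
  have h1 : φ.coeff 0 ≠ 0 := hcon
  have h2 := h h1
  simp at h2

/-- Nilpotent thickenings. -/
lemma unnil {P : Var k → Prop} (hC : Clo P) {A Z : Type} [CommRing A] [Algebra k A]
    [Algebra.FiniteType k A] [CommRing Z] [Algebra k Z] [Algebra.FiniteType k Z] (z : A →ₐ[k] Z)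
    (hz : Function.Surjective z) (hk : ∀ p : PrimeSpectrum A, RingHom.ker z.toRingHom ≤ p.asIdeal)
    (h : P (aff k Z)) : P (aff k A) := by
  have hs : Function.Surjective (clo z hz).g := by
    intro x
    have h1 : (x : PrimeSpectrum A) ∈ Set.range (PrimeSpectrum.comap z.toRingHom) := by
      rw [range_spm_surj z hz]
      exact hk _
    obtain ⟨y, hy⟩ := h1
    exact ⟨y, hy⟩
  exact hC.paste (clo z hz) (openVarIn (aff k A) ⊥) (QCV.complementary_surj (clo z hz) hs) h
    (hC.empty _ (isEmpty_openVar_bot (aff k A)))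

/-- The double cover `t ^ 2 = 0`. -/
lemma drZero {P : Var k → Prop} (hC : Clo P) {B : Type} [CommRing B] [Algebra k B]
    [Algebra.FiniteType k B] (h : P (aff k B)) : P (aff k (Dr B 0 (-0))) := by
  have he : (QCV.dpoly (0 : B) (-0)).eval₂ (RingHom.id B) 0 = 0 := by
    simp [QCV.dpoly]
  let z : Dr B 0 (-0) →ₐ[k] B :=
    { AdjoinRoot.lift (RingHom.id B) 0 he with
      commutes' := fun r => by
        change AdjoinRoot.lift (RingHom.id B) 0 he (algebraMap k (Dr B 0 (-0)) r) = _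
        rw [IsScalarTower.algebraMap_apply k B (Dr B 0 (-0))]
        exact AdjoinRoot.lift_of he }
  have hz : ∀ F : B[X], z (AdjoinRoot.mk _ F) = F.coeff 0 := by
    intro F
    have h1 : z (AdjoinRoot.mk _ F) = F.eval₂ (RingHom.id B) 0 := AdjoinRoot.lift_mk he F
    rw [h1, Polynomial.coeff_zero_eq_eval_zero]
    rfl
  refine unnil hC z (fun b => ⟨AdjoinRoot.mk _ (C b), by rw [hz, coeff_C_zero]⟩) ?_ h
  intro p x hx
  obtain ⟨F, rfl⟩ := AdjoinRoot.mk_surjective x
  have h1 : F.coeff 0 = 0 := by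
    rw [← hz]
    exact hx
  have h2 : (AdjoinRoot.mk (QCV.dpoly (0 : B) (-0)) X) ∈ p.asIdeal := by
    apply p.isPrime.mem_of_pow_mem 2
    have h3 : (AdjoinRoot.mk (QCV.dpoly (0 : B) (-0)) X) ^ 2 = 0 := by
      rw [← map_pow]
      have h4 : (X ^ 2 : B[X]) = QCV.dpoly (0 : B) (-0) := by simp [QCV.dpoly]
      rw [h4, AdjoinRoot.mk_self]
    rw [h3]
    exact Ideal.zero_mem _
  rw [← Polynomial.divX_mul_X_add F, h1, C_0, add_zero, map_mul]
  exact Ideal.mul_mem_left _ _ h2

end HYP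

open HYP in
theorem t_HYP2 : M_HYP2 := by
  intro hPAR hUST hUHY hGM k _ P hC h2 d hlow ho g
  have hk : P (aff k k) :=
    hlow _ fun x => (dimLE_of_DL (dl_field k) x).trans (by exact_mod_cast Nat.zero_le d)
  have hpoly : P (aff k (MvPolynomial (Fin (d + 2)) k)) := hC.poly k hk (d + 2)
  have h2B : (2 : MvPolynomial (Fin (d + 2)) k) ≠ 0 := by
    intro h
    apply h2
    have h3 : MvPolynomial.C (2 : k) = (0 : MvPolynomial (Fin (d + 2)) k) := by
      rw [← h]
      exact map_ofNat _ 2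
    exact MvPolynomial.C_eq_zero.mp h3
  by_cases hg : g = 0
  · subst hg
    refine hC.cls0.iso (A := MvPolynomial (Fin (d + 2)) k) ?_ hpoly
    have h1 : Ideal.span {(0 : MvPolynomial (Fin (d + 2)) k)} = ⊥ := by simp
    exact ((Ideal.quotientEquivAlgOfEq k h1).trans
      (AlgEquiv.quotientBot k (MvPolynomial (Fin (d + 2)) k))).symm
  have hφ : (MvPolynomial.C g * MvPolynomial.X 0 ^ 2 :
      MvPolynomial (Fin 1) (MvPolynomial (Fin (d + 2)) k)).IsHomogeneous 2 :=
    MvPolynomial.isHomogeneous_C_mul_X_pow g 0 2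
  obtain ⟨s, f, M, hf, hMu, heq, hodd⟩ := hPAR k (d + 1) 1
    (MvPolynomial.C g * MvPolynomial.X 0 ^ 2) h2 hφ
  have hdet : (gram (gen f)).det ≠ 0 := by
    have h3 : gram (gen f) = lgram (lsub M (hyp (MvPolynomial.C g * MvPolynomial.X 0 ^ 2 :
        MvPolynomial (Fin 1) (MvPolynomial (Fin (d + 2)) k)) s)) := by
      rw [heq]
      rfl
    have h4 := t_UGM _ (1 + 2 * s) (hyp (MvPolynomial.C g * MvPolynomial.X 0 ^ 2 :
        MvPolynomial (Fin 1) (MvPolynomial (Fin (d + 2)) k)) s) M ?_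
    · rw [h3, h4, Matrix.det_mul, Matrix.det_mul, Matrix.det_transpose]
      exact mul_ne_zero (mul_ne_zero hMu.ne_zero (t_UDT _ g s h2B hg)) hMu.ne_zero
    · refine MvPolynomial.IsHomogeneous.add ?_ ?_
      · exact hφ.rename_isHomogeneous
      · refine MvPolynomial.IsHomogeneous.sum _ _ _ fun i _ => ?_
        exact (MvPolynomial.isHomogeneous_X _ _).mul (MvPolynomial.isHomogeneous_X _ _)
  have h5 : P (aff k (MvPolynomial (Fin (d + 2)) (MvPolynomial (Fin (1 + 2 * s)) k) ⧸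
      Ideal.span {fs f})) := by
    refine hUST k (fun A [CommRing A] [Algebra k A] [Algebra.FiniteType k A] => P (aff k A))
      hC.cls0 hC.line (d + 2) (MvPolynomial (Fin (1 + 2 * s)) k) f ?_
      (ho (1 + 2 * s) f ⟨s, by ring⟩ hf hdet)
    intro j hj
    rcases Nat.lt_or_ge j (d + 2) with hj1 | hj1
    · exact heads hC d hlow f hf j hj (by omega)
    obtain rfl : j = d + 2 := by omega
    have h6 : f '' {l : Fin (d + 2 + 1) | 1 ≤ l.1 ∧ l.1 ≤ d + 2} =
        Set.range (fun l : Fin (d + 2) => f l.succ) := by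
      ext y
      constructor
      · rintro ⟨l, ⟨hl1, hl2⟩, rfl⟩
        refine ⟨⟨l.1 - 1, by omega⟩, congrArg f (Fin.ext ?_)⟩
        change l.1 - 1 + 1 = l.1
        omega
      · rintro ⟨l, rfl⟩
        refine ⟨_, ⟨?_, ?_⟩, rfl⟩
        · change 1 ≤ l.1 + 1
          omega
        · change l.1 + 1 ≤ d + 2
          have := l.2
          omega
    refine hC.cls0.iso (Ideal.quotientEquivAlgOfEq k (congrArg Ideal.span h6.symm)) ?_
    refine hC.member hlow _ (member_of_built ?_)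
    exact built_odd h2 (Nat.zero_le d) (by omega) (dimLE_of_DL (dl_field k))
      (fun l : Fin (d + 1 + 1) => f l.succ) (fun l => hf _) hodd
  obtain ⟨e1⟩ := t_QSW k k (1 + 2 * s) (d + 2) f
  have h6 := hC.cls0.iso e1 h5
  obtain ⟨e2⟩ := t_USB k (MvPolynomial (Fin (d + 2)) k) (1 + 2 * s)
    (hyp (MvPolynomial.C g * MvPolynomial.X 0 ^ 2) s) M hMu
  rw [heq] at e2
  have h7 := hC.cls0.iso e2 h6
  have h8 := hUHY k P hC (MvPolynomial (Fin (d + 2)) k) 1 s
    (MvPolynomial.C g * MvPolynomial.X 0 ^ 2) hpoly h7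
  obtain ⟨u, hu⟩ := t_UGA k (MvPolynomial (Fin (d + 2)) k) g
  have h9 := opnCone hC (MvPolynomial.C g * MvPolynomial.X 0 ^ 2) (const_of_hom hφ) 0 u hu
    (fun p hp i => by
      rw [Fin.eq_zero i]
      exact hp) hpoly h8
  exact hGM k P hC _ h9

open HYP in
theorem t_DBC2 : M_DBC2 := by
  intro hUST hUHY hGM k _ P hC h2 d hlow ho g
  have hk : P (aff k k) :=
    hlow _ fun x => (dimLE_of_DL (dl_field k) x).trans (by exact_mod_cast Nat.zero_le d)
  have hpoly : P (aff k (MvPolynomial (Fin (d + 1)) k)) := hC.poly k hk (d + 1)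
  have h2B : (2 : MvPolynomial (Fin (d + 1)) k) ≠ 0 := by
    intro h
    apply h2
    have h3 : MvPolynomial.C (2 : k) = (0 : MvPolynomial (Fin (d + 1)) k) := by
      rw [← h]
      exact map_ofNat _ 2
    exact MvPolynomial.C_eq_zero.mp h3
  by_cases hg : g = 0
  · subst hg
    exact drZero hC hpoly
  have hφ : (MvPolynomial.X 0 ^ 2 - MvPolynomial.C g * MvPolynomial.X 1 ^ 2 :
      MvPolynomial (Fin 2) (MvPolynomial (Fin (d + 1)) k)).IsHomogeneous 2 :=
    (MvPolynomial.isHomogeneous_X_pow 0 2).sub (MvPolynomial.isHomogeneous_C_mul_X_pow g 1 2)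
  obtain ⟨s, f, M, hf, hMu, heq⟩ := QCV.Asm.s_ULZ k (d + 1) 2
    (MvPolynomial.X 0 ^ 2 - MvPolynomial.C g * MvPolynomial.X 1 ^ 2) hφ
  have hdet : (gram (gen f)).det ≠ 0 := by
    have h3 : gram (gen f) = lgram (lsub M (hyp (MvPolynomial.X 0 ^ 2 -
        MvPolynomial.C g * MvPolynomial.X 1 ^ 2 :
        MvPolynomial (Fin 2) (MvPolynomial (Fin (d + 1)) k)) s)) := by
      rw [heq]
      rfl
    have h4 := t_UGM _ (2 + 2 * s) (hyp (MvPolynomial.X 0 ^ 2 -
        MvPolynomial.C g * MvPolynomial.X 1 ^ 2 :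
        MvPolynomial (Fin 2) (MvPolynomial (Fin (d + 1)) k)) s) M ?_
    · rw [h3, h4, Matrix.det_mul, Matrix.det_mul, Matrix.det_transpose]
      exact mul_ne_zero (mul_ne_zero hMu.ne_zero (QCV.t_UD2 _ g s h2B hg)) hMu.ne_zero
    · refine MvPolynomial.IsHomogeneous.add ?_ ?_
      · exact hφ.rename_isHomogeneous
      · refine MvPolynomial.IsHomogeneous.sum _ _ _ fun i _ => ?_
        exact (MvPolynomial.isHomogeneous_X _ _).mul (MvPolynomial.isHomogeneous_X _ _)
  have h5 : P (aff k (MvPolynomial (Fin (d + 1)) (MvPolynomial (Fin (2 + 2 * s)) k) ⧸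
      Ideal.span {fs f})) := by
    refine hUST k (fun A [CommRing A] [Algebra k A] [Algebra.FiniteType k A] => P (aff k A))
      hC.cls0 hC.line (d + 1) (MvPolynomial (Fin (2 + 2 * s)) k) f ?_
      (ho (2 + 2 * s) f ⟨1 + s, by ring⟩ hf hdet)
    intro j hj
    exact heads hC d hlow f hf j hj hj
  obtain ⟨e1⟩ := t_QSW k k (2 + 2 * s) (d + 1) f
  have h6 := hC.cls0.iso e1 h5
  obtain ⟨e2⟩ := t_USB k (MvPolynomial (Fin (d + 1)) k) (2 + 2 * s)
    (hyp (MvPolynomial.X 0 ^ 2 - MvPolynomial.C g * MvPolynomial.X 1 ^ 2) s) M hMu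
  rw [heq] at e2
  have h7 := hC.cls0.iso e2 h6
  have h8 := hUHY k P hC (MvPolynomial (Fin (d + 1)) k) 2 s
    (MvPolynomial.X 0 ^ 2 - MvPolynomial.C g * MvPolynomial.X 1 ^ 2) hpoly h7
  obtain ⟨u, hu⟩ := QCV.t_UG2 k (MvPolynomial (Fin (d + 1)) k) g
  have h9 := opnCone hC _ (const_of_hom hφ) 1 u hu
    (fun p hp i => by
      have h1 : (Ideal.Quotient.mk _ (MvPolynomial.X 0) : ER (fun _ : Fin 1 =>
          (MvPolynomial.X 0 ^ 2 - MvPolynomial.C g * MvPolynomial.X 1 ^ 2 :
          MvPolynomial (Fin 2) (MvPolynomial (Fin (d + 1)) k)))) ∈ p.asIdeal := by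
        apply p.isPrime.mem_of_pow_mem 2
        rw [← map_pow]
        have h2 : (Ideal.Quotient.mk _ (MvPolynomial.X 0 ^ 2) : ER (fun _ : Fin 1 =>
            (MvPolynomial.X 0 ^ 2 - MvPolynomial.C g * MvPolynomial.X 1 ^ 2 :
            MvPolynomial (Fin 2) (MvPolynomial (Fin (d + 1)) k)))) =
            Ideal.Quotient.mk _ (MvPolynomial.C g * MvPolynomial.X 1 ^ 2) := by
          rw [← sub_eq_zero, ← map_sub, Ideal.Quotient.eq_zero_iff_mem]
          exact Ideal.subset_span ⟨0, rfl⟩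
        rw [h2, map_mul, map_pow]
        exact Ideal.mul_mem_left _ _ (Ideal.pow_mem_of_mem _ hp 2 (by norm_num))
      fin_cases i
      · exact h1
      · exact hp) hpoly h8
  exact hGM k P hC _ h9

end LFQ
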