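import Pool.Agent.LFQ.St
import Pool.Agent.QCV.U_FIN
import Pool.Agent.QCV.H_ZPT

/-!
# LFQ: module PAR (parity of the rank of the parameter part)
-/

set_option autoImplicit false

namespace LFQ

namespace PAR

open QCV (gram gen lsub hyp lgen OddGen genHom)
open QCV.BLK QCV.ZPT QCV.ULC

/-- One more plane at the end. -/
theorem hyp_succ_last {B : Type} [CommRing B] {n : ℕ} (φ : MvPolynomial (Fin n) B) (s : ℕ)
    (h : n + 2 * s + 2 * 1 = n + 2 * (s + 1)) :
    MvPolynomial.rename (finCongr h) (hyp (hyp φ s) 1) = hyp φ (s + 1) := by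
  unfold QCV.hyp
  rw [Fin.sum_univ_castSucc (n := s), Fin.sum_univ_one]
  simp only [map_add, map_mul, map_sum, MvPolynomial.rename_rename, MvPolynomial.rename_X]
  rw [← add_assoc]
  rfl

/-- The rank does not change under a renaming of the variables. -/
theorem rank_rename {K : Type} [Field K] {F : Type} [Field F] {m N N' : ℕ} (h : N = N')
    (f : Fin (m + 1) → MvPolynomial (Fin N) K) (g : MvPolynomial (Fin m) K →+* F) :
    ((gram (gen fun j => MvPolynomial.rename (finCongr h) (f j))).map g).rank =
      ((gram (gen f)).map g).rank := by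
  subst h
  have h1 : ∀ j, MvPolynomial.rename (finCongr (rfl : N = N)) (f j) = f j := by
    intro j
    have h2 : (finCongr (rfl : N = N) : Fin N → Fin N) = id := by
      funext x
      rfl
    rw [h2, MvPolynomial.rename_id_apply]
  simp only [h1]

end PAR

open PAR
open QCV (gram gen lsub hyp lgen OddGen genHom)
open QCV.BLK QCV.ZPT QCV.ULC

theorem t_PAR : S_PAR := by
  intro K _ m n φ h2 hφ
  obtain ⟨s, f, P, hf, hP, h⟩ := QCV.Asm.s_ULZ K (m + 1) n φ hφ
  have hp : ∀ p q : PrimeSpectrum K, p = q := by
    intro p q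
    have h1 : ∀ p : PrimeSpectrum K, p.asIdeal = ⊥ := fun p =>
      (Ideal.eq_bot_or_top p.asIdeal).resolve_right p.isPrime.ne_top
    apply PrimeSpectrum.ext
    rw [h1 p, h1 q]
  by_cases ho : ∀ p : PrimeSpectrum K,
      Odd ((gram (gen fun j : Fin (m + 1) => f j.succ)).map (genHom m p)).rank
  · exact ⟨s, f, P, hf, hP, h, fun p _ => ho p⟩
  · obtain ⟨p0, ho⟩ := not_forall.1 ho
    have he : ∀ p : PrimeSpectrum K,
        Even ((gram (gen fun j : Fin (m + 1) => f j.succ)).map (genHom m p)).rank := by
      intro p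
      rw [hp p p0]
      exact Nat.not_odd_iff_even.1 ho
    have hN : n + 2 * s + 2 * 1 = n + 2 * (s + 1) := by ring
    refine ⟨s + 1, fun j => MvPolynomial.rename (finCongr hN)
      (osum (f j) (zf K m j) : MvPolynomial (Fin (n + 2 * s + 2)) K),
      Matrix.reindex (finCongr hN) (finCongr hN)
        (blk (k := 2 * 1) P * tm (n + 2 * s) (MvPolynomial.X 0)), ?_, ?_, ?_, ?_⟩
    · intro j
      exact (osum_homog (hf j) (zf_homog K m j)).rename_isHomogeneous
    · rw [Matrix.det_reindex_self, Matrix.det_mul, blk_det]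
      exact hP.mul (tm_det _ _)
    · rw [← hyp_succ_last φ s hN, lsub_rename, ← lsub_lsub, blk_hyp, h, lsub_tm]
      have h3 : (osum (lgen f) (zq (MvPolynomial.X 0)) : MvPolynomial (Fin (n + 2 * s + 2))
          (MvPolynomial (Fin (m + 1)) K)) = lgen fun j => osum (f j) (zf K m j) := by
        have h4 := gen_osum f (zf K m)
        rw [gen_zf] at h4
        exact h4.symm
      rw [h3]
      exact lgen_rename (finCongr hN) _
    · intro p _
      have h3 : gen (fun j : Fin (m + 1) =>
          (osum (f j.succ) (zf K m j.succ) : MvPolynomial (Fin (n + 2 * s + 2)) K)) =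
          osum (gen fun j : Fin (m + 1) => f j.succ) (MvPolynomial.X 0 ^ 2) := by
        rw [gen_osum (fun j : Fin (m + 1) => f j.succ) (fun j : Fin (m + 1) => zf K m j.succ),
          gen_zf_tail]
      have h4 : (2 : FractionRing (MvPolynomial (Fin m) (K ⧸ p.asIdeal))) ≠ 0 := by
        intro h5
        apply h2
        have h6 : ((genHom m p).comp MvPolynomial.C) 2 = 0 := by
          rw [map_ofNat]
          exact h5
        exact (map_eq_zero _).mp h6
      have h7 := rank_rename hN (fun j : Fin (m + 1) =>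
        (osum (f j.succ) (zf K m j.succ) : MvPolynomial (Fin (n + 2 * s + 2)) K)) (genHom m p)
      rw [h3, rank_osum, rank_sq _ h4] at h7
      have h8 := (he p).add_one
      rw [← h7] at h8
      exact h8

end LFQ
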