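import Pool.Agent.LFQ.M_UNI
import Pool.Agent.QCV.H_CCX

/-!
# LFQ: for every polynomial `g` a system of quadratic forms
-/

set_option autoImplicit false

open CategoryTheory AlgebraicGeometry Limits Polynomial TopologicalSpace

namespace LFQ

open Pool.Agent.Lib_helper55.Beil Pool.Agent.Lib_helper66.OneP CUB
open QCV (Dr Bun Cls0 Cls Strat OddCl EvenCl TwClR DL ER fs gram gen lgram lsub hyp lgen zer hyV ccone
  ProjSub dl_field dimLE_of_DL t_UGM t_UDT t_USB t_UGA cls_hyp cls_sq)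

/-- Closure properties of a property of varieties, second list. -/
structure Clo2 {k : Type} [Field k] (P : Var k → Prop) : Prop extends Clo P where
  up : ∀ {Y X : Var k} (_ : Bun Y X), P X → P Y
  twr : (2 : k) ≠ 0 →
    TwClR k (fun A [CommRing A] [Algebra k A] [Algebra.FiniteType k A] => P (aff k A))

/-- The generic member of the system `f` of quadratic forms is, up to hyperbolic planes, the form
`g x_0 ^ 2`. -/
structure RepC {k : Type} [Field k] {q : ℕ} (g : MvPolynomial (Fin q) k) {N : ℕ}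
    (f : Fin (q + 1) → MvPolynomial (Fin N) k) : Prop where
  quad : ∀ j, (f j).IsHomogeneous 2
  det : (gram (gen f)).det ≠ 0
  odd : Odd N
  up : ∀ (P : ∀ (A : Type) [CommRing A] [Algebra k A] [Algebra.FiniteType k A], Prop), Cls0 k P →
    (∀ (A : Type) [CommRing A] [Algebra k A] [Algebra.FiniteType k A], P A → P A[X]) →
    (∀ m : ℕ, P (MvPolynomial (Fin m) (MvPolynomial (Fin q) k))) → P (MvPolynomial (Fin q) k) →
    P (MvPolynomial (Fin q) k ⧸ Ideal.span {g}) → P (ER (fun _ : Fin 1 => gen f))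
  down : ∀ (P : Var k → Prop), Clo P → P (aff k k) → P (aff k (ER (fun _ : Fin 1 => gen f))) →
    P (aff k (MvPolynomial (Fin q) k ⧸ Ideal.span {g}))

variable {k : Type} [Field k]

lemma exists_rep0 (h2 : (2 : k) ≠ 0) {q : ℕ} (g : MvPolynomial (Fin q) k) (hg : g ≠ 0) :
    ∃ (N : ℕ) (f : Fin (q + 1) → MvPolynomial (Fin N) k), RepC g f := by
  have h2B : (2 : MvPolynomial (Fin q) k) ≠ 0 := by
    intro h
    apply h2
    have h3 : MvPolynomial.C (2 : k) = (0 : MvPolynomial (Fin q) k) := by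
      rw [← h]
      exact map_ofNat _ 2
    exact MvPolynomial.C_eq_zero.mp h3
  have hφ : (MvPolynomial.C g * MvPolynomial.X 0 ^ 2 :
      MvPolynomial (Fin 1) (MvPolynomial (Fin q) k)).IsHomogeneous 2 :=
    MvPolynomial.isHomogeneous_C_mul_X_pow g 0 2
  obtain ⟨s, f, P, hf, hPu, heq⟩ := QCV.Asm.s_ULZ k q 1
    (MvPolynomial.C g * MvPolynomial.X 0 ^ 2) hφ
  have heq' : lsub P (hyp (MvPolynomial.C g * MvPolynomial.X 0 ^ 2 :
      MvPolynomial (Fin 1) (MvPolynomial (Fin q) k)) s) = gen f := heq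
  have hdet : (gram (gen f)).det ≠ 0 := by
    have h3 : gram (gen f) = lgram (lsub P (hyp (MvPolynomial.C g * MvPolynomial.X 0 ^ 2 :
        MvPolynomial (Fin 1) (MvPolynomial (Fin q) k)) s)) := by
      rw [heq]
      rfl
    have h4 := t_UGM _ (1 + 2 * s) (hyp (MvPolynomial.C g * MvPolynomial.X 0 ^ 2 :
        MvPolynomial (Fin 1) (MvPolynomial (Fin q) k)) s) P ?_
    · rw [h3, h4, Matrix.det_mul, Matrix.det_mul, Matrix.det_transpose]
      exact mul_ne_zero (mul_ne_zero hPu.ne_zero (t_UDT _ g s h2B hg)) hPu.ne_zero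
    · refine MvPolynomial.IsHomogeneous.add ?_ ?_
      · exact hφ.rename_isHomogeneous
      · refine MvPolynomial.IsHomogeneous.sum _ _ _ fun i _ => ?_
        exact (MvPolynomial.isHomogeneous_X _ _).mul (MvPolynomial.isHomogeneous_X _ _)
  obtain ⟨e2⟩ := t_USB k (MvPolynomial (Fin q) k) (1 + 2 * s)
    (hyp (MvPolynomial.C g * MvPolynomial.X 0 ^ 2) s) P hPu
  rw [heq'] at e2
  refine ⟨1 + 2 * s, f, hf, hdet, ⟨s, by ring⟩, ?_, ?_⟩
  · intro P' hP hline hB hB0 h
    refine hP.iso e2.symm ?_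
    exact cls_hyp k P' hP hline (MvPolynomial (Fin q) k) 1 s _ hB
      (cls_sq k P' hP hline (MvPolynomial (Fin q) k) g hB0 h)
  · intro P' hC hk h6
    have hpoly : P' (aff k (MvPolynomial (Fin q) k)) := hC.poly k hk q
    have h7 := hC.cls0.iso e2 h6
    have h8 := t_UHY2 k P' hC (MvPolynomial (Fin q) k) 1 s
      (MvPolynomial.C g * MvPolynomial.X 0 ^ 2) hpoly h7
    obtain ⟨u, hu⟩ := t_UGA k (MvPolynomial (Fin q) k) g
    have h9 := HYP.opnCone hC (MvPolynomial.C g * MvPolynomial.X 0 ^ 2) (HYP.const_of_hom hφ) 0 u hu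
      (fun p hp i => by
        rw [Fin.eq_zero i]
        exact hp) hpoly h8
    exact t_GM2 k P' hC _ h9

open QCV.BLK QCV.ZPT in
/-- Addition of the forms `z_0 z_1`, `z_0 ^ 2`, `0`, ..., `0`. -/
lemma rep_z {q : ℕ} {g : MvPolynomial (Fin (q + 1)) k} {N : ℕ}
    {f : Fin (q + 1 + 1) → MvPolynomial (Fin N) k} (h : RepC g f) :
    RepC g (fun j => (osum (f j) (zf k q j) : MvPolynomial (Fin (N + 2)) k)) := by
  have hgen : gen (fun j => (osum (f j) (zf k q j) : MvPolynomial (Fin (N + 2)) k)) =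
      osum (gen f) (zq (MvPolynomial.X 0)) := by
    rw [gen_osum, gen_zf]
  obtain ⟨e2⟩ := t_USB k (MvPolynomial (Fin (q + 1)) k) (N + 2 * 1) (hyp (gen f) 1)
    (tm N (MvPolynomial.X 0)) (tm_det N _)
  have heq : lsub (tm N (MvPolynomial.X 0)) (hyp (gen f) 1) =
      gen (fun j => (osum (f j) (zf k q j) : MvPolynomial (Fin (N + 2)) k)) := by
    rw [hgen]
    exact lsub_tm (gen f) (MvPolynomial.X 0)
  rw [heq] at e2
  refine ⟨fun j => osum_homog (h.quad j) (zf_homog k q j), ?_, ?_, ?_, ?_⟩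
  · rw [hgen, det_osum, det_zq]
    exact mul_ne_zero h.det (neg_ne_zero.mpr one_ne_zero)
  · obtain ⟨s, hs⟩ := h.odd
    exact ⟨s + 1, by omega⟩
  · intro P hP hline hB hB0 h3
    refine hP.iso e2.symm ?_
    exact cls_hyp k P hP hline (MvPolynomial (Fin (q + 1)) k) N 1 (gen f) hB
      (h.up P hP hline hB hB0 h3)
  · intro P hC hk h6
    have h7 := hC.cls0.iso e2 h6
    exact h.down P hC hk (t_UHY2 k P hC (MvPolynomial (Fin (q + 1)) k) N 1 (gen f)
      (hC.poly k hk (q + 1)) h7)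

open QCV.BLK QCV.ZPT in
/-- For every polynomial `g ≠ 0` there is a system of quadratic forms, such that the rank at infinity is
odd. -/
theorem exists_rep (h2 : (2 : k) ≠ 0) {q : ℕ} (g : MvPolynomial (Fin (q + 1)) k) (hg : g ≠ 0) :
    ∃ (N : ℕ) (f : Fin (q + 1 + 1) → MvPolynomial (Fin N) k), RepC g f ∧
      Odd ((gram (gen fun j : Fin (q + 1) => f j.succ)).map (algebraMap (MvPolynomial (Fin q) k)
        (FractionRing (MvPolynomial (Fin q) k)))).rank := by
  obtain ⟨N, f, hf⟩ := exists_rep0 h2 g hg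
  rcases Nat.even_or_odd ((gram (gen fun j : Fin (q + 1) => f j.succ)).map
    (algebraMap (MvPolynomial (Fin q) k) (FractionRing (MvPolynomial (Fin q) k)))).rank with h | h
  · refine ⟨N + 2, _, rep_z hf, ?_⟩
    have h3 : gen (fun j : Fin (q + 1) =>
        (osum (f j.succ) (zf k q j.succ) : MvPolynomial (Fin (N + 2)) k)) =
        osum (gen fun j : Fin (q + 1) => f j.succ) (MvPolynomial.X 0 ^ 2) := by
      rw [gen_osum (fun j : Fin (q + 1) => f j.succ) (fun j : Fin (q + 1) => zf k q j.succ),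
        gen_zf_tail]
    have h4 : (2 : FractionRing (MvPolynomial (Fin q) k)) ≠ 0 := by
      intro h5
      apply h2
      have h6 : algebraMap k (FractionRing (MvPolynomial (Fin q) k)) 2 = 0 := by
        rw [map_ofNat]
        exact h5
      exact (map_eq_zero _).mp h6
    rw [h3, rank_osum, rank_sq _ h4]
    exact h.add_one
  · exact ⟨N, f, hf, h⟩

end LFQ
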