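import Pool.Agent.LFQ.St
import Pool.Agent.LFQ.H_BAS

/-!
# LFQ, module TWI: the twist of quadric cones in an even number of variables
-/

set_option autoImplicit false

open CategoryTheory AlgebraicGeometry Limits Polynomial TopologicalSpace

namespace LFQ

open Pool.Agent.Lib_helper55.Beil Pool.Agent.Lib_helper66.OneP CUB
open UQ (Mo Pt DimLE Co Ca Comp sp sdbl dm Inv ofCl ofOp ofPr ofEt ofBun ofLine ofIso comp_of pr_of_cl
  pr_of_et pr_ofPr op_ofOp cl_ofCl et_ofEt line_ofLine bun_ofBun bun_of_line)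
open QCV (Dr Bun Cls0 Cls Strat OddCl EvenCl TwCl DL autc dinv HP HQ QC Sgn dia rt rt_eq)

universe v

namespace TWI

variable {k : Type} [Field k] {Λ : Type} [CommRing Λ] {T : BM.{v} k Λ}

/-- An involution of the open part, which extends to an automorphism acting trivially on the homology
of the ambient variety and of the closed part. -/
lemma hom (hT : T.Pub) (h2 : IsUnit (2 : Λ)) {A Z U : Type} [CommRing A] [Algebra k A]
    [Algebra.FiniteType k A] [CommRing Z] [Algebra k Z] [Algebra.FiniteType k Z] [CommRing U]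
    [Algebra k U] [Algebra.FiniteType k U] (a : A) (z : A →ₐ[k] Z) (u : A →ₐ[k] U) (tA : A ≃ₐ[k] A)
    (tZ : Z ≃ₐ[k] Z) (tU : U ≃ₐ[k] U) (s : Strat a z u) (hU : ∀ x, tU (tU x) = x)
    (hz : ∀ x, z (tA x) = tZ (z x)) (hu : ∀ x, u (tA x) = tU (u x)) (rZ : TR T Z tZ)
    (rA : TR T A tA) : TR T U tU := by
  intro i n m
  obtain ⟨n, rfl⟩ : ∃ n', n = n' + 1 := ⟨n - 1, by ring⟩
  have hc := CUB.complementary_away u a s.away z s.surj s.ker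
  have c1 : spm z ≫ (autc tA).g = (autc tZ).g ≫ spm z := QCV.OGLU.comm_autc tA tZ z hz
  have c2 : spm u ≫ (autc tA).g = (autc tU).g ≫ spm u := QCV.OGLU.comm_autc tA tU u hu
  have hi := QCV.OGLU.isIso_autc tA
  have hi' := QCV.OGLU.isIso_autc tU
  have c3 : IsPullback (spm u) (autc tU).g (autc tA).g (spm u) := IsPullback.of_vert_isIso ⟨c2⟩
  set δ : T.H i (n + 1) (aff k U) := T.P (mo (tU : U →ₐ[k] U)) m - m with hδ
  have e0 : T.B (ofCl (clo z s.surj)) (ofOp (opn u (isOpenImmersion_spm u a s.away))) δ = 0 := by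
    rw [hδ, B_sub, ← P_B hT (clo z s.surj) (opn u (isOpenImmersion_spm u a s.away))
      (clo z s.surj) (opn u (isOpenImmersion_spm u a s.away)) hc hc (mo (tZ : Z →ₐ[k] Z))
      (mo (tU : U →ₐ[k] U)) (mo (tA : A →ₐ[k] A)) (mo_equiv_pr tZ) (mo_equiv_pr tU)
      (mo_equiv_pr tA) c1 c2 m, rZ, sub_self]
  obtain ⟨x, hx⟩ := (exU hT _ _ hc δ).mp e0
  have e3 : T.P (mo (tU : U →ₐ[k] U)) δ = δ := by
    rw [← hx, ← R_P hT (ofOp (opn u (isOpenImmersion_spm u a s.away))) (mo (tU : U →ₐ[k] U))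
      (mo (tA : A →ₐ[k] A)) (ofOp (opn u (isOpenImmersion_spm u a s.away))) (mo_equiv_pr tA)
      (op_ofOp _) c3 x, rA]
  have e6 : T.P (mo (tU : U →ₐ[k] U)) δ = -δ := by
    rw [hδ, P_sub, P_comp hT (mo (tU : U →ₐ[k] U)) (mo (tU : U →ₐ[k] U)) ⟨𝟙 _, Category.id_comp _⟩
      (mo_equiv_pr tU) (mo_equiv_pr tU) (QCV.OGLU.autc_autc tU hU), P_one hT _ rfl, neg_sub]
  exact sub_eq_zero.mp (zero_of_eq_neg h2 (e3.symm.trans e6))

/-- **EGM**. -/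
lemma tr_gm (hT : T.Pub) (h2 : IsUnit (2 : Λ)) (B : Type) [CommRing B] [Algebra k B]
    [Algebra.FiniteType k B] [Algebra.FiniteType k (Localization.Away (X : B[X]))]
    (wX : B[X] ≃ₐ[k] B[X])
    (wU : Localization.Away (X : B[X]) ≃ₐ[k] Localization.Away (X : B[X]))
    (hC : ∀ b, wX (C b) = C b) (hX : wX X = - X)
    (hU : ∀ p : B[X], wU (algebraMap B[X] _ p) = algebraMap B[X] _ (wX p)) :
    TR T (Localization.Away (X : B[X])) wU := by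
  let z : B[X] →ₐ[k] B := (Polynomial.aeval (R := B) (0 : B)).restrictScalars k
  let u : B[X] →ₐ[k] Localization.Away (X : B[X]) := awayHom k (X : B[X])
  have hzC : ∀ b, z (C b) = b := fun b => Polynomial.aeval_C (R := B) (0 : B) b
  have hz0 : ∀ p, z p = p.coeff 0 := fun p => by
    change Polynomial.aeval (R := B) (0 : B) p = _
    rw [Polynomial.coeff_zero_eq_aeval_zero]
  have s : Strat (X : B[X]) z u := by
    refine ⟨fun b => ⟨C b, hzC b⟩, ?_, isLocalization_awayHom (X : B[X])⟩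
    ext p
    rw [RingHom.mem_ker, Ideal.mem_span_singleton, Polynomial.X_dvd_iff]
    exact ⟨fun h => (hz0 p).symm.trans h, fun h => (hz0 p).trans h⟩
  have hXX : ∀ p, wX (wX p) = p := by
    intro p
    have h1 : (wX.toAlgHom.comp wX.toAlgHom).toRingHom = RingHom.id B[X] := by
      apply Polynomial.ringHom_ext
      · intro b
        change wX (wX (C b)) = C b
        rw [hC, hC]
      · change wX (wX X) = X
        rw [hX, map_neg, hX, neg_neg]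
    exact RingHom.congr_fun h1 p
  have hUU : ∀ x, wU (wU x) = x := by
    intro x
    have h1 : (wU.toAlgHom.comp wU.toAlgHom).toRingHom = RingHom.id _ := by
      apply IsLocalization.ringHom_ext (Submonoid.powers (X : B[X]))
      refine RingHom.ext fun p => ?_
      change wU (wU (algebraMap B[X] _ p)) = algebraMap B[X] _ p
      rw [hU, hU, hXX]
    exact RingHom.congr_fun h1 x
  have hz : ∀ x, z (wX x) = (AlgEquiv.refl : B ≃ₐ[k] B) (z x) := by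
    intro x
    have h1 : (z.comp wX.toAlgHom).toRingHom = z.toRingHom := by
      apply Polynomial.ringHom_ext
      · intro b
        change z (wX (C b)) = z (C b)
        rw [hC]
      · change z (wX X) = z X
        rw [hX, map_neg, hz0, Polynomial.coeff_X_zero, neg_zero]
    exact RingHom.congr_fun h1 x
  have hu : ∀ x, u (wX x) = wU (u x) := fun x => (hU x).symm
  exact hom hT h2 _ z u wX AlgEquiv.refl wU s hUU hz hu (tr_refl hT)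
    (tr_line hT AlgEquiv.refl wX (fun b => hC b) (tr_refl hT))

/-- **EHT**. -/
lemma tr_ht (hT : T.Pub) (h2 : IsUnit (2 : Λ)) (B : Type) [CommRing B] [Algebra k B]
    [Algebra.FiniteType k B] (c : B) (w : HP B c ≃ₐ[k] HP B c) (hw : Sgn ![1, 1, -1, -1] w) :
    TR T (HP B c) w := by
  haveI f1 : Algebra.FiniteType B[X] (Localization.Away (X : B[X])) :=
    IsLocalization.finiteType_of_monoid_fg (Submonoid.powers (X : B[X])) _
  haveI f2 : Algebra.FiniteType k (Localization.Away (X : B[X])) :=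
    Algebra.FiniteType.trans (S := B[X]) inferInstance f1
  have key : ∀ w₀ : HQ B c ≃ₐ[k] HQ B c, Sgn ![-1, -1] w₀ → TR T (HQ B c) w₀ := by
    intro w₀ h₀
    obtain ⟨z, u, wZ, wX, wU, hS, hz, hu, hZC, hXC, hXX, hUX⟩ := QCV.t_EHQ k B c w₀ h₀
    refine tr_glue hT h2 _ z u w₀ wZ wU hS (QCV.EHT.sgn_sgn h₀ (by
        intro j
        fin_cases j <;> rfl)) hz hu ?_ ?_
    · exact tr_line hT AlgEquiv.refl wZ (fun a => hZC a) (tr_refl hT)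
    · exact tr_gm hT h2 B wX wU hXC hXX hUX
  obtain ⟨z, u, w₀, wZ, w₁, wU, hS, hw₀, hz, hu, hZC, h₁C, hUC⟩ := QCV.t_EHP k B c w hw
  have hww : ∀ x, w (w x) = x := QCV.EHT.sgn_sgn hw (by
      intro j
      fin_cases j <;> rfl)
  have rZ : TR T (HQ B c)[X] wZ := tr_line hT w₀ wZ hZC (key w₀ hw₀)
  have rU : TR T (Localization.Away (X : B[X]))[X][X] wU :=
    tr_line hT w₁ wU hUC (tr_line hT AlgEquiv.refl w₁ (fun a => h₁C a) (tr_refl hT))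
  exact tr_glue hT h2 (Z := (HQ B c)[X]) (U := (Localization.Away (X : B[X]))[X][X])
    _ z u w wZ wU hS hww hz hu rZ rU

/-- Two hyperbolic planes. -/
lemma split (hT : T.Pub) (h2 : IsUnit (2 : Λ)) (hk : (2 : k) ≠ 0) {B : Type} [CommRing B]
    [Algebra k B] [Algebra.FiniteType k B] (a : Fin 4 → B) (c : B) (w : QC B a c ≃ₐ[k] QC B a c)
    (ha : ∀ j, IsUnit (a j)) (hw : Sgn ![1, -1, 1, -1] w) (s₁ s₂ : B)
    (hs₁ : s₁ ^ 2 * a 0 = - a 2) (hs₂ : s₂ ^ 2 * a 1 = - a 3) : TR T (QC B a c) w := by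
  obtain ⟨θ, hθ⟩ := QCV.t_ESP k B a c s₁ s₂ hk ha hs₁ hs₂
  obtain ⟨w', hw'⟩ := QCV.t_ESG k B 4 _ ![1, 1, -1, -1] QCV.EQT.hp_sq (QCV.EQT.aeval_hp c)
  refine tr_iso hT w' w θ.symm (fun x => ?_) (tr_ht hT h2 B c w' hw')
  rw [AlgEquiv.symm_apply_eq, hθ w w' hw hw', AlgEquiv.apply_symm_apply]

/-- Descent from a double cover of the base. -/
lemma desc (hT : T.Pub) (h2 : IsUnit (2 : Λ)) {B : Type} [CommRing B] [Algebra k B]
    [Algebra.FiniteType k B] (a : Fin 4 → B) (c δ : B) (w : QC B a c ≃ₐ[k] QC B a c)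
    (hw : Sgn ![1, -1, 1, -1] w)
    (H : ∀ w' : QC (Dr B 0 δ) (fun j => algebraMap B (Dr B 0 δ) (a j))
      (algebraMap B (Dr B 0 δ) c) ≃ₐ[k] QC (Dr B 0 δ) (fun j => algebraMap B (Dr B 0 δ) (a j))
      (algebraMap B (Dr B 0 δ) c), Sgn ![1, -1, 1, -1] w' →
      TR T (QC (Dr B 0 δ) (fun j => algebraMap B (Dr B 0 δ) (a j))
        (algebraMap B (Dr B 0 δ) c)) w') : TR T (QC B a c) w := by
  obtain ⟨e, he, -⟩ := QCV.t_EBC k B a c δ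
  obtain ⟨w', hw'⟩ := QCV.t_ESG k (Dr B 0 δ) 4 (dia (fun j => algebraMap B (Dr B 0 δ) (a j)) +
    MvPolynomial.C (algebraMap B (Dr B 0 δ) c)) ![1, -1, 1, -1] QCV.EQT.sgn_sq
    (QCV.EQT.aeval_dia _ _)
  have h5 := tr_iso hT w' ((e.trans w').trans e.symm) e.symm (fun x => by
    rw [AlgEquiv.trans_apply, AlgEquiv.trans_apply, AlgEquiv.apply_symm_apply]) (H w' hw')
  refine tr_dbl hT h2 0 (Ideal.Quotient.mk _ (MvPolynomial.C δ)) w
    ((e.trans w').trans e.symm) (fun x => ?_) h5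
  rw [AlgEquiv.trans_apply, AlgEquiv.trans_apply, AlgEquiv.symm_apply_eq]
  obtain ⟨p, rfl⟩ := Ideal.Quotient.mk_surjective x
  rw [he]
  induction p using MvPolynomial.induction_on with
  | C b => rw [hw.1, he, MvPolynomial.map_C, hw'.1]
  | add p q hp hq => simp only [map_add, hp, hq]
  | mul_X p j hp =>
    simp only [map_mul, hp, MvPolynomial.map_X]
    rw [hw.2, hw'.2, map_zsmul, map_zsmul, he, MvPolynomial.map_X]

/-- **EQT**. -/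
lemma tr_qt (hT : T.Pub) (h2 : IsUnit (2 : Λ)) (hk : (2 : k) ≠ 0) (B : Type) [CommRing B]
    [Algebra k B] [Algebra.FiniteType k B] (a : Fin 4 → B) (c : B) (w : QC B a c ≃ₐ[k] QC B a c)
    (ha : ∀ j, IsUnit (a j)) (hw : Sgn ![1, -1, 1, -1] w) : TR T (QC B a c) w := by
  have hdiv : ∀ {R : Type} [CommRing R] (x y : R), IsUnit x → ∃ δ : R, δ * x = y := by
    intro R _ x y hx
    obtain ⟨u, rfl⟩ := hx
    exact ⟨y * ↑u⁻¹, by rw [mul_assoc, Units.inv_mul, mul_one]⟩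
  obtain ⟨δ₁, hδ₁⟩ := hdiv (a 0) (a 2) (ha 0)
  refine desc hT h2 a c δ₁ w hw fun w₁ hw₁ => ?_
  obtain ⟨δ₂, hδ₂⟩ := hdiv (algebraMap B (Dr B 0 δ₁) (a 1)) (algebraMap B (Dr B 0 δ₁) (a 3))
    ((ha 1).map _)
  refine desc hT h2 _ _ δ₂ w₁ hw₁ fun w₂ hw₂ => ?_
  refine split hT h2 hk _ _ w₂ (fun j => ((ha j).map _).map _) hw₂
    (algebraMap _ _ (rt 0 δ₁)) (rt 0 δ₂) ?_ ?_
  · have h5 := rt_eq 0 δ₁
    rw [map_zero, zero_mul, add_zero] at h5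
    rw [← map_pow, ← map_mul, ← map_neg]
    congr 1
    rw [← hδ₁, map_mul]
    linear_combination (algebraMap B (Dr B 0 δ₁) (a 0)) * h5
  · have h5 := rt_eq 0 δ₂
    rw [map_zero, zero_mul, add_zero] at h5
    rw [← hδ₂, map_mul]
    linear_combination (algebraMap (Dr B 0 δ₁) (Dr (Dr B 0 δ₁) 0 δ₂)
      (algebraMap B (Dr B 0 δ₁) (a 1))) * h5

section Covers

variable (hT : T.Pub)

include hT

/-- The involution of a double cover. -/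
lemma galois (i n : ℤ) (A : Type) [CommRing A] [Algebra k A] [Algebra.FiniteType k A] (b c : A)
    (x : T.H i n (aff k (Dr A b c))) :
    T.R (dm k A b c) (T.P (dm k A b c) x) =
      x + T.P (mo (dinv b c k : Dr A b c →ₐ[k] Dr A b c)) x :=
  hT.cov.inv i n A b c (ofCl (QCV.autc (QCV.dinv b c k)))
    ⟨QCV.dinvHom b c, QCV.dinvHom_of b c, QCV.dinvHom_rt b c, rfl⟩ x

/-- The pull-back to a double cover is invariant. -/
lemma inv_R (i n : ℤ) (A : Type) [CommRing A] [Algebra k A] [Algebra.FiniteType k A] (b c : A)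
    (m : T.H i n (aff k A)) :
    T.P (mo (dinv b c k : Dr A b c →ₐ[k] Dr A b c)) (T.R (dm k A b c) m : T.H i n (aff k (Dr A b c)))
      = T.R (dm k A b c) m := by
  have h1 := galois hT i n A b c (T.R (dm k A b c) m)
  have h2 : T.P (dm k A b c) (T.R (dm k A b c) m) = (2 : Λ) • m := hT.cov.dbl i n A b c m
  have h3 : T.R (dm k A b c) (T.P (dm k A b c) (T.R (dm k A b c) m)) =
      T.R (dm k A b c) m + T.R (dm k A b c) m := by
    exact (congrArg _ h2).trans ((R_smul (dm k A b c) (2 : Λ) m).trans (two_smul Λ _))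
  exact (add_left_cancel (h3.symm.trans h1)).symm

/-- **ECM**. -/
lemma fg_cm [IsNoetherianRing Λ] (h2 : IsUnit (2 : Λ)) (X₁ X₂ : Type) [CommRing X₁] [Algebra k X₁]
    [Algebra.FiniteType k X₁] [CommRing X₂] [Algebra k X₂] [Algebra.FiniteType k X₂] (b₁ c₁ : X₁)
    (b₂ c₂ : X₂) (e : Dr X₁ b₁ c₁ ≃ₐ[k] Dr X₂ b₂ c₂) (w : Dr X₂ b₂ c₂ ≃ₐ[k] Dr X₂ b₂ c₂)
    (he : ∀ x, e (dinv b₁ c₁ k x) = w (dinv b₂ c₂ k (e x))) (hw : TR T (Dr X₂ b₂ c₂) w)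
    (h : T.FG (aff k X₂)) : T.FG (aff k X₁) := by
  intro i n
  -- `ε` and its inverse
  have hse : ∀ y : T.H i n (aff k (Dr X₁ b₁ c₁)),
      T.P (mo (e : Dr X₁ b₁ c₁ →ₐ[k] Dr X₂ b₂ c₂))
        (T.P (mo (e.symm : Dr X₂ b₂ c₂ →ₐ[k] Dr X₁ b₁ c₁)) y) = y := by
    intro y
    rw [P_comp hT (mo (e.symm : Dr X₂ b₂ c₂ →ₐ[k] Dr X₁ b₁ c₁))
      (mo (e : Dr X₁ b₁ c₁ →ₐ[k] Dr X₂ b₂ c₂)) ⟨𝟙 _, Category.id_comp _⟩
      (mo_equiv_pr e.symm) (mo_equiv_pr e) ?_ y]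
    · exact P_one hT _ rfl y
    · rw [mo_g_comp]
      change spm _ = 𝟙 _
      rw [← spm_id]
      exact congrArg spm (AlgHom.ext fun x => e.symm_apply_apply x)
  have hinj : Function.Injective (T.pf i n (mo (e : Dr X₁ b₁ c₁ →ₐ[k] Dr X₂ b₂ c₂))) :=
    (P_iso hT (viso e)).injective
  refine fin_inj ((T.pf i n (dm k X₂ b₂ c₂)).comp
    ((T.pf i n (mo (e.symm : Dr X₂ b₂ c₂ →ₐ[k] Dr X₁ b₁ c₁))).comp
      (T.pb i n (dm k X₁ b₁ c₁)))) ?_ (h i n)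
  rw [injective_iff_map_eq_zero]
  intro m hm
  set μ : T.H i n (aff k (Dr X₂ b₂ c₂)) :=
    T.P (mo (e.symm : Dr X₂ b₂ c₂ →ₐ[k] Dr X₁ b₁ c₁)) (T.R (dm k X₁ b₁ c₁) m) with hμ
  have hm' : T.P (dm k X₂ b₂ c₂) μ = 0 := hm
  have e1 : T.P (mo (e : Dr X₁ b₁ c₁ →ₐ[k] Dr X₂ b₂ c₂)) μ = T.R (dm k X₁ b₁ c₁) m := hse _
  -- the involutions
  have hco : (mo (e : Dr X₁ b₁ c₁ →ₐ[k] Dr X₂ b₂ c₂)).g ≫
      (mo (dinv b₁ c₁ k : Dr X₁ b₁ c₁ →ₐ[k] Dr X₁ b₁ c₁)).g =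
      ((mo (w : Dr X₂ b₂ c₂ →ₐ[k] Dr X₂ b₂ c₂)).g ≫
        (mo (dinv b₂ c₂ k : Dr X₂ b₂ c₂ →ₐ[k] Dr X₂ b₂ c₂)).g) ≫
        (mo (e : Dr X₁ b₁ c₁ →ₐ[k] Dr X₂ b₂ c₂)).g := by
    rw [mo_g_comp, mo_g_comp]
    change spm _ = spm _ ≫ spm _
    rw [spm_comp]
    exact congrArg spm (AlgHom.ext fun x => he x)
  have hwd : (mo ((w : Dr X₂ b₂ c₂ →ₐ[k] Dr X₂ b₂ c₂).comp
      (dinv b₂ c₂ k : Dr X₂ b₂ c₂ →ₐ[k] Dr X₂ b₂ c₂))).Pr :=
    mo_surj_pr _ (w.surjective.comp (dinv b₂ c₂ k).surjective)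
  have e2 : T.P (mo (dinv b₁ c₁ k : Dr X₁ b₁ c₁ →ₐ[k] Dr X₁ b₁ c₁))
      (T.P (mo (e : Dr X₁ b₁ c₁ →ₐ[k] Dr X₂ b₂ c₂)) μ) =
      T.P (mo (e : Dr X₁ b₁ c₁ →ₐ[k] Dr X₂ b₂ c₂))
        (T.P (mo (dinv b₂ c₂ k : Dr X₂ b₂ c₂ →ₐ[k] Dr X₂ b₂ c₂)) μ) := by
    have h3 := P_sq hT (mo (e : Dr X₁ b₁ c₁ →ₐ[k] Dr X₂ b₂ c₂))
      (mo (dinv b₁ c₁ k : Dr X₁ b₁ c₁ →ₐ[k] Dr X₁ b₁ c₁))
      (mo ((w : Dr X₂ b₂ c₂ →ₐ[k] Dr X₂ b₂ c₂).comp
        (dinv b₂ c₂ k : Dr X₂ b₂ c₂ →ₐ[k] Dr X₂ b₂ c₂)))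
      (mo (e : Dr X₁ b₁ c₁ →ₐ[k] Dr X₂ b₂ c₂)) (mo_equiv_pr e) (mo_equiv_pr _) hwd
      (mo_equiv_pr e) (by rw [hco, mo_g_comp]) μ
    rw [h3, ← P_comp hT (mo (w : Dr X₂ b₂ c₂ →ₐ[k] Dr X₂ b₂ c₂))
      (mo (dinv b₂ c₂ k : Dr X₂ b₂ c₂ →ₐ[k] Dr X₂ b₂ c₂)) _ (mo_equiv_pr w) (mo_equiv_pr _)
      (mo_g_comp _ _) μ, hw]
  have e3 : T.P (mo (dinv b₂ c₂ k : Dr X₂ b₂ c₂ →ₐ[k] Dr X₂ b₂ c₂)) μ = μ := by
    apply hinj
    have h4 : T.P (mo (e : Dr X₁ b₁ c₁ →ₐ[k] Dr X₂ b₂ c₂))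
        (T.P (mo (dinv b₂ c₂ k : Dr X₂ b₂ c₂ →ₐ[k] Dr X₂ b₂ c₂)) μ) =
        T.P (mo (e : Dr X₁ b₁ c₁ →ₐ[k] Dr X₂ b₂ c₂)) μ := by
      rw [← e2, e1]
      exact inv_R hT i n X₁ b₁ c₁ m
    exact h4
  have e4 := galois hT i n X₂ b₂ c₂ μ
  rw [e3, hm', R_zero] at e4
  have e5 : μ = 0 := two_cancel h2 (by rw [two_smul]; exact e4.symm)
  have e6 : T.R (dm k X₁ b₁ c₁) m = (0 : T.H i n (aff k (Dr X₁ b₁ c₁))) := by
    rw [← e1, e5]
    exact P_zero _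
  have e7 : T.P (dm k X₁ b₁ c₁) (T.R (dm k X₁ b₁ c₁) m) = (2 : Λ) • m :=
    hT.cov.dbl i n X₁ b₁ c₁ m
  have e8 : (2 : Λ) • m = 0 := by
    rw [← e7]
    exact (congrArg (T.P (dm k X₁ b₁ c₁)) e6).trans (P_zero _)
  exact two_cancel h2 e8

end Covers

end TWI

/-- **TWI**. -/
theorem t_TWI : S_TWI.{v} := by
  intro k Λ _ _ _ T hT h2 hk B _ _ _ a c δ ha hδ h hFG
  obtain ⟨e, w, e', w', hw', h3, h4⟩ := QCV.t_ETW QCV.t_EBC QCV.t_ESG k B a c δ hδ h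
  have h5 := TWI.tr_qt hT h2 hk (Dr B 0 (-δ)) _ _ w'
    (fun j => (QCV.EST.unit_vec a δ ha hδ j).map (algebraMap B (Dr B 0 (-δ)))) hw'
  have h6 := tr_iso hT w' w e'.symm (fun x => by
    rw [AlgEquiv.symm_apply_eq, h4, AlgEquiv.apply_symm_apply]) h5
  exact TWI.fg_cm hT h2 _ _ _ _ _ _ e w h3 h6 hFG

end LFQ
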