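import Pool.Agent.LFQ.St
import Pool.Agent.QCV.U_FIN

/-!
# LFQ, modules UST2, GM2, UHY2
-/

set_option autoImplicit false

open CategoryTheory AlgebraicGeometry Limits Polynomial TopologicalSpace

namespace LFQ

open Pool.Agent.Lib_helper55.Beil Pool.Agent.Lib_helper66.OneP CUB
open QCV (Dr Bun Cls0 Cls Strat OddCl EvenCl DL ER fs hyp ust_iso usf usf_zero usf_succ ust_fs t_LNR)
open QCV.UHY

theorem t_UST2 : S_UST2 := by
  intro k _ P hP hline m
  induction m with
  | zero =>
    intro S _ _ _ f _ hr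
    have h1 : Ideal.span (Set.range f) = Ideal.span {f 0} := by
      congr 1
      ext x
      constructor
      · rintro ⟨j, rfl⟩
        rw [Set.mem_singleton_iff, show j = 0 from Fin.eq_zero j]
      · rintro rfl
        exact ⟨0, rfl⟩
    let φ : MvPolynomial (Fin 0) S →ₐ[k] S :=
      ((MvPolynomial.isEmptyAlgEquiv S (Fin 0)).restrictScalars k).toAlgHom
    have hφi : Function.Injective φ :=
      ((MvPolynomial.isEmptyAlgEquiv S (Fin 0)).restrictScalars k).injective
    obtain ⟨e'⟩ := ust_iso φ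
      ((MvPolynomial.isEmptyAlgEquiv S (Fin 0)).restrictScalars k).surjective ∅ {fs f} {fs f}
      (Set.range f) (by
        rw [Ideal.span_empty]
        exact (RingHom.injective_iff_ker_eq_bot φ.toRingHom).1 hφi) (by
        rw [Set.image_singleton]
        have h2 : φ (fs f) = f 0 := by
          unfold fs
          rw [Finset.univ_eq_empty, Finset.sum_empty, add_zero]
          exact (MvPolynomial.isEmptyAlgEquiv S (Fin 0)).commutes (f 0)
        rw [h2]
        ext x
        constructor
        · rintro rfl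
          exact ⟨0, rfl⟩
        · rintro ⟨j, rfl⟩
          rw [Set.mem_singleton_iff, show j = 0 from Fin.eq_zero j]) (Set.empty_union _)
    exact hP.iso e'.symm hr
  | succ m ih =>
    intro S _ _ _ f hj hr
    -- `P S`
    have hS : P S := by
      have h1 := hj 0 (Nat.zero_le _)
      have h2 : Ideal.span (f '' {l : Fin (m + 1 + 1) | 1 ≤ l.1 ∧ l.1 ≤ 0}) = ⊥ := by
        have h3 : {l : Fin (m + 1 + 1) | 1 ≤ l.1 ∧ l.1 ≤ 0} = ∅ := by
          ext l
          simp only [Set.mem_ofPred_eq, Set.mem_empty_iff_false, iff_false]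
          omega
        rw [h3, Set.image_empty, Ideal.span_empty]
      exact hP.iso ((Ideal.quotientEquivAlgOfEq k h2).trans (AlgEquiv.quotientBot k S)) h1
    have hmv : ∀ (S : Type) [CommRing S] [Algebra k S] [Algebra.FiniteType k S], P S →
        ∀ n : ℕ, P (MvPolynomial (Fin n) S) := by
      intro S _ _ _ hS n
      induction n with
      | zero =>
        exact hP.iso ((MvPolynomial.isEmptyAlgEquiv S (Fin 0)).restrictScalars k).symm hS
      | succ n ih2 =>
        exact hP.iso ((MvPolynomial.finSuccEquiv S n).restrictScalars k).symm (hline _ ih2)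
    have hS' : P (MvPolynomial (Fin m) S) := hmv S hS m
    let g : MvPolynomial (Fin m) S := MvPolynomial.C (f 1)
    let h : MvPolynomial (Fin m) S := fs (usf f)
    -- the closed part
    let φ₁ : S →ₐ[k] S ⧸ Ideal.span {f 1} := Ideal.Quotient.mkₐ k (Ideal.span {f 1})
    have hφ₁ : Function.Surjective φ₁ := Ideal.Quotient.mkₐ_surjective k _
    have hk₁ : RingHom.ker φ₁.toRingHom = Ideal.span {f 1} := Ideal.mk_ker
    let φ : MvPolynomial (Fin m) S →ₐ[k] MvPolynomial (Fin m) (S ⧸ Ideal.span {f 1}) :=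
      MvPolynomial.mapAlgHom φ₁
    have hφ : Function.Surjective φ := MvPolynomial.map_surjective φ₁.toRingHom hφ₁
    have hφk : RingHom.ker φ.toRingHom = Ideal.span {g} := by
      have h1 : RingHom.ker φ.toRingHom = Ideal.map MvPolynomial.C (RingHom.ker φ₁.toRingHom) :=
        MvPolynomial.ker_map φ₁.toRingHom
      rw [h1, hk₁, Ideal.map_span, Set.image_singleton]
    have hS1 : P (S ⧸ Ideal.span {f 1}) := by
      have h1 := hj 1 (by omega)
      have h2 : f '' {l : Fin (m + 1 + 1) | 1 ≤ l.1 ∧ l.1 ≤ 1} = {f 1} := by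
        have h3 : {l : Fin (m + 1 + 1) | 1 ≤ l.1 ∧ l.1 ≤ 1} = {1} := by
          ext l
          simp only [Set.mem_ofPred_eq, Set.mem_singleton_iff]
          rw [Fin.ext_iff]
          have h4 : ((1 : Fin (m + 1 + 1)) : ℕ) = 1 := rfl
          omega
        rw [h3, Set.image_singleton]
      exact hP.iso (Ideal.quotientEquivAlgOfEq k (congrArg Ideal.span h2)) h1
    have hU : P (Localization.Away g) := hP.opn g φ (awayHom k g)
      ⟨hφ, hφk, isLocalization_awayHom g⟩ hS' (hmv _ hS1 m)
    have hset : ∀ j : ℕ, ({f 1} : Set S) ∪ usf f '' {l : Fin (m + 1) | 1 ≤ l.1 ∧ l.1 ≤ j} =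
        f '' {l : Fin (m + 1 + 1) | 1 ≤ l.1 ∧ l.1 ≤ j + 1} := by
      intro j
      ext x
      constructor
      · rintro (rfl | ⟨l, ⟨hl1, hl2⟩, rfl⟩)
        · exact ⟨1, ⟨by simp, by simp⟩, rfl⟩
        · obtain ⟨l', rfl⟩ : ∃ l' : Fin m, l = l'.succ := by
            refine ⟨l.pred ?_, (Fin.succ_pred _ _).symm⟩
            rintro rfl
            simp at hl1
          refine ⟨l'.succ.succ, ⟨?_, ?_⟩, (usf_succ f l').symm⟩
          · simp only [Fin.val_succ]
            omega
          · simp only [Fin.val_succ] at hl2 ⊢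
            omega
      · rintro ⟨l, ⟨hl1, hl2⟩, rfl⟩
        obtain ⟨l', rfl⟩ : ∃ l' : Fin (m + 1), l = l'.succ := by
          refine ⟨l.pred ?_, (Fin.succ_pred _ _).symm⟩
          rintro rfl
          simp at hl1
        rcases Fin.eq_zero_or_eq_succ l' with rfl | ⟨l'', rfl⟩
        · left
          rfl
        · right
          refine ⟨l''.succ, ⟨?_, ?_⟩, usf_succ f l''⟩
          · simp only [Fin.val_succ]
            omega
          · simp only [Fin.val_succ] at hl2 ⊢
            omega
    have hset2 : ({f 1} : Set S) ∪ Set.range (usf f) = Set.range f := by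
      ext x
      constructor
      · rintro (rfl | ⟨l, rfl⟩)
        · exact ⟨1, rfl⟩
        · rcases Fin.eq_zero_or_eq_succ l with rfl | ⟨l', rfl⟩
          · exact ⟨0, rfl⟩
          · exact ⟨l'.succ.succ, rfl⟩
      · rintro ⟨l, rfl⟩
        rcases Fin.eq_zero_or_eq_succ l with rfl | ⟨l', rfl⟩
        · right
          exact ⟨0, rfl⟩
        · rcases Fin.eq_zero_or_eq_succ l' with rfl | ⟨l'', rfl⟩
          · left
            rfl
          · right
            exact ⟨l''.succ, rfl⟩
    have hZ1 : P (MvPolynomial (Fin m) (S ⧸ Ideal.span {f 1}) ⧸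
        Ideal.span {fs (fun j => φ₁ (usf f j))}) := by
      refine ih (S ⧸ Ideal.span {f 1}) (fun j => φ₁ (usf f j)) ?_ ?_
      · intro j hjm
        obtain ⟨e⟩ := ust_iso φ₁ hφ₁ {f 1} (usf f '' {l : Fin (m + 1) | 1 ≤ l.1 ∧ l.1 ≤ j}) _
          ((fun j => φ₁ (usf f j)) '' {l : Fin (m + 1) | 1 ≤ l.1 ∧ l.1 ≤ j}) hk₁
          (by rw [Set.image_image]) (hset j)
        exact hP.iso e (hj (j + 1) (by omega))
      · obtain ⟨e⟩ := ust_iso φ₁ hφ₁ {f 1} (Set.range (usf f)) _
          (Set.range fun j => φ₁ (usf f j)) hk₁ (by rw [← Set.range_comp]; rfl) hset2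
        exact hP.iso e hr
    have hZ : P (MvPolynomial (Fin m) S ⧸ Ideal.span {g, h}) := by
      have hφh : φ h = fs (fun j => φ₁ (usf f j)) := by
        change MvPolynomial.map φ₁.toRingHom (fs (usf f)) = _
        unfold fs
        simp only [map_add, map_sum, map_mul, MvPolynomial.map_C, MvPolynomial.map_X]
        rfl
      obtain ⟨e⟩ := ust_iso φ hφ {g} {h} {g, h} {fs (fun j => φ₁ (usf f j))} hφk
        (by rw [Set.image_singleton, hφh]) (Set.singleton_union)
      exact hP.iso e.symm hZ1
    obtain ⟨z', u', hs⟩ := t_LNR k (MvPolynomial (Fin m) S) (Localization.Away g) g h (awayHom k g)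
      (isLocalization_awayHom g)
    have hmain : P ((MvPolynomial (Fin m) S)[X] ⧸ Ideal.span {C g * X + C h}) :=
      hP.glue _ z' u' hs (hline _ hZ) hU
    let φ₂ : MvPolynomial (Fin (m + 1)) S →ₐ[k] (MvPolynomial (Fin m) S)[X] :=
      ((MvPolynomial.finSuccEquiv S m).restrictScalars k).toAlgHom
    have hφ₂i : Function.Injective φ₂ :=
      ((MvPolynomial.finSuccEquiv S m).restrictScalars k).injective
    obtain ⟨e⟩ := ust_iso φ₂ ((MvPolynomial.finSuccEquiv S m).restrictScalars k).surjective
      ∅ {fs f} {fs f} {C g * X + C h}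
      (by
        rw [Ideal.span_empty]
        exact (RingHom.injective_iff_ker_eq_bot φ₂.toRingHom).1 hφ₂i)
      (by
        rw [Set.image_singleton]
        exact congrArg _ (ust_fs f)) (Set.empty_union _)
    exact hP.iso e.symm hmain


/-- the line and its zero section -/
theorem t_GM2 : S_GM2 := by
  intro k _ P hC A _ _ _ h
  have hc := CUB.complementary_away (awayHom k (X : A[X])) (X : A[X]) (isLocalization_awayHom _)
    (ev k A) ev_surj ev_ker
  let L : Line (aff k A[X]) (aff k A) := lineE (CC k A) (RingEquiv.refl _) (fun _ => rfl)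
  obtain ⟨B, hB⟩ := UQ.bun_exists _ (UQ.bun_of_line (UQ.line_ofLine L))
  refine hC.bundle B (clo (ev k A) ev_surj) (opn (awayHom k (X : A[X]))
    (isOpenImmersion_spm _ _ (isLocalization_awayHom _))) ?_ hc h
  rw [hB]
  change spm (ev k A) ≫ spm (CC k A) = 𝟙 _
  rw [spm_comp]
  have h1 : (ev k A).comp (CC k A) = AlgHom.id k A := by
    ext a
    change ev k A (C a) = a
    rw [ev_apply, coeff_C_zero]
  rw [h1]
  exact spm_id

theorem t_UHY2 : S_UHY2 := by
  intro k _ P hC B _ _ _ n s φ hB
  induction s with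
  | zero =>
    intro h
    have h0 : Ideal.span (Set.range fun _ : Fin 1 => (hyp φ 0 : MvPolynomial (Fin n) B)) =
        Ideal.span (Set.range fun _ : Fin 1 => φ) := by
      rw [hyp_zero]
      rfl
    have e : (MvPolynomial (Fin n) B ⧸
        Ideal.span (Set.range fun _ : Fin 1 => (hyp φ 0 : MvPolynomial (Fin n) B))) ≃ₐ[k]
        (MvPolynomial (Fin n) B ⧸ Ideal.span (Set.range fun _ : Fin 1 => φ)) :=
      Ideal.quotientEquivAlgOfEq k h0
    exact hC.iso (viso e.symm) h
  | succ s ih =>
    intro h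
    apply ih
    obtain ⟨e⟩ := QCV.t_UHI k B n s φ
    have h1 := hC.iso (viso e.symm) h
    have hD : P (aff k (MvPolynomial (Fin (n + 2 * s)) B)) := hC.poly B hB _
    have hU : P (aff k (Localization.Away (X : (MvPolynomial (Fin (n + 2 * s)) B)[X]))) :=
      hC.cls0.opn _ (ev k _) (awayHom k _) ⟨ev_surj, ev_ker, isLocalization_awayHom _⟩
        (hC.line _ hD) hD
    obtain ⟨z', u', hs⟩ := QCV.Asm.s_LNR k (MvPolynomial (Fin (n + 2 * s)) B)[X]
      (Localization.Away (X : (MvPolynomial (Fin (n + 2 * s)) B)[X])) X (C (hyp φ s))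
      (awayHom k X) (isLocalization_awayHom X)
    have h2 := hC.clo3 _ z' u' hs h1 hU
    have h3 := hC.unline (lineE (CC k _) (RingEquiv.refl _) (fun _ => rfl)) h2
    obtain ⟨e'⟩ := quot_iso k (MvPolynomial (Fin (n + 2 * s)) B) (hyp φ s)
    exact hC.iso (viso e'.symm) h3

end LFQ
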