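import Pool.Agent.LFQ.M_UNO
import Pool.Agent.LFQ.M_UHY
import Pool.Agent.LFQ.M_HYP
import Pool.Agent.GZero.Quad

/-!
# LFQ: universality of systems of quadratic forms
-/

set_option autoImplicit false

open CategoryTheory AlgebraicGeometry Limits Polynomial TopologicalSpace

namespace LFQ

open Pool.Agent.Lib_helper55.Beil Pool.Agent.Lib_helper66.OneP CUB
open QCV (Dr OddSystems EvenSystems DoubleCovers gram gen dl_field dimLE_of_DL)
open QCV.UPD

variable {k : Type} [Field k] {P : Var k → Prop}

/-- Fewer equations. -/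
lemma oddSystems_pred (hC : Clo P) {q : ℕ} (h : OddSystems P (q + 1)) : OddSystems P q := by
  intro n f hn hf hdet
  refine hC.cls0.iso (Ideal.quotientEquivAlgOfEq k (span_app f)) (h n (app f) hn ?_ ?_)
  · intro j
    induction j using Fin.lastCases with
    | last => rw [app_last]; exact MvPolynomial.isHomogeneous_zero _ _ _
    | cast j => rw [app_castSucc]; exact hf j
  · rw [gen_app, gram_map, ← RingHom.map_det]
    intro h0
    apply hdet
    exact MvPolynomial.rename_injective _ (Fin.castSucc_injective q) (by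
      rw [map_zero]
      exact h0)

/-- Universality of systems of quadratic forms in an odd number of variables. -/
theorem universal [PerfectField k] (hPAR : S_PAR) (hC : Clo P) (h2 : (2 : k) ≠ 0)
    (h0 : ∀ X : Var k, X.DimLE (0 : ℕ) → P X) (d : ℕ) (ho : OddSystems P (d + 1)) :
    ∀ X : Var k, X.DimLE d → P X := by
  induction d with
  | zero => exact h0
  | succ d ih =>
    have hlow := ih (oddSystems_pred hC ho)
    exact t_UNO2 k P hC d hlow
      (t_HYP2 hPAR t_UST2 t_UHY2 t_GM2 k P hC h2 d hlow ho)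

/-- Double covers and systems of quadratic forms in an even number of variables. -/
theorem evens (hC : Clo P) (h2 : (2 : k) ≠ 0) (d : ℕ) (hlow : ∀ X : Var k, X.DimLE d → P X) :
    EvenSystems P (d + 1) ↔ DoubleCovers P (d + 1) := by
  constructor
  · exact t_DBC2 t_UST2 t_UHY2 t_GM2 k P hC h2 d hlow
  · intro hD n f hn hf hd
    obtain ⟨m, hm⟩ : ∃ m, n = 2 * m := by
      obtain ⟨m, hm⟩ := hn
      exact ⟨m, by omega⟩
    subst hm
    have h3 := QCV.Asm.s_EVS k (fun A [CommRing A] [Algebra k A] [Algebra.FiniteType k A] =>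
      P (aff k A)) d h2 (hC.cls hlow) (hC.even h2) k m (d + 1) 0 f (Nat.zero_le d) le_rfl
      (dl_field k) hf hd (by
        have h4 := hD (-((-1) ^ (m + 1) * (gram (gen f)).det))
        have key : ∀ c c' : MvPolynomial (Fin (d + 1)) k, c = c' →
            P (aff k (Dr (MvPolynomial (Fin (d + 1)) k) 0 c)) →
            P (aff k (Dr (MvPolynomial (Fin (d + 1)) k) 0 c')) := by
          rintro c _ rfl h
          exact h
        exact key _ _ (neg_neg _) h4)
    exact hC.zeros _ (d + 1) f h3

/-- Affine varieties and the hypersurfaces `y ^ 2 - y = t_0 f_0 + ... + t_m f_m`. -/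
lemma affine_of_smC (hC : Clo P) (h : SmC P) (A : Type) [CommRing A] [Algebra k A]
    [Algebra.FiniteType k A] : P (aff k A) := by
  obtain ⟨I, hI, r, f, hf, ⟨e⟩⟩ := Pool.Agent.GZero.exists_quadratic k A
  obtain ⟨n, ⟨σ⟩⟩ := Finite.exists_equiv_fin I
  let g : Fin (r + 1) → MvPolynomial (Fin n) k :=
    Fin.cons 0 (fun j => MvPolynomial.rename σ (f j))
  have hg0 : g 0 = 0 := rfl
  have hgs : ∀ j : Fin r, g j.succ = MvPolynomial.rename σ (f j) := fun j => rfl
  have hg : ∀ j, (g j).totalDegree ≤ 2 := by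
    intro j
    refine Fin.cases ?_ (fun j => ?_) j
    · rw [hg0, MvPolynomial.totalDegree_zero]
      exact Nat.zero_le _
    · rw [hgs]
      exact (MvPolynomial.totalDegree_rename_le _ _).trans (hf j)
  have h1 : P (aff k (VR (MvPolynomial (Fin n) k) g)) := by
    obtain ⟨s⟩ := UQ.sas_iso (k := k) g
    exact hC.iso ⟨s.e.symm, by rw [← s.comm]; exact s.e.inv_hom_id_assoc _⟩ (h n r g hg)
  have h2 := hC.zeros _ r g h1
  have hspan : Ideal.span (Set.range g) =
      (Ideal.span (Set.range f)).map (MvPolynomial.renameEquiv k σ : MvPolynomial I k ≃ₐ[k] _) := by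
    rw [Ideal.map_span, ← Set.range_comp]
    apply le_antisymm
    · rw [Ideal.span_le]
      rintro _ ⟨j, rfl⟩
      refine Fin.cases ?_ (fun j => ?_) j
      · rw [hg0]
        exact Ideal.zero_mem _
      · rw [hgs]
        exact Ideal.subset_span ⟨j, rfl⟩
    · rw [Ideal.span_le]
      rintro _ ⟨j, rfl⟩
      exact Ideal.subset_span ⟨j.succ, rfl⟩
  let e' := Ideal.quotientEquivAlg _ _ (MvPolynomial.renameEquiv k σ) hspan
  exact hC.cls0.iso (e'.symm.trans e) h2

/-- All varieties and smooth affine cubic hypersurfaces. -/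
theorem of_smC [PerfectField k] (hC : Clo P) (h : SmC P) (X : Var k) : P X := by
  obtain ⟨D, hD⟩ := CUB.t_FDM k X
  refine noeth hC D (fun V₀ hint hdim => ?_) X hD
  obtain ⟨A, i1, i2, i3, i4, j, hj⟩ := QCV.t_UAF k V₀
  exact ⟨aff k A, j, ⟨genericPoint _⟩, affine_of_smC hC h A⟩

end LFQ
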