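import Pool.Agent.LFQ.St
import Pool.Agent.QCV.U_FIN

/-!
# LFQ, module UNO: reduction to hypersurfaces
-/

set_option autoImplicit false

open CategoryTheory AlgebraicGeometry Limits Polynomial TopologicalSpace

namespace LFQ

open Pool.Agent.Lib_helper55.Beil Pool.Agent.Lib_helper66.OneP CUB
open QCV (Dr Bun Cls0 Cls Strat OddCl EvenCl DL)

variable {k : Type} [Field k] {P : Var k → Prop}

namespace UNO

/-- Geometric noetherian induction. -/
lemma aux [PerfectField k] (hC : Clo P) (e : ℕ)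
    (hpart : ∀ V₀ : Var k, IsIntegral V₀.X → V₀.DimLE (e : ℕ) →
      ∃ (U' : Var k) (_ : OpenIn U' V₀), Nonempty U'.X ∧ P U')
    (X₀ : Var k) (C : Closeds X₀.X) :
    ∀ (Y : Var k) (g : Y.X ⟶ X₀.X), g ≫ X₀.f = Y.f → IsPreimmersion g → (∀ y, g y ∈ C) →
      Y.DimLE (e : ℕ) → P Y := by
  induction C using WellFoundedLT.induction with
  | ind C ih =>
  intro Y g comm hg hC' hdimY
  apply hC.red
  have hdimR : (redVar Y).DimLE (e : ℕ) := QCV.dimLE_red hdimY
  have hred := isReduced_redVar Y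
  have hcl := (redVarIn Y).closed
  set Y' := redVar Y
  set g' : Y'.X ⟶ X₀.X := (redVarIn Y).g ≫ g
  have comm' : g' ≫ X₀.f = Y'.f := by
    rw [Category.assoc, comm, (redVarIn Y).comm]
  have hC'' : ∀ y, g' y ∈ C := fun y => hC' _
  rcases isEmpty_or_nonempty Y'.X with he | ⟨⟨x⟩⟩
  · exact hC.empty _ he
  obtain ⟨η, -, hη⟩ := exists_maximal Y' x
  obtain ⟨U, hU1, -, hU3, hU4, hU5, hU6⟩ := exists_nice Y' η hη ⊤ trivial
  have hop := (openVarIn Y' U).isOpen
  obtain ⟨U', j, ⟨u⟩, hU'⟩ := hpart (openVar Y' U) hU5 (QCV.dimLE_open (openVarIn Y' U) hdimR)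
  let jj : OpenIn U' Y' := j.trans (openVarIn Y' U)
  have hjj := jj.isOpen
  let K : Closeds Y'.X := (⟨Set.range jj.g, jj.g.isOpenEmbedding.isOpen_range⟩ : Opens Y'.X).compl
  have hcomp : Complementary (closedVarIn Y' K) jj := by
    rw [Complementary, range_closedVarIn]
    rfl
  refine hC.paste (closedVarIn Y' K) jj hcomp ?_ hU'
  have hclK := (closedVarIn Y' K).closed
  refine ih (Closeds.closure (g' '' (K : Set Y'.X)))
    (lt_of_closed g' C hC'' K (jj.g u) (fun hcon => hcon ⟨u, rfl⟩))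
    (closedVar Y' K) ((closedVarIn Y' K).g ≫ g') ?_ inferInstance ?_
    (QCV.dimLE_closed (closedVarIn Y' K) hdimR)
  · rw [Category.assoc, comm', (closedVarIn Y' K).comm]
  · intro y
    have h1 : (closedVarIn Y' K).g y ∈ (K : Set Y'.X) := by
      rw [← range_closedVarIn]
      exact ⟨y, rfl⟩
    exact subset_closure ⟨_, h1, rfl⟩

end UNO

/-- Noetherian induction: a property with the closure properties holds for `X` if every integral variety
of dimension at most `e` has a nonempty open subvariety with the property. -/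
theorem noeth [PerfectField k] (hC : Clo P) (e : ℕ)
    (hpart : ∀ V₀ : Var k, IsIntegral V₀.X → V₀.DimLE (e : ℕ) →
      ∃ (U' : Var k) (_ : OpenIn U' V₀), Nonempty U'.X ∧ P U') (X : Var k) (hX : X.DimLE (e : ℕ)) :
    P X :=
  UNO.aux hC e hpart X ⊤ X (𝟙 _) (Category.id_comp _) inferInstance (fun _ => trivial) hX

namespace UNO

/-- The open part `h ≠ 0` of `g = 0` is the complement of the closed part `h = 0` of `g h = 0`. -/
theorem away (k R : Type) [Field k] [CommRing R] [Algebra k R] (g h : R) :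
    ∃ u : (R ⧸ Ideal.span {g * h}) →ₐ[k] Localization.Away (Ideal.Quotient.mk (Ideal.span {g}) h),
      @IsLocalization.Away _ _ (Ideal.Quotient.mk (Ideal.span {g * h}) h) _ _
        u.toRingHom.toAlgebra := by
  let Q := R ⧸ Ideal.span {g}
  let L := Localization.Away (Ideal.Quotient.mk (Ideal.span {g}) h)
  let w : Q →ₐ[k] L := IsScalarTower.toAlgHom k _ _
  let v : R →ₐ[k] Q := Ideal.Quotient.mkₐ k (Ideal.span {g})
  have hloc : IsLocalization.Away (v h) L :=
    inferInstanceAs (IsLocalization.Away (Ideal.Quotient.mk (Ideal.span {g}) h)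
      (Localization.Away (Ideal.Quotient.mk (Ideal.span {g}) h)))
  have hg : v g = 0 := Ideal.Quotient.eq_zero_iff_mem.2 (Ideal.subset_span rfl)
  have hz : ∀ a ∈ Ideal.span {g * h}, (w.comp v) a = 0 := by
    intro a ha
    have h1 : Ideal.span {g * h} ≤ RingHom.ker (w.comp v) := by
      rw [Ideal.span_le]
      rintro _ rfl
      change w (v (g * h)) = 0
      rw [map_mul, hg, zero_mul, map_zero]
    exact h1 ha
  let u : (R ⧸ Ideal.span {g * h}) →ₐ[k] L := Ideal.Quotient.liftₐ _ (w.comp v) hz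
  have hu : ∀ F : R, u (Ideal.Quotient.mk _ F) = algebraMap Q L (v F) := fun F => rfl
  refine ⟨u, ?_⟩
  let _ : Algebra (R ⧸ Ideal.span {g * h}) L := u.toRingHom.toAlgebra
  refine (isLocalization_iff (Submonoid.powers (Ideal.Quotient.mk (Ideal.span {g * h}) h)) L).2
      ⟨?_, ?_, fun {a b} hab => ?_⟩
  · rintro ⟨_, n, rfl⟩
    change IsUnit (u (Ideal.Quotient.mk _ h ^ n))
    rw [map_pow, hu]
    exact (IsLocalization.Away.algebraMap_isUnit (S := L) (v h)).pow n
  · intro z
    obtain ⟨n, p, hp⟩ := IsLocalization.Away.surj (v h) z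
    obtain ⟨F, rfl⟩ := Ideal.Quotient.mk_surjective p
    refine ⟨⟨Ideal.Quotient.mk _ F, ⟨_, n, rfl⟩⟩, ?_⟩
    change z * u (Ideal.Quotient.mk _ h ^ n) = u (Ideal.Quotient.mk _ F)
    rw [map_pow, hu, hu]
    exact hp
  · obtain ⟨A, rfl⟩ := Ideal.Quotient.mk_surjective a
    obtain ⟨A', rfl⟩ := Ideal.Quotient.mk_surjective b
    have h1 : algebraMap Q L (v (A - A')) = 0 := by
      rw [map_sub, map_sub, sub_eq_zero]
      exact hab
    rw [IsLocalization.map_eq_zero_iff (Submonoid.powers (v h))] at h1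
    obtain ⟨⟨_, n, rfl⟩, h2⟩ := h1
    have h3 : g ∣ h ^ n * (A - A') := by
      have h4 : v (h ^ n * (A - A')) = 0 := by
        rw [map_mul, map_pow]
        exact h2
      exact Ideal.mem_span_singleton.mp (Ideal.Quotient.eq_zero_iff_mem.mp h4)
    obtain ⟨c, hc⟩ := h3
    refine ⟨⟨_, n + 1, rfl⟩, ?_⟩
    change Ideal.Quotient.mk _ h ^ (n + 1) * Ideal.Quotient.mk _ A =
      Ideal.Quotient.mk _ h ^ (n + 1) * Ideal.Quotient.mk _ A'
    rw [← sub_eq_zero, ← mul_sub, ← map_sub, ← map_pow, ← map_mul,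
      Ideal.Quotient.eq_zero_iff_mem]
    have h5 : h ^ (n + 1) * (A - A') = c * (g * h) := by
      have h6 : h ^ (n + 1) * (A - A') = h * (h ^ n * (A - A')) := by ring
      rw [h6, hc]
      ring
    rw [h5]
    exact Ideal.mul_mem_left _ _ (Ideal.mem_span_singleton_self _)

/-- The closed part `h = 0` of `g h = 0`. -/
theorem clo (k R : Type) [Field k] [CommRing R] [Algebra k R] (g h : R) :
    ∃ z : (R ⧸ Ideal.span {g * h}) →ₐ[k] (R ⧸ Ideal.span {h}), Function.Surjective z ∧
      RingHom.ker z.toRingHom = Ideal.span {Ideal.Quotient.mk (Ideal.span {g * h}) h} := by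
  have hle : Ideal.span {g * h} ≤ Ideal.span {h} := by
    rw [Ideal.span_singleton_le_iff_mem]
    exact Ideal.mul_mem_left _ _ (Ideal.mem_span_singleton_self _)
  refine ⟨Ideal.Quotient.factorₐ k hle, Ideal.Quotient.factor_surjective hle, ?_⟩
  ext x
  obtain ⟨r, rfl⟩ := Ideal.Quotient.mk_surjective x
  rw [RingHom.mem_ker]
  change Ideal.Quotient.mk (Ideal.span {h}) r = 0 ↔ _
  rw [Ideal.Quotient.eq_zero_iff_mem, Ideal.mem_span_singleton, Ideal.mem_span_singleton]
  constructor
  · rintro ⟨c, rfl⟩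
    exact ⟨Ideal.Quotient.mk _ c, map_mul _ _ _⟩
  · rintro ⟨c, hc⟩
    obtain ⟨c, rfl⟩ := Ideal.Quotient.mk_surjective c
    rw [← map_mul, ← sub_eq_zero, ← map_sub, Ideal.Quotient.eq_zero_iff_mem,
      Ideal.mem_span_singleton] at hc
    obtain ⟨e, he⟩ := hc
    exact ⟨c + g * e, by linear_combination he⟩

/-- The open part of a hypersurface. -/
lemma opnPart (hC : Clo P) {n : ℕ}
    (hyp : ∀ g : MvPolynomial (Fin n) k, P (aff k (MvPolynomial (Fin n) k ⧸ Ideal.span {g})))
    (g : MvPolynomial (Fin n) k) (h : MvPolynomial (Fin n) k ⧸ Ideal.span {g}) :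
    P (aff k (Localization.Away h)) := by
  obtain ⟨h', rfl⟩ := Ideal.Quotient.mk_surjective h
  obtain ⟨u, hu⟩ := away k _ g h'
  obtain ⟨z, hz1, hz2⟩ := clo k _ g h'
  exact hC.cls0.opn _ z u ⟨hz1, hz2, hu⟩ (hyp (g * h')) (hyp h')

/-- Every integral variety of dimension at most `d + 1` has a nonempty open part with the
property. -/
lemma part [PerfectField k] (hC : Clo P) (d : ℕ) (hlow : ∀ X : Var k, X.DimLE d → P X)
    (hyp : ∀ g : MvPolynomial (Fin (d + 2)) k,
      P (aff k (MvPolynomial (Fin (d + 2)) k ⧸ Ideal.span {g})))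
    (V₀ : Var k) (hint : IsIntegral V₀.X) (hdim : V₀.DimLE (d + 1 : ℕ)) :
    ∃ (U' : Var k) (_ : OpenIn U' V₀), Nonempty U'.X ∧ P U' := by
  obtain ⟨A, i1, i2, i3, i4, j, hj⟩ := QCV.t_UAF k V₀
  have hgd : Algebra.trdeg k A ≤ ((d + 1 : ℕ) : Cardinal) := by
    rw [← dim_generic_aff, hj]
    exact hdim _
  have hjo := j.isOpen
  obtain ⟨r, hr2, hr⟩ := Cardinal.exists_nat_eq_of_le_nat hgd
  rcases Nat.lt_or_ge d r with h1 | h1
  · obtain rfl : r = d + 1 := by omega
    obtain ⟨g, a, h, ha, ⟨e⟩⟩ := QCV.t_UHA k A (d + 1) hr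
    have hne : Nonempty (aff k (Localization.Away a)).X := by
      have : IsDomain (Localization.Away a) :=
        IsLocalization.isDomain_localization (powers_le_nonZeroDivisors_of_noZeroDivisors ha)
      exact ⟨genericPoint _⟩
    refine ⟨aff k (Localization.Away a), (opn (awayHom k a) (isOpenImmersion_away a)).trans j, hne,
      ?_⟩
    exact hC.iso (viso e.symm) (opnPart hC hyp g h)
  · refine ⟨aff k A, j, ⟨genericPoint _⟩, hlow _ fun x => ?_⟩
    refine (dim_le_of_specializes (aff k A) (genericPoint_specializes x)).trans ?_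
    rw [dim_generic_aff, hr]
    exact_mod_cast h1

end UNO

theorem t_UNO2 : S_UNO2 := by
  intro k _ _ P hC d hlow hyp X hX
  exact noeth hC (d + 1) (UNO.part hC d hlow hyp) X hX

end LFQ
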